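import Pool.Agent.Tw.Defs
import Pool.Agent.ML14.Growth

/-!
# The frame without vectors: the critical points of the likelihood function
-/

set_option autoImplicit false
set_option linter.unusedSectionVars false

namespace Pool.Tw

open Matrix Pool.ML

variable {I J : Type} [Fintype I] [Fintype J] [DecidableEq I] [DecidableEq J]

/-- C4a. -/
theorem fset_nil {r : ℕ} (u : Matrix I J ℂ) (hu : ∀ i j, u i j ≠ 0) (v : Matrix I (Fin 0) ℂ) :
    Prod.snd '' FSet (Frame.nil I) r u v = {P | PCrit r u P} := by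
  ext P
  constructor
  · rintro ⟨⟨q, P'⟩, ⟨φ, H, h⟩, rfl⟩
    dsimp only at h
    change PCrit r u P'
    have hne : ∀ i j, P' i j ≠ 0 := by
      intro i j h0
      have h1 := h.eq i j
      rw [h0, zero_mul] at h1
      exact hu i j h1.symm
    have hG : H = G u P' := by
      ext i j
      have h1 := h.eq i j
      have h2 := hne i j
      simp only [G, Matrix.of_apply]
      rw [← h1]
      field_simp
      ring
    refine ⟨h.rk, hne, ?_, ?_⟩
    · rw [← hG, h.om]
      ext i j
      simp [Matrix.mul_apply]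
    · rw [← hG]
      have h1 := congrArg Matrix.transpose h.PG
      rw [Matrix.transpose_mul, Matrix.transpose_transpose, Matrix.transpose_zero] at h1
      exact h1
  · intro hP
    refine ⟨(0, P), ⟨0, G u P, ?_⟩, rfl⟩
    refine ⟨?_, fun a => a.elim0, fun a => a.elim0, fun a => a.elim0, hP.rk, ⟨0, ?_⟩, ?_, ?_, ?_⟩
    · intro i j
      have h2 := hP.ne i j
      simp only [G, Matrix.of_apply]
      field_simp
      ring
    · rw [Matrix.mul_zero]
    · have h1 := congrArg Matrix.transpose hP.left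
      rw [Matrix.transpose_mul, Matrix.transpose_transpose, Matrix.transpose_zero] at h1
      exact h1
    · rw [Matrix.mul_zero]
    · rw [hP.right, Matrix.zero_mul]

theorem gen_nil {m n : ℕ} {u : Matrix (Fin m) (Fin n) ℂ}
    (hu : AlgebraicIndependent ℚ (fun x : Fin m × Fin n => u x.1 x.2))
    (v : Matrix (Fin m) (Fin 0) ℂ) : FGen (Frame.nil (Fin m)) u v := by
  have : IsEmpty (Frame.nil (Fin m)).Pos := ⟨fun x => x.1.2.elim0⟩
  have h1 : gdat (Frame.nil (Fin m)) u v = (fun x : Fin m × Fin n => u x.1 x.2) ∘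
      (Equiv.sumEmpty (Fin m × Fin n) (Frame.nil (Fin m)).Pos) := by
    funext x
    rcases x with x | x
    · rfl
    · exact this.elim x
  unfold FGen
  rw [h1]
  exact hu.comp _ (Equiv.injective _)

/-- C4b. -/
theorem isFN_crit {m n r N : ℕ} (hr : 1 ≤ r) (hm : r ≤ m) (hn : r ≤ n)
    (h : IsFN (Frame.nil (Fin m)) (Fin n) r N) :
    (∀ u : Matrix (Fin m) (Fin n) ℂ, AlgebraicIndependent ℚ (fun x : Fin m × Fin n => u x.1 x.2) →
      {p | IsCritical r u p}.Finite ∧ {p | IsCritical r u p}.ncard = N) ∧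
    (∀ u : Matrix (Fin n) (Fin m) ℂ, AlgebraicIndependent ℚ (fun x : Fin n × Fin m => u x.1 x.2) →
      {p | IsCritical r u p}.Finite ∧ {p | IsCritical r u p}.ncard = N) ∧
    (∀ N', IsMLDegree m n r N' ∨ IsMLDegree n m r N' → N' = N) := by
  have h1 : ∀ u : Matrix (Fin m) (Fin n) ℂ,
      AlgebraicIndependent ℚ (fun x : Fin m × Fin n => u x.1 x.2) →
      {p | IsCritical r u p}.Finite ∧ {p | IsCritical r u p}.ncard = N := by
    intro u hu
    have hs := Alg.sum_ne (le_trans hr hm) (le_trans hr hn) u hu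
    refine ⟨(finite_of_alg hr hm hn u hu).1, ?_⟩
    rw [← ncard_PCrit hs]
    have h2 := (h u 0 (gen_nil hu 0)).2
    rw [← h2, ← fset_nil u (fun i j => ?_) 0]
    · refine Set.ncard_image_of_injective _ ?_
      rintro ⟨q, P⟩ ⟨q', P'⟩ hP
      have hq : q = q' := by
        ext i a
        exact a.elim0
      rw [hq]
      exact Prod.ext rfl hP
    · exact hu.ne_zero (i, j)
  have h2 : ∀ u : Matrix (Fin n) (Fin m) ℂ,
      AlgebraicIndependent ℚ (fun x : Fin n × Fin m => u x.1 x.2) →
      {p | IsCritical r u p}.Finite ∧ {p | IsCritical r u p}.ncard = N := by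
    intro u hu
    have hs := Alg.sum_ne (le_trans hr hn) (le_trans hr hm) u hu
    refine ⟨(finite_of_alg hr hn hm u hu).1, ?_⟩
    rw [← ncard_transpose hs]
    exact (h1 uᵀ (Alg.transpose hu)).2
  refine ⟨h1, h2, ?_⟩
  rintro N' (h' | h')
  · obtain ⟨u, hu, hcard⟩ := exists_alg_of_MLDegree (le_trans hr hm) (le_trans hr hn) h'
    rw [← hcard]
    exact (h1 u hu).2
  · obtain ⟨u, hu, hcard⟩ := exists_alg_of_MLDegree (le_trans hr hn) (le_trans hr hm) h'
    rw [← hcard]
    exact (h2 u hu).2

end Pool.Tw
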