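import Pool.Agent.Tw.Strata

/-!
# The rank function in terms of the bases
-/

set_option autoImplicit false
set_option linter.unusedSectionVars false

namespace Pool.Tw

open EC Finset

variable {r N : ℕ}

/-- The columns. -/
def colv (A : Fin r × Fin N → ℂ) (j : Fin N) : Fin r → ℂ := fun i => A (i, j)

/-- The columns in `B` form a basis: the corresponding minor is different from zero. -/
def IsBase (A : Fin r × Fin N → ℂ) (B : Finset (Fin N)) : Prop :=
  ∃ h : B.card = r, (Matrix.of fun (i j : Fin r) => A (i, B.orderEmbOfFin h j)).det ≠ 0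

theorem isBase_iff (A : Fin r × Fin N → ℂ) (B : Finset (Fin N)) :
    IsBase A B ↔ B.card = r ∧ LinearIndepOn ℂ (colv A) (B : Set (Fin N)) := by
  have key : ∀ h : B.card = r, (Matrix.of fun (i j : Fin r) => A (i, B.orderEmbOfFin h j)).det ≠ 0 ↔
      LinearIndepOn ℂ (colv A) (B : Set (Fin N)) := by
    intro h
    rw [← isUnit_iff_ne_zero, ← Matrix.isUnit_iff_isUnit_det,
      ← Matrix.linearIndependent_cols_iff_isUnit]
    have h1 : (Matrix.of fun (i j : Fin r) => A (i, B.orderEmbOfFin h j)).col =
        (fun x : (B : Set (Fin N)) => colv A x) ∘ (B.orderIsoOfFin h) := rfl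
    rw [h1]
    exact linearIndependent_equiv (B.orderIsoOfFin h).toEquiv
  constructor
  · rintro ⟨h, hd⟩
    exact ⟨h, (key h).mp hd⟩
  · rintro ⟨h, hd⟩
    exact ⟨h, (key h).mpr hd⟩

/-- The rank is the dimension of the span of the columns. -/
theorem rkC_eq_finrank (A : Fin r × Fin N → ℂ) (J : Finset (Fin N)) :
    rkC (rspan A) J = Module.finrank ℂ (Submodule.span ℂ (colv A '' (J : Set (Fin N)))) := by
  let M : Matrix (Fin r) J ℂ := Matrix.of fun i j => A (i, j)
  have h1 : (rspan A).map (LinearMap.pi fun j : J => LinearMap.proj j.1) =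
      Submodule.span ℂ (Set.range M.row) := by
    rw [rspan, Submodule.map_span, ← Set.range_comp]
    rfl
  have h2 : colv A '' (J : Set (Fin N)) = Set.range M.col := by
    ext x
    constructor
    · rintro ⟨j, hj, rfl⟩
      exact ⟨⟨j, hj⟩, rfl⟩
    · rintro ⟨j, rfl⟩
      exact ⟨j.1, j.2, rfl⟩
  rw [rkC, h1, h2, ← Matrix.rank_eq_finrank_span_row, ← Matrix.rank_eq_finrank_span_cols]

theorem card_of_span {B J : Set (Fin N)} (A : Fin r × Fin N → ℂ) (hB : LinearIndepOn ℂ (colv A) B)
    (hBJ : B ⊆ J) (hJ : colv A '' J ⊆ Submodule.span ℂ (colv A '' B)) :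
    B.ncard = Module.finrank ℂ (Submodule.span ℂ (colv A '' J)) := by
  classical
  have h1 : Submodule.span ℂ (colv A '' J) = Submodule.span ℂ (colv A '' B) :=
    le_antisymm (Submodule.span_le.mpr hJ) (Submodule.span_mono (Set.image_mono hBJ))
  rw [h1]
  have : Fintype B := Fintype.ofFinite B
  have h2 := finrank_span_eq_card hB
  rw [Set.image_eq_range]
  rw [← Nat.card_coe_set_eq, Nat.card_eq_fintype_card]
  exact h2.symm

/-- An independent set of columns in `J` is not larger than the rank. -/
theorem card_le_rkC (A : Fin r × Fin N → ℂ) {B : Set (Fin N)} (hB : LinearIndepOn ℂ (colv A) B)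
    (J : Finset (Fin N)) (hBJ : B ⊆ J) : B.ncard ≤ rkC (rspan A) J := by
  rw [rkC_eq_finrank, card_of_span A hB le_rfl Submodule.subset_span]
  exact Submodule.finrank_mono (Submodule.span_mono (Set.image_mono hBJ))

/-- The span of all columns. -/
theorem finrank_cols (A : Fin r × Fin N → ℂ) :
    Module.finrank ℂ (Submodule.span ℂ (colv A '' Set.univ)) = Module.finrank ℂ (rspan A) := by
  let M : Matrix (Fin r) (Fin N) ℂ := Matrix.of fun i j => A (i, j)
  have h1 : rspan A = Submodule.span ℂ (Set.range M.row) := rfl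
  have h2 : colv A '' Set.univ = Set.range M.col := Set.image_univ
  rw [h1, h2, ← Matrix.rank_eq_finrank_span_row, ← Matrix.rank_eq_finrank_span_cols]

/-- There is a basis which contains as many elements of `J` as the rank says. -/
theorem exists_base (A : Fin r × Fin N → ℂ) (hA : Module.finrank ℂ (rspan A) = r)
    (J : Finset (Fin N)) : ∃ B : Finset (Fin N), IsBase A B ∧ rkC (rspan A) J ≤ (B ∩ J).card := by
  classical
  obtain ⟨b₁, h1, -, h2, h3⟩ := exists_linearIndepOn_extension (K := ℂ) (v := colv A)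
    (linearIndepOn_empty ℂ (colv A)) (Set.empty_subset (J : Set (Fin N)))
  obtain ⟨b₂, -, h4, h5, h6⟩ := exists_linearIndepOn_extension (K := ℂ) (v := colv A)
    h3 (Set.subset_univ b₁)
  have h7 := card_of_span A h3 h1 h2
  have h8 := card_of_span A h6 (Set.subset_univ b₂) h5
  rw [finrank_cols, hA] at h8
  refine ⟨b₂.toFinset, (isBase_iff A _).mpr ⟨?_, ?_⟩, ?_⟩
  · rw [← Set.ncard_eq_toFinset_card']
    exact h8
  · rw [Set.coe_toFinset]
    exact h6
  · rw [rkC_eq_finrank, ← h7, ← Set.ncard_coe_finset]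
    apply Set.ncard_le_ncard _ (Finset.finite_toSet _)
    intro x hx
    rw [Finset.mem_coe, Finset.mem_inter, Set.mem_toFinset]
    exact ⟨h4 hx, h1 hx⟩

theorem IsBase.card_inter_le {A : Fin r × Fin N → ℂ} {B : Finset (Fin N)} (hB : IsBase A B)
    (J : Finset (Fin N)) : (B ∩ J).card ≤ rkC (rspan A) J := by
  rw [← Set.ncard_coe_finset]
  apply card_le_rkC
  · apply ((isBase_iff A B).mp hB).2.mono
    intro x hx
    exact (Finset.mem_inter.mp (Finset.mem_coe.mp hx)).1
  · intro x hx
    exact (Finset.mem_inter.mp (Finset.mem_coe.mp hx)).2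

open Classical in
/-- The rank function in terms of the bases. -/
theorem rkC_eq_sup (A : Fin r × Fin N → ℂ) (hA : Module.finrank ℂ (rspan A) = r)
    (J : Finset (Fin N)) :
    rkC (rspan A) J = (univ.filter fun B => IsBase A B).sup fun B => (B ∩ J).card := by
  apply le_antisymm
  · obtain ⟨B, hB, h⟩ := exists_base A hA J
    refine h.trans ?_
    exact Finset.le_sup (f := fun B : Finset (Fin N) => (B ∩ J).card)
      (Finset.mem_filter.mpr ⟨Finset.mem_univ B, hB⟩)
  · apply Finset.sup_le
    intro B hB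
    exact (Finset.mem_filter.mp hB).2.card_inter_le J

/-- The rank function is determined by the set of bases. -/
theorem rkC_congr {A A' : Fin r × Fin N → ℂ} (hA : Module.finrank ℂ (rspan A) = r)
    (hA' : Module.finrank ℂ (rspan A') = r) (h : ∀ B, IsBase A B ↔ IsBase A' B) :
    rkC (rspan A) = rkC (rspan A') := by
  classical
  funext J
  rw [rkC_eq_sup A hA, rkC_eq_sup A' hA']
  congr 1
  ext B
  simp only [Finset.mem_filter, h]

end Pool.Tw
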