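import Pool.Agent.EU.NCDef
import Pool.Agent.ML14.Chart

/-!
# Rank `r` matrices with frame vectors in the column space: definitions

The unknowns are a matrix `P` of rank `r` (columns indexed by `J`) and frame vectors `q_a`
(`a : Fin l`) in its column space, with prescribed supports `S a` and with the entry `1` at the
pivots.  The data are `u` for the columns of `P` and the exponents `v` for the entries of the frame
vectors.
-/

set_option autoImplicit false
set_option linter.unusedSectionVars false

namespace Pool.Tw

open Matrix Pool.ML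

/-- Supports and pivots of a frame: every frame vector vanishes at the earlier pivots. -/
structure Frame (I : Type) (l : ℕ) where
  S : Fin l → Finset I
  piv : Fin l → I
  mem : ∀ a, piv a ∈ S a
  tri : ∀ a b, a < b → piv a ∉ S b

variable {I J : Type} [Fintype I] [Fintype J] [DecidableEq I] [DecidableEq J] {l : ℕ}

/-- The indices which are not pivots. -/
def Frame.free (F : Frame I l) : Finset I := Finset.univ.filter fun i => ∀ a, F.piv a ≠ i

/-- The free positions of the frame. -/
abbrev Frame.Pos (F : Frame I l) : Type := {x : I × Fin l // x.1 ∈ F.S x.2 ∧ x.1 ≠ F.piv x.2}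

/-- The frame without vectors. -/
def Frame.nil (I : Type) : Frame I 0 where
  S := Fin.elim0
  piv := Fin.elim0
  mem a := a.elim0
  tri a := a.elim0

/-- One more frame vector. -/
def Frame.snoc (F : Frame I l) (S : Finset I) (p : I) (hp : p ∈ S) (hS : S ⊆ F.free) :
    Frame I (l + 1) where
  S := Fin.snoc F.S S
  piv := Fin.snoc F.piv p
  mem a := by
    refine Fin.lastCases ?_ (fun a => ?_) a
    · simpa using hp
    · simpa using F.mem a
  tri a b := by
    refine Fin.lastCases ?_ (fun b => ?_) b
    · refine Fin.lastCases ?_ (fun a => ?_) a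
      · intro h
        exact absurd h (lt_irrefl _)
      · intro _ h
        simp only [Fin.snoc_castSucc, Fin.snoc_last] at h
        have h1 := hS h
        simp only [Frame.free, Finset.mem_filter, Finset.mem_univ, true_and] at h1
        exact h1 a rfl
    · refine Fin.lastCases ?_ (fun a => ?_) a
      · intro h
        exact absurd (h.trans (Fin.castSucc_lt_last b)) (lt_irrefl _)
      · intro h
        simp only [Fin.snoc_castSucc]
        exact F.tri a b (by simpa using h)

/-- The critical equations: `G = u / P - 1` and the multipliers `φ`. -/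
structure FSol {k : Type} [Field k] (F : Frame I l) (r : ℕ) (u : Matrix I J k)
    (v : Matrix I (Fin l) k) (q : Matrix I (Fin l) k) (P : Matrix I J k)
    (φ : Matrix I (Fin l) k) (G : Matrix I J k) : Prop where
  eq : ∀ i j, P i j * (1 + G i j) = u i j
  one : ∀ a, q (F.piv a) a = 1
  off : ∀ a i, i ∉ F.S a → q i a = 0
  on : ∀ a i, i ∈ F.S a → i ≠ F.piv a → q i a * φ i a = -v i a
  rk : P.rank = r
  mem : ∃ Z : Matrix J (Fin l) k, q = P * Z
  PG : Pᵀ * G = 0
  Pφ : Pᵀ * φ = 0
  om : P * Gᵀ = q * φᵀ

/-- The set of the critical points. -/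
def FSet (F : Frame I l) (r : ℕ) (u : Matrix I J ℂ) (v : Matrix I (Fin l) ℂ) :
    Set (Matrix I (Fin l) ℂ × Matrix I J ℂ) :=
  {x | ∃ φ G, FSol F r u v x.1 x.2 φ G}

/-- The data. -/
def gdat (F : Frame I l) (u : Matrix I J ℂ) (v : Matrix I (Fin l) ℂ) : (I × J) ⊕ F.Pos → ℂ :=
  Sum.elim (fun x => u x.1 x.2) (fun x => v x.1.1 x.1.2)

/-- Generic data. -/
def FGen (F : Frame I l) (u : Matrix I J ℂ) (v : Matrix I (Fin l) ℂ) : Prop :=
  AlgebraicIndependent ℚ (gdat F u v)

/-- The generic number of critical points is `N`. -/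
def IsFN (F : Frame I l) (J : Type) [Fintype J] [DecidableEq J] (r N : ℕ) : Prop :=
  ∀ (u : Matrix I J ℂ) (v : Matrix I (Fin l) ℂ), FGen F u v →
    (FSet F r u v).Finite ∧ (FSet F r u v).ncard = N

/-- The supports of the normalised frames with `l` vectors, the pivot of the support `A` being
`pc A`. -/
def NF (pc : Finset I → I) (l : ℕ) : Finset (Fin l → Finset I) :=
  Finset.univ.filter fun S => (∀ a, (S a).Nonempty) ∧ ∀ a b, a < b → pc (S a) ∉ S b

/-- The frame of a family of supports. -/
def frm (pc : Finset I → I) (hpc : ∀ A : Finset I, A.Nonempty → pc A ∈ A) {l : ℕ}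
    (S : Fin l → Finset I) (hS : S ∈ NF pc l) : Frame I l where
  S := S
  piv := fun a => pc (S a)
  mem a := hpc _ ((Finset.mem_filter.mp hS).2.1 a)
  tri a b h := (Finset.mem_filter.mp hS).2.2 a b h

/-- The frame with the entries `x` in the free positions, as a point of `Fin r × Fin m → ℂ`. -/
def frameOf {m r : ℕ} (F : Frame (Fin m) r) (x : F.Pos → ℂ) : Fin r × Fin m → ℂ :=
  fun c => if h : c.2 ∈ F.S c.1 ∧ c.2 ≠ F.piv c.1 then x ⟨(c.2, c.1), h⟩
    else if c.2 = F.piv c.1 then 1 else 0

end Pool.Tw
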