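import Pool.Agent.Tw.FullDefs
import Pool.Agent.EU.Peel

/-!
# Full frames: the fibration formula
-/

set_option autoImplicit false
set_option linter.unusedSectionVars false

namespace Pool.Tw

open Matrix Pool.ML Pool.EU

variable {m d : ℕ}

section nat

variable {R R' : Type} [CommRing R] [CommRing R']

theorem gq_map (f : R →+* R') (F : Frame (Fin m) (d + 1)) (x : F.Pos → R) :
    gq F (fun i => f (x i)) = (gq F x).map f := by
  ext i a
  simp only [gq, Matrix.of_apply, Matrix.map_apply]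
  split_ifs
  · rfl
  · rw [map_one]
  · rw [map_zero]

theorem gQp_map (f : R →+* R') (F : Frame (Fin m) (d + 1)) (x : F.Pos → R) :
    gQp F (fun i => f (x i)) = (gQp F x).map f := by
  ext i a
  simp only [gQp, Matrix.of_apply, Matrix.map_apply]
  rw [gq_map]
  rfl

theorem gc_map (f : R →+* R') (n : ℕ) (y : Fin d × Fin n → R) :
    gc d n (fun i => f (y i)) = (gc d n y).map f := by
  ext a j
  simp only [gc, Matrix.of_apply, Matrix.map_apply]
  refine Fin.cases ?_ (fun a => ?_) a
  · simp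
  · simp

theorem gT_map (f : R →+* R') (F : Frame (Fin m) (d + 1)) {n : ℕ} (x : F.Pos → R)
    (y : Fin d × Fin n → R) :
    gT F (fun i => f (x i)) (fun i => f (y i)) = (gT F x y).map f := by
  rw [gT, gT, gQp_map, gc_map, Matrix.map_mul, ← RingHom.mapMatrix_apply, ← RingHom.mapMatrix_apply,
    ← RingHom.map_adjugate]

theorem gp_map (f : R →+* R') (F : Frame (Fin m) (d + 1)) {n : ℕ} (x : F.Pos → R)
    (y : Fin d × Fin n → R) :
    gp F (fun i => f (x i)) (fun i => f (y i)) = (gp F x y).map f := by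
  rw [gp, gp, gq_map, gT_map, Matrix.map_mul]

/-- The polynomials are natural. -/
theorem gf_map (f : R →+* R') (F : Frame (Fin m) (d + 1)) {n : ℕ} (x : F.Pos → R)
    (y : Fin d × Fin n → R) (c : Kp F n) :
    gf F (fun i => f (x i)) (fun i => f (y i)) c = f (gf F x y c) := by
  obtain ⟨c, j⟩ := c
  simp only [gf]
  rw [gp_map]
  rcases c with _ | i
  · simp [map_sum]
  · rfl

end nat

open MvPolynomial

theorem fP_eval_gf {R : Type} [CommRing R] [Algebra ℂ R] (F : Frame (Fin m) (d + 1)) (n : ℕ)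
    (z : F.Pos ⊕ (Fin d × Fin n) → R) (c : Kp F n) :
    aeval z (fP F n c) = gf F (fun i => z (Sum.inl i)) (fun i => z (Sum.inr i)) c := by
  have h := gf_map (aeval z : MvPolynomial (F.Pos ⊕ (Fin d × Fin n)) ℂ →ₐ[ℂ] R).toRingHom F
    (fun i => X (Sum.inl i)) (fun i => X (Sum.inr i)) c
  simp only [AlgHom.toRingHom_eq_coe, RingHom.coe_coe, aeval_X] at h
  exact h.symm

/-- C1c: the fibration formula, from the fibration formula over the punctured line. -/
theorem nc_fP_of (hNC : NCeq) (hP : Peel) (F : Frame (Fin m) (d + 1)) (n : ℕ) :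
    (NC (fP F n) : ℤ) = (-1) ^ Fintype.card F.Pos * EC.E (fun x : F.Pos → ℂ =>
      open Classical in if ∃ i, x i = 0 then 0 else (NC (fX F n x) : ℤ)) := by
  classical
  set e := Fintype.equivFin F.Pos with he
  have h := (peelF_of hNC hP (Fintype.card F.Pos) (Fin d × Fin n) (Kp F n)
    (fun c => rename (Equiv.sumCongr e (Equiv.refl _)) (fP F n c))).2
  rw [NC_rename hNC] at h
  rw [h]
  congr 1
  unfold EC.E
  congr 1
  funext x
  unfold fibNF
  change _ = if ∃ i, (x ∘ e) i = 0 then 0 else (NC (fX F n (x ∘ e)) : ℤ)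
  have h1 : (∃ i, x i = 0) ↔ ∃ i, (x ∘ e) i = 0 := by
    constructor
    · rintro ⟨i, hi⟩
      exact ⟨e.symm i, by simpa using hi⟩
    · rintro ⟨i, hi⟩
      exact ⟨e i, hi⟩
  by_cases hx : ∃ i, x i = 0
  · rw [if_pos hx, if_pos (h1.mp hx)]
  · rw [if_neg hx, if_neg (fun h2 => hx (h1.mpr h2))]
    congr 2
    funext c
    rw [subF, aeval_rename, fP_eval_gf]
    rfl

/-- C1c: the fibration formula. -/
theorem nc_fP (F : Frame (Fin m) (d + 1)) (n : ℕ) :
    (NC (fP F n) : ℤ) = (-1) ^ Fintype.card F.Pos * EC.E (fun x : F.Pos → ℂ =>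
      open Classical in if ∃ i, x i = 0 then 0 else (NC (fX F n x) : ℤ)) :=
  nc_fP_of (fun _ _ _ _ _ _ f T hT hf y hy => (NC_eq f T hT hf _ _ (by
    convert hy using 1
    ext (i | j) <;> rfl)).2) peel F n

end Pool.Tw
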