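import Pool.Agent.Tw.FibP
import Pool.Agent.EU.Peeled

/-!
# The fibres of the full frames

The number of critical points of a product family, and of the column family.
-/

set_option autoImplicit false
set_option linter.unusedSectionVars false

namespace Pool.Tw

open Matrix Pool.ML Pool.EU

section prod

open MvPolynomial

variable {ι κ : Type} [Fintype ι] [Fintype κ] [DecidableEq ι] [DecidableEq κ]

theorem pderiv_rename_zero {σ τ : Type} (g : σ → τ) (a : τ) (ha : ∀ i, g i ≠ a)
    (p : MvPolynomial σ ℂ) : pderiv a (rename g p) = 0 := by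
  classical
  induction p using MvPolynomial.induction_on with
  | C a => simp
  | add p q hp hq => rw [map_add, map_add, hp, hq, add_zero]
  | mul_X p i hp =>
    rw [map_mul, rename_X, Derivation.leibniz, hp, smul_zero, add_zero, pderiv_X_of_ne (ha i),
      smul_zero]

/-- The family of the copies of `f`. -/
noncomputable def prodF (α : Type) (f : κ → MvPolynomial ι ℂ) :
    κ × α → MvPolynomial (ι × α) ℂ :=
  fun c => rename (fun i => (i, c.2)) (f c.1)

theorem inj_pair {α : Type} (j : α) : Function.Injective (fun i : ι => (i, j)) :=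
  fun _ _ h => congrArg Prod.fst h

/-- The critical points of a product family. -/
theorem mem_crit_prod {α : Type} [Fintype α] [DecidableEq α] (f : κ → MvPolynomial ι ℂ)
    (v : ι × α → ℂ) (t : κ × α → ℂ) (y : ι × α → ℂ) :
    y ∈ Crit (prodF α f) v t ↔ ∀ j, (fun i => y (i, j)) ∈
      Crit f (fun i => v (i, j)) (fun c => t (c, j)) := by
  have he : ∀ (j : α) (p : MvPolynomial ι ℂ),
      eval y (rename (fun i => (i, j)) p) = eval (fun i => y (i, j)) p := by
    intro j p
    rw [eval_rename]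
    rfl
  have hsum : ∀ i j, ∑ c : κ × α, t c * (y (i, j) * eval y (pderiv (i, j) (prodF α f c)) /
      eval y (prodF α f c)) = ∑ c : κ, t (c, j) * (y (i, j) *
        eval (fun i => y (i, j)) (pderiv i (f c)) / eval (fun i => y (i, j)) (f c)) := by
    intro i j
    rw [Fintype.sum_prod_type_right, Finset.sum_eq_single j]
    · refine Finset.sum_congr rfl fun c _ => ?_
      rw [prodF, he, pderiv_rename (inj_pair j), he]
    · intro j' _ hj'
      refine Finset.sum_eq_zero fun c _ => ?_
      have h1 : pderiv (i, j) (prodF α f (c, j')) = 0 :=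
        pderiv_rename_zero _ _ (fun i' h => hj' (congrArg Prod.snd h)) _
      rw [h1, map_zero, mul_zero, zero_div, mul_zero]
    · intro h
      exact absurd (Finset.mem_univ j) h
  constructor
  · rintro ⟨h1, h2, h3⟩ j
    refine ⟨fun i => h1 (i, j), fun c => ?_, fun i => ?_⟩
    · rw [← he]
      exact h2 (c, j)
    · have h4 := h3 (i, j)
      rw [hsum i j] at h4
      exact h4
  · intro h
    refine ⟨fun i => (h i.2).1 i.1, fun c => ?_, fun i => ?_⟩
    · rw [prodF, he]
      exact (h c.2).2.1 c.1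
    · obtain ⟨i, j⟩ := i
      rw [hsum i j]
      exact (h j).2.2 i

/-- The number of the critical points of a product family. -/
theorem NC_prod (α : Type) [Fintype α] [DecidableEq α] (f : κ → MvPolynomial ι ℂ) :
    NC (prodF α f) = NC f ^ Fintype.card α := by
  classical
  obtain ⟨v, t, h⟩ := exists_generic (ι := ι × α) (κ := κ × α) (coefs f)
    (coefs_countable f).countable
  have hco : coefs (prodF α f) ⊆ acl (coefs f) := by
    rintro _ ⟨c, m, rfl⟩
    by_cases hm : coeff m (prodF α f c) = 0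
    · rw [hm]
      exact (acl (coefs f)).zero_mem
    · obtain ⟨u, hu, -⟩ := coeff_rename_ne_zero _ _ m hm
      refine subset_acl _ ⟨c.1, u, ?_⟩
      rw [← hu, prodF, coeff_rename_mapDomain _ (inj_pair c.2)]
  have h1 := (NC_eq (prodF α f) (coefs f) (coefs_countable f).countable hco v t h).2
  have h2 : ∀ j : α, (Crit f (fun i => v (i, j)) (fun c => t (c, j))).ncard = NC f := by
    intro j
    refine (NC_eq f (coefs f) (coefs_countable f).countable (subset_acl _) _ _ ?_).2
    have h3 := h.comp (Sum.map (fun i : ι => (i, j)) (fun c : κ => (c, j)))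
      (Sum.map_injective.mpr ⟨inj_pair j, inj_pair j⟩)
    convert h3 using 1
    ext (i | c) <;> rfl
  rw [← h1, ← Nat.card_coe_set_eq]
  have e : (Crit (prodF α f) v t) ≃
      ((j : α) → (Crit f (fun i => v (i, j)) (fun c => t (c, j)))) :=
    { toFun := fun y j => ⟨fun i => y.1 (i, j), (mem_crit_prod f v t y.1).mp y.2 j⟩
      invFun := fun z => ⟨fun i => (z i.2).1 i.1,
        (mem_crit_prod f v t _).mpr fun j => (z j).2⟩
      left_inv := fun y => rfl
      right_inv := fun z => rfl }
  rw [Nat.card_congr e, Nat.card_pi]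
  simp only [Nat.card_coe_set_eq, h2]
  rw [Finset.prod_const, Finset.card_univ]

end prod

section column

variable {m d : ℕ}

theorem gQp_lower {R : Type} [CommRing R] (F : Frame (Fin m) (d + 1)) (x : F.Pos → R) :
    (gQp F x).IsLowerTriangular := by
  intro b a hab
  have hab' : b < a := hab
  have h1 : F.piv b ∉ F.S a := F.tri b a hab'
  have h2 : F.piv b ≠ F.piv a := fun h => h1 (h ▸ F.mem a)
  simp only [gQp, gq, Matrix.of_apply]
  rw [dif_neg (fun h => h1 h.1), if_neg h2]

theorem gQp_diag {R : Type} [CommRing R] (F : Frame (Fin m) (d + 1)) (x : F.Pos → R)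
    (a : Fin (d + 1)) : gQp F x a a = 1 := by
  simp only [gQp, gq, Matrix.of_apply]
  rw [dif_neg (fun h => h.2 rfl), if_pos trivial]

theorem det_gQp {R : Type} [CommRing R] (F : Frame (Fin m) (d + 1)) (x : F.Pos → R) :
    (gQp F x).det = 1 := by
  rw [det_of_isLowerTriangular _ (gQp_lower F x)]
  exact Finset.prod_eq_one fun a _ => gQp_diag F x a

variable (F : Frame (Fin m) (d + 1)) (x : F.Pos → ℂ)

/-- The point with the entries `z` at the pivots. -/
noncomputable def ex (z : Fin (d + 1) → ℂ) : Fin m → ℂ :=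
  gq F x *ᵥ (adjugate (gQp F x) *ᵥ z)

theorem mulVec_gq (w : Fin (d + 1) → ℂ) : gq F x *ᵥ w = EC.comb (frameOf F x) w := by
  ext i
  rw [EC.comb_apply, Finset.sum_apply, mulVec, dotProduct]
  refine Finset.sum_congr rfl fun a _ => ?_
  rw [Pi.smul_apply, smul_eq_mul, mul_comm]
  rfl

theorem mulVec_piv (w : Fin (d + 1) → ℂ) (b : Fin (d + 1)) :
    (gq F x *ᵥ w) (F.piv b) = (gQp F x *ᵥ w) b := rfl

theorem eq_zero_of_piv (w : Fin (d + 1) → ℂ) (h : ∀ b, (gq F x *ᵥ w) (F.piv b) = 0) : w = 0 := by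
  have h1 : gQp F x *ᵥ w = 0 := funext fun b => h b
  by_contra hw
  have h2 := Matrix.exists_mulVec_eq_zero_iff.mp ⟨w, hw, h1⟩
  rw [det_gQp] at h2
  exact one_ne_zero h2

theorem ex_piv (z : Fin (d + 1) → ℂ) (b : Fin (d + 1)) : ex F x z (F.piv b) = z b := by
  rw [ex, mulVec_piv, mulVec_mulVec, mul_adjugate, det_gQp, one_smul, one_mulVec]

theorem ex_mem (z : Fin (d + 1) → ℂ) : ex F x z ∈ EC.rspan (frameOf F x) := by
  rw [← EC.range_comb, ex, mulVec_gq]
  exact ⟨_, rfl⟩

theorem finrank_rspan_frameOf : Module.finrank ℂ (EC.rspan (frameOf F x)) = d + 1 := by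
  rw [← EC.range_comb, LinearMap.finrank_range_of_inj]
  · rw [Module.finrank_fintype_fun_eq_card, Fintype.card_fin]
  · rw [← LinearMap.ker_eq_bot, LinearMap.ker_eq_bot']
    intro w hw
    apply eq_zero_of_piv F x w
    intro b
    rw [mulVec_gq, hw]
    rfl

open MvPolynomial in
/-- The polynomials of a column. -/
noncomputable def fX1 : Option {i // i ∈ F.free} → MvPolynomial (Fin d) ℂ :=
  fun c => gf F (fun i => C (x i)) (fun i : Fin d × Fin 1 => X i.1) (c, 0)

theorem gf_col {R : Type} [CommRing R] {n : ℕ} (F : Frame (Fin m) (d + 1)) (x : F.Pos → R)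
    (y : Fin d × Fin n → R) (c : Option {i // i ∈ F.free}) (j : Fin n) :
    gf F x y (c, j) = gf F x (fun i : Fin d × Fin 1 => y (i.1, j)) (c, 0) := rfl

open MvPolynomial in
theorem fX_eq (n : ℕ) : fX F n x = prodF (Fin n) (fX1 F x) := by
  funext c
  obtain ⟨c, j⟩ := c
  have h := gf_map (rename (fun i : Fin d => (i, j)) :
    MvPolynomial (Fin d) ℂ →ₐ[ℂ] MvPolynomial (Fin d × Fin n) ℂ).toRingHom F
    (fun i => C (x i)) (fun i : Fin d × Fin 1 => X i.1) (c, 0)
  rw [fX, gf_col, prodF, fX1]
  simp only [AlgHom.toRingHom_eq_coe, RingHom.coe_coe, rename_X, rename_C] at h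
  exact h

/-- The entries of a column. -/
theorem gp_ex (y : Fin d → ℂ) (i : Fin m) :
    gp F x (fun i : Fin d × Fin 1 => y i.1) i 0 = ex F x (Fin.cons 1 y) i := by
  rw [ex, mulVec_mulVec, gp, gT, ← Matrix.mul_assoc]
  simp only [Matrix.mul_apply, mulVec, dotProduct]
  refine Finset.sum_congr rfl fun a _ => ?_
  congr 1

open MvPolynomial in
theorem eval_fX1 (y : Fin d → ℂ) (c : Option {i // i ∈ F.free}) : eval y (fX1 F x c) =
    c.elim (∑ i, ex F x (Fin.cons 1 y) i) (fun i => ex F x (Fin.cons 1 y) i.1) := by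
  have h := gf_map (eval y : MvPolynomial (Fin d) ℂ →+* ℂ) F
    (fun i => C (x i)) (fun i : Fin d × Fin 1 => X i.1) (c, 0)
  simp only [eval_X, eval_C] at h
  rw [fX1, ← h, gf]
  simp only [gp_ex]

open MvPolynomial in
theorem set_eq : {y : Fin d → ℂ | (∀ i, y i ≠ 0) ∧ ∀ c, eval y (fX1 F x c) ≠ 0} =
    {y | ∀ b, EC.fn ℂ m b (ex F x (Fin.cons 1 y)) ≠ 0} := by
  ext y
  rw [Set.mem_setOf_eq, Set.mem_setOf_eq]
  constructor
  · rintro ⟨h1, h2⟩ b
    rcases b with _ | i
    · have h3 := h2 none
      rw [eval_fX1] at h3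
      simpa [EC.fn] using h3
    · change ex F x (Fin.cons 1 y) i ≠ 0
      by_cases hi : i ∈ F.free
      · have h3 := h2 (some ⟨i, hi⟩)
        rw [eval_fX1] at h3
        exact h3
      · have h3 : ∃ a, F.piv a = i := by
          by_contra hcon
          push Not at hcon
          exact hi (Finset.mem_filter.mpr ⟨Finset.mem_univ i, hcon⟩)
        obtain ⟨a, rfl⟩ := h3
        rw [ex_piv]
        refine Fin.cases ?_ (fun a => ?_) a
        · exact one_ne_zero
        · exact h1 a
  · intro h
    refine ⟨fun a => ?_, fun c => ?_⟩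
    · have h1 := h (some (F.piv a.succ))
      change ex F x (Fin.cons 1 y) (F.piv a.succ) ≠ 0 at h1
      rw [ex_piv] at h1
      exact h1
    · rw [eval_fX1]
      rcases c with _ | i
      · have h1 := h none
        simpa [EC.fn] using h1
      · exact h (some i.1)

theorem NC_fX1 : (NC (fX1 F x) : ℤ) = EC.beta (EC.rspan (frameOf F x)) := by
  have h1 := nc_chi d (Option {i // i ∈ F.free}) (fX1 F x)
  rw [h1, set_eq, EC.chi_pivots (EC.rspan (frameOf F x)) (finrank_rspan_frameOf F x) F.piv
    (ex F x) (fun z => ⟨ex_mem F x z, ex_piv F x z⟩), ← mul_assoc, ← mul_pow]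
  · norm_num
  · intro y hy hy0
    rw [← EC.range_comb] at hy
    obtain ⟨w, rfl⟩ := hy
    rw [← mulVec_gq] at hy0 ⊢
    rw [eq_zero_of_piv F x w hy0, mulVec_zero]

/-- C1b: the fibres. -/
theorem nc_fX (F : Frame (Fin m) (d + 1)) (n : ℕ) (x : F.Pos → ℂ) (_hx : ∀ i, x i ≠ 0) :
    (NC (fX F n x) : ℤ) = EC.beta (EC.rspan (frameOf F x)) ^ n := by
  rw [fX_eq, NC_prod, Fintype.card_fin, Nat.cast_pow, NC_fX1]

end column

end Pool.Tw
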