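import Pool.Agent.Tw.Defs
import Pool.Agent.EC.Mom

/-!
# The sum over the supports is the integral over the normalised frames
-/

set_option autoImplicit false
set_option linter.unusedSectionVars false

namespace Pool.Tw

open MvPolynomial EC

/-- The entries of `frameOf` as polynomials in the free entries. -/
noncomputable def frameP {m r : ℕ} (F : Frame (Fin m) r) (c : Fin r × Fin m) :
    MvPolynomial F.Pos ℂ :=
  if h : c.2 ∈ F.S c.1 ∧ c.2 ≠ F.piv c.1 then X ⟨(c.2, c.1), h⟩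
    else if c.2 = F.piv c.1 then 1 else 0

lemma eval_frameP {m r : ℕ} (F : Frame (Fin m) r) (x : F.Pos → ℂ) :
    (fun c => eval x (frameP F c)) = frameOf F x := by
  ext c
  unfold frameP frameOf
  split_ifs <;> simp

/-- The frames with supports and pivots as in `F`. -/
def FrS {m r : ℕ} (F : Frame (Fin m) r) : Set (Fin r × Fin m → ℂ) :=
  {q | ∀ a, (∀ i, q (a, i) ≠ 0 ↔ i ∈ F.S a) ∧ q (a, F.piv a) = 1}

lemma mem_FrS {m r : ℕ} (F : Frame (Fin m) r) (q : Fin r × Fin m → ℂ) :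
    q ∈ FrS F ↔ ∃ x ∈ {x : F.Pos → ℂ | ∀ i, x i ≠ 0}, (fun c => eval x (frameP F c)) = q := by
  constructor
  · intro hq
    refine ⟨fun p => q (p.1.2, p.1.1), fun p => ((hq p.1.2).1 p.1.1).2 p.2.1, ?_⟩
    rw [eval_frameP]
    ext ⟨a, i⟩
    unfold frameOf
    split_ifs with h1 h3
    · rfl
    · have h4 : i = F.piv a := h3
      rw [h4, (hq a).2]
    · symm
      by_contra hc
      have h4 := ((hq a).1 i).1 hc
      exact h1 ⟨h4, h3⟩
  · rintro ⟨x, hx, rfl⟩
    rw [eval_frameP]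
    intro a
    refine ⟨fun i => ?_, ?_⟩
    · unfold frameOf
      split_ifs with h1 h3
      · exact ⟨fun _ => h1.1, fun _ => hx _⟩
      · have h4 : i = F.piv a := h3
        simp only [ne_eq, one_ne_zero, not_false_eq_true, true_iff]
        rw [h4]
        exact F.mem a
      · simp only [ne_eq, not_true_eq_false, false_iff]
        intro h4
        exact h1 ⟨h4, h3⟩
    · unfold frameOf
      rw [dif_neg (fun h => h.2 rfl), if_pos rfl]

theorem E_frm (h2 : Swap2 ℂ) {m r : ℕ} (F : Frame (Fin m) r) {f : (Fin r × Fin m → ℂ) → ℤ}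
    (hf : CF f) : Cons (FrS F) ∧
    E (fun q => ind (FrS F) q * f q) =
      E (fun x : F.Pos → ℂ => open Classical in if ∃ i, x i = 0 then 0 else f (frameOf F x)) := by
  have hS : Cons {x : F.Pos → ℂ | ∀ i, x i ≠ 0} := by
    have h3 : {x : F.Pos → ℂ | ∀ i, x i ≠ 0} = ⋂ i, {x | eval x (X i : MvPolynomial F.Pos ℂ) ≠ 0} := by
      ext x
      simp
    rw [h3]
    exact Cons.iInter fun i => Cons.ne _
  have h3 := E_graph h2 (frameP F) hS hf (fun x hx y hy hxy => by
    rw [eval_frameP, eval_frameP] at hxy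
    ext p
    have h4 := congrFun hxy (p.1.2, p.1.1)
    unfold frameOf at h4
    rw [dif_pos p.2, dif_pos p.2] at h4
    exact h4)
  have h4 : {y : Fin r × Fin m → ℂ | ∃ x ∈ {x : F.Pos → ℂ | ∀ i, x i ≠ 0},
      (fun k => eval x (frameP F k)) = y} = FrS F := by
    ext q
    exact (mem_FrS F q).symm
  rw [h4] at h3
  refine ⟨h3.1, h3.2.symm.trans ?_⟩
  congr 1
  ext x
  rw [eval_frameP]
  by_cases hx : ∃ i, x i = 0
  · rw [if_pos hx]
    have e1 : ind {x : F.Pos → ℂ | ∀ i, x i ≠ 0} x = 0 := if_neg fun h => by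
      obtain ⟨i, hi⟩ := hx
      exact h i hi
    rw [e1, zero_mul]
  · rw [if_neg hx]
    have e1 : ind {x : F.Pos → ℂ | ∀ i, x i ≠ 0} x = 1 := if_pos fun i hi => hx ⟨i, hi⟩
    rw [e1, one_mul]

/-- C2. -/
theorem sum_frames' (h2 : Swap2 ℂ) {m r : ℕ} (pc : Finset (Fin m) → Fin m)
    (hpc : ∀ A : Finset (Fin m), A.Nonempty → pc A ∈ A)
    (hpc' : ∀ A : Finset (Fin m), ∀ i ∈ A, pc A ≤ i)
    (g : (Fin r × Fin m → ℂ) → ℤ) (hg : EC.CF (fun q => EC.ind (EC.Fr ℂ r m) q * g q)) :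
    EC.E (fun q : Fin r × Fin m → ℂ => EC.ind (EC.Fr ℂ r m) q * g q) =
      ∑ S ∈ (NF pc r).attach, EC.E (fun x : (frm pc hpc S.1 S.2).Pos → ℂ =>
        open Classical in if ∃ i, x i = 0 then 0 else g (frameOf _ x)) := by
  classical
  -- the pieces lie in `Fr`
  have hsub : ∀ S (hS : S ∈ NF pc r), FrS (frm pc hpc S hS) ⊆ EC.Fr ℂ r m := by
    intro S hS q hq
    refine ⟨fun a => pc (S a), fun a => ⟨(hq a).2, fun i hi => ?_, fun l hl => ?_⟩⟩
    · by_contra hc
      have h3 : i ∈ S a := ((hq a).1 i).1 hc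
      exact absurd (hpc' _ i h3) (not_le.2 hi)
    · by_contra hc
      have h3 : pc (S l) ∈ S a := ((hq a).1 _).1 hc
      exact (Finset.mem_filter.mp hS).2.2 l a hl h3
  -- every frame lies in exactly one piece
  have hcov : ∀ q ∈ EC.Fr ℂ r m, ∃ S, ∃ hS : S ∈ NF pc r, q ∈ FrS (frm pc hpc S hS) := by
    rintro q ⟨p, hp⟩
    set S : Fin r → Finset (Fin m) := fun a => Finset.univ.filter fun i => q (a, i) ≠ 0 with hS
    have hne : ∀ a, p a ∈ S a := by
      intro a
      refine Finset.mem_filter.2 ⟨Finset.mem_univ _, ?_⟩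
      rw [(hp a).1]
      exact one_ne_zero
    have hpp : ∀ a, pc (S a) = p a := by
      intro a
      have h3 := hpc (S a) ⟨_, hne a⟩
      have h4 := hpc' (S a) _ (hne a)
      rcases eq_or_lt_of_le h4 with h5 | h5
      · exact h5
      · exact absurd ((hp a).2.1 _ h5) (Finset.mem_filter.1 h3).2
    have hNF : S ∈ NF pc r := by
      refine Finset.mem_filter.2 ⟨Finset.mem_univ _, fun a => ⟨_, hne a⟩, fun a b hab h3 => ?_⟩
      rw [hpp a] at h3
      exact (Finset.mem_filter.1 h3).2 ((hp b).2.2 a hab)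
    refine ⟨S, hNF, fun a => ⟨fun i => ?_, ?_⟩⟩
    · show q (a, i) ≠ 0 ↔ i ∈ S a
      simp [hS]
    · show q (a, pc (S a)) = 1
      rw [hpp a]
      exact (hp a).1
  have huniq : ∀ q S S' (hS : S ∈ NF pc r) (hS' : S' ∈ NF pc r), q ∈ FrS (frm pc hpc S hS) →
      q ∈ FrS (frm pc hpc S' hS') → S = S' := by
    intro q S S' hS hS' h3 h4
    ext a i
    exact ((h3 a).1 i).symm.trans ((h4 a).1 i)
  have h1 : (fun q : Fin r × Fin m → ℂ => EC.ind (EC.Fr ℂ r m) q * g q) = fun q =>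
      ∑ S ∈ (NF pc r).attach, ind (FrS (frm pc hpc S.1 S.2)) q * (EC.ind (EC.Fr ℂ r m) q * g q) := by
    ext q
    rw [← Finset.sum_mul]
    by_cases hq : q ∈ EC.Fr ℂ r m
    · obtain ⟨S, hS, hqS⟩ := hcov q hq
      rw [Finset.sum_eq_single ⟨S, hS⟩]
      · have e1 : ind (FrS (frm pc hpc S hS)) q = 1 := if_pos hqS
        rw [e1, one_mul]
      · intro S' _ hS'
        refine if_neg fun h => hS' ?_
        exact Subtype.ext (huniq q S'.1 S S'.2 hS h hqS)
      · intro h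
        exact absurd (Finset.mem_attach _ _) h
    · have e1 : ind (EC.Fr ℂ r m) q = 0 := if_neg hq
      rw [e1, zero_mul, mul_zero]
  rw [h1, E_fsum]
  · refine Finset.sum_congr rfl fun S _ => ?_
    rw [(E_frm h2 (frm pc hpc S.1 S.2) hg).2]
    congr 1
    ext x
    by_cases hx : ∃ i, x i = 0
    · rw [if_pos hx, if_pos hx]
    · rw [if_neg hx, if_neg hx]
      have h3 : frameOf (frm pc hpc S.1 S.2) x ∈ EC.Fr ℂ r m := by
        refine hsub S.1 S.2 ((mem_FrS _ _).2 ⟨x, fun i hi => hx ⟨i, hi⟩, ?_⟩)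
        rw [eval_frameP]
      have e1 : ind (EC.Fr ℂ r m) (frameOf (frm pc hpc S.1 S.2) x) = 1 := if_pos h3
      rw [e1, one_mul]
  · intro S _
    exact (CF.of_cons (E_frm h2 (frm pc hpc S.1 S.2) hg).1).comp₂ hg (fun a b => a * b)

end Pool.Tw
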