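import Pool.Agent.Tw.Defs

/-!
# Iteration of the step

A frame with `l` vectors is extended by one vector in all possible ways, until it has `r` vectors.
-/

set_option autoImplicit false
set_option linter.unusedSectionVars false

namespace Pool.Tw

open Matrix Pool.ML

variable {I J : Type} [Fintype I] [Fintype J] [DecidableEq I] [DecidableEq J] {l : ℕ}

theorem Frame.ext' {F G : Frame I l} (h1 : F.S = G.S) (h2 : F.piv = G.piv) : F = G := by
  obtain ⟨S, p, a, b⟩ := F
  obtain ⟨S', p', a', b'⟩ := G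
  simp only at h1 h2
  subst h1 h2
  rfl

theorem snoc_mem (pc : Finset I → I) (hpc : ∀ A : Finset I, A.Nonempty → pc A ∈ A)
    {S : Fin l → Finset I} (hS : S ∈ NF pc l) {S' : Finset I} (hne : S'.Nonempty)
    (hf : S' ⊆ (frm pc hpc S hS).free) : (Fin.snoc S S' : Fin (l + 1) → Finset I) ∈ NF pc (l + 1) := by
  obtain ⟨h1, h2⟩ := (Finset.mem_filter.mp hS).2
  refine Finset.mem_filter.mpr ⟨Finset.mem_univ _, fun a => ?_, fun a b => ?_⟩
  · refine Fin.lastCases ?_ (fun a => ?_) a
    · simpa using hne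
    · simpa using h1 a
  · refine Fin.lastCases ?_ (fun b => ?_) b
    · refine Fin.lastCases ?_ (fun a => ?_) a
      · intro h
        exact absurd h (lt_irrefl _)
      · intro _ h
        simp only [Fin.snoc_castSucc, Fin.snoc_last] at h
        have h1 := hf h
        simp only [Frame.free, Finset.mem_filter, Finset.mem_univ, true_and] at h1
        exact h1 a rfl
    · refine Fin.lastCases ?_ (fun a => ?_) a
      · intro h
        exact absurd (h.trans (Fin.castSucc_lt_last b)) (lt_irrefl _)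
      · intro h
        simp only [Fin.snoc_castSucc]
        exact h2 a b (by simpa using h)

theorem frm_snoc (pc : Finset I → I) (hpc : ∀ A : Finset I, A.Nonempty → pc A ∈ A)
    {S : Fin l → Finset I} (hS : S ∈ NF pc l) {S' : Finset I} (hne : S'.Nonempty)
    (hf : S' ⊆ (frm pc hpc S hS).free) :
    (frm pc hpc S hS).snoc S' (pc S') (hpc S' hne) hf =
      frm pc hpc (Fin.snoc S S' : Fin (l + 1) → Finset I) (snoc_mem pc hpc hS hne hf) := by
  refine Frame.ext' rfl (funext fun a => ?_)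
  refine Fin.lastCases ?_ (fun a => ?_) a
  · simp [Frame.snoc, frm]
  · simp [Frame.snoc, frm]

/-- the extensions of `S` to a family of `r` supports -/
def Rest (pc : Finset I → I) {l r : ℕ} (h : l ≤ r) (S : Fin l → Finset I) :
    Finset (Fin r → Finset I) :=
  (NF pc r).filter fun T => ∀ a : Fin l, T (Fin.castLE h a) = S a

/-- the exponent of the sign -/
def sg {r : ℕ} (T : Fin r → Finset I) (l : ℕ) : ℕ :=
  ∑ a ∈ Finset.univ.filter (fun a : Fin r => l ≤ a.val), ((T a).card + 1)

theorem sg_succ {r : ℕ} (T : Fin r → Finset I) {l : ℕ} (h : l < r) :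
    sg T l = ((T ⟨l, h⟩).card + 1) + sg T (l + 1) := by
  unfold sg
  have e : Finset.univ.filter (fun a : Fin r => l ≤ a.val) =
      insert ⟨l, h⟩ (Finset.univ.filter (fun a : Fin r => l + 1 ≤ a.val)) := by
    ext a
    simp only [Finset.mem_filter, Finset.mem_univ, true_and, Finset.mem_insert, Fin.ext_iff]
    omega
  rw [e, Finset.sum_insert]
  simp

theorem sum_rest {r : ℕ} (pc : Finset I → I) (hpc : ∀ A : Finset I, A.Nonempty → pc A ∈ A)
    (h : l < r) (S : Fin l → Finset I) (hS : S ∈ NF pc l) (f : (Fin r → Finset I) → ℤ) :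
    ∑ T ∈ Rest pc h.le S, f T = ∑ S' ∈ (frm pc hpc S hS).free.powerset.erase ∅,
      ∑ T ∈ Rest pc (Nat.succ_le_of_lt h) (Fin.snoc S S' : Fin (l + 1) → Finset I), f T := by
  have hmap : ∀ T ∈ Rest pc h.le S, T ⟨l, h⟩ ∈ (frm pc hpc S hS).free.powerset.erase ∅ := by
    intro T hT
    obtain ⟨hT1, hT2⟩ := Finset.mem_filter.mp hT
    obtain ⟨h1, h2⟩ := (Finset.mem_filter.mp hT1).2
    refine Finset.mem_erase.mpr ⟨(h1 _).ne_empty, Finset.mem_powerset.mpr fun i hi => ?_⟩
    simp only [Frame.free, Finset.mem_filter, Finset.mem_univ, true_and]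
    intro a ha
    have h3 := h2 (Fin.castLE h.le a) ⟨l, h⟩ (by rw [Fin.lt_def]; exact a.2)
    rw [hT2 a] at h3
    have h4 : pc (S a) = i := ha
    rw [h4] at h3
    exact h3 hi
  rw [← Finset.sum_fiberwise_of_maps_to hmap]
  refine Finset.sum_congr rfl fun S' _ => Finset.sum_congr ?_ fun _ _ => rfl
  ext T
  simp only [Rest, Finset.mem_filter]
  constructor
  · rintro ⟨⟨h1, h2⟩, h3⟩
    refine ⟨h1, fun a => ?_⟩
    refine Fin.lastCases ?_ (fun a => ?_) a
    · rw [Fin.snoc_last, ← h3]
      rfl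
    · rw [Fin.snoc_castSucc, ← h2 a]
      rfl
  · rintro ⟨h1, h2⟩
    refine ⟨⟨h1, fun a => ?_⟩, ?_⟩
    · have h3 := h2 a.castSucc
      rw [Fin.snoc_castSucc] at h3
      rw [← h3]
      rfl
    · have h3 := h2 (Fin.last l)
      rw [Fin.snoc_last] at h3
      rw [← h3]
      rfl

theorem iterate_aux {r : ℕ} (pc : Finset I → I) (hpc : ∀ A : Finset I, A.Nonempty → pc A ∈ A)
    (hstep : ∀ (l : ℕ) (F : Frame I l), l < r → ∀ M : Finset I → ℕ,
      (∀ (S : Finset I) (hne : S.Nonempty) (hS : S ⊆ F.free),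
        IsFN (F.snoc S (pc S) (hpc S hne) hS) J r (M S)) →
      ∃ N : ℕ, IsFN F J r N ∧
        ∑ S ∈ F.free.powerset.erase ∅, (-1 : ℤ) ^ (S.card + 1) * M S =
          (-1) ^ (Fintype.card I + r) * (r - l) * N)
    (M : (Fin r → Finset I) → ℕ) (hM : ∀ S (hS : S ∈ NF pc r), IsFN (frm pc hpc S hS) J r (M S)) :
    ∀ (k l : ℕ) (h : l ≤ r), l + k = r → ∀ (S : Fin l → Finset I) (hS : S ∈ NF pc l),
      ∃ N : ℕ, IsFN (frm pc hpc S hS) J r N ∧
        (k.factorial : ℤ) * N = (-1) ^ (k * (Fintype.card I + r)) *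
          ∑ T ∈ Rest pc h S, (-1 : ℤ) ^ sg T l * M T := by
  intro k
  induction k with
  | zero =>
    intro l h hl S hS
    obtain rfl : l = r := by omega
    refine ⟨M S, hM S hS, ?_⟩
    have e : Rest pc h S = {S} := by
      ext T
      simp only [Rest, Finset.mem_filter, Finset.mem_singleton]
      constructor
      · rintro ⟨_, h2⟩
        exact funext fun a => h2 a
      · rintro rfl
        exact ⟨hS, fun _ => rfl⟩
    have e2 : sg S l = 0 := by
      unfold sg
      rw [Finset.filter_false_of_mem, Finset.sum_empty]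
      intro a _
      have := a.2
      omega
    rw [e, Finset.sum_singleton, e2]
    simp
  | succ k ih =>
    intro l h hl S hS
    have hlt : l < r := by omega
    have key : ∀ (S' : Finset I) (hne : S'.Nonempty) (hf : S' ⊆ (frm pc hpc S hS).free),
        ∃ N : ℕ, IsFN (frm pc hpc (Fin.snoc S S' : Fin (l + 1) → Finset I)
          (snoc_mem pc hpc hS hne hf)) J r N ∧
          (k.factorial : ℤ) * N = (-1) ^ (k * (Fintype.card I + r)) *
            ∑ T ∈ Rest pc (Nat.succ_le_of_lt hlt) (Fin.snoc S S' : Fin (l + 1) → Finset I),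
              (-1 : ℤ) ^ sg T (l + 1) * M T :=
      fun S' hne hf => ih (l + 1) _ (by omega) _ _
    classical
    let M' : Finset I → ℕ := fun S' =>
      if h : S'.Nonempty ∧ S' ⊆ (frm pc hpc S hS).free then (key S' h.1 h.2).choose else 0
    have hM' : ∀ (S' : Finset I) (hne : S'.Nonempty) (hf : S' ⊆ (frm pc hpc S hS).free),
        M' S' = (key S' hne hf).choose := fun S' hne hf => dif_pos ⟨hne, hf⟩
    obtain ⟨N, hN, hsum⟩ := hstep l (frm pc hpc S hS) hlt M' (fun S' hne hf => by
      rw [frm_snoc pc hpc hS hne hf, hM' S' hne hf]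
      exact (key S' hne hf).choose_spec.1)
    refine ⟨N, hN, ?_⟩
    have hk : ((r : ℤ) - l) = k + 1 := by
      have : (r : ℤ) = l + (k + 1) := by exact_mod_cast hl.symm
      rw [this]; ring
    rw [hk] at hsum
    set ε : ℤ := (-1) ^ (Fintype.card I + r) with hε
    have hεε : ε * ε = 1 := by
      rw [hε, ← pow_add, ← two_mul, pow_mul]; simp
    have hfin : ∑ S' ∈ (frm pc hpc S hS).free.powerset.erase ∅,
        (-1 : ℤ) ^ (S'.card + 1) * ((k.factorial : ℤ) * M' S') =
        (-1) ^ (k * (Fintype.card I + r)) * ∑ T ∈ Rest pc h S, (-1 : ℤ) ^ sg T l * M T := by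
      rw [sum_rest pc hpc hlt S hS, Finset.mul_sum]
      refine Finset.sum_congr rfl fun S' hS' => ?_
      obtain ⟨hne, hf⟩ := Finset.mem_erase.mp hS'
      have hne' : S'.Nonempty := Finset.nonempty_iff_ne_empty.mpr hne
      have hf' := Finset.mem_powerset.mp hf
      rw [hM' S' hne' hf', (key S' hne' hf').choose_spec.2, mul_left_comm, Finset.mul_sum]
      congr 1
      refine Finset.sum_congr rfl fun T hT => ?_
      have hT2 := (Finset.mem_filter.mp hT).2 (Fin.last l)
      rw [Fin.snoc_last] at hT2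
      have hT3 : T ⟨l, hlt⟩ = S' := hT2
      rw [sg_succ T hlt, hT3, pow_add]
      ring
    calc ((k + 1).factorial : ℤ) * N = ε * ε * ((k + 1) * k.factorial * N) := by
          rw [hεε, Nat.factorial_succ]; push_cast; ring
      _ = ε * (k.factorial * (ε * (k + 1) * N)) := by ring
      _ = ε * ∑ S' ∈ (frm pc hpc S hS).free.powerset.erase ∅,
            (-1 : ℤ) ^ (S'.card + 1) * ((k.factorial : ℤ) * M' S') := by
          rw [← hsum, Finset.mul_sum]
          congr 1
          exact Finset.sum_congr rfl fun _ _ => by ring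
      _ = _ := by
          rw [hfin, ← mul_assoc, hε, ← pow_add]
          congr 2
          ring

/-- C3, from the step. -/
theorem iterate' {r : ℕ} (pc : Finset I → I) (hpc : ∀ A : Finset I, A.Nonempty → pc A ∈ A)
    (hstep : ∀ (l : ℕ) (F : Frame I l), l < r → ∀ M : Finset I → ℕ,
      (∀ (S : Finset I) (hne : S.Nonempty) (hS : S ⊆ F.free),
        IsFN (F.snoc S (pc S) (hpc S hne) hS) J r (M S)) →
      ∃ N : ℕ, IsFN F J r N ∧
        ∑ S ∈ F.free.powerset.erase ∅, (-1 : ℤ) ^ (S.card + 1) * M S =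
          (-1) ^ (Fintype.card I + r) * (r - l) * N)
    (M : (Fin r → Finset I) → ℕ) (hM : ∀ S (hS : S ∈ NF pc r), IsFN (frm pc hpc S hS) J r (M S)) :
    ∃ N : ℕ, IsFN (Frame.nil I) J r N ∧
      (r.factorial : ℤ) * N = (-1) ^ (r * (Fintype.card I + r)) *
        ∑ S ∈ NF pc r, (-1 : ℤ) ^ (∑ a, ((S a).card + 1)) * M S := by
  have h0 : (Fin.elim0 : Fin 0 → Finset I) ∈ NF pc 0 :=
    Finset.mem_filter.mpr ⟨Finset.mem_univ _, fun a => a.elim0, fun a => a.elim0⟩
  obtain ⟨N, hN, h⟩ := iterate_aux pc hpc hstep M hM r 0 (Nat.zero_le r) (by omega) Fin.elim0 h0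
  have e : frm pc hpc Fin.elim0 h0 = Frame.nil I :=
    Frame.ext' (funext fun a => a.elim0) (funext fun a => a.elim0)
  rw [e] at hN
  refine ⟨N, hN, h.trans ?_⟩
  congr 1
  have e2 : Rest pc (Nat.zero_le r) (Fin.elim0 : Fin 0 → Finset I) = NF pc r := by
    unfold Rest
    exact Finset.filter_true_of_mem fun T _ a => a.elim0
  rw [e2]
  refine Finset.sum_congr rfl fun T _ => ?_
  unfold sg
  rw [Finset.filter_true_of_mem fun a _ => Nat.zero_le _]

end Pool.Tw
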