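import Pool.Agent.Tw.Defs
import Pool.Agent.EU.TBStep
import Pool.Agent.EU.TBG
import Pool.Agent.EU.Tower

/-!
# One step: the passage from the points of `EU/TBDefs` to the frames of `Tw/Defs`
-/

set_option autoImplicit false
set_option linter.unusedSectionVars false

namespace Pool.Tw

open Matrix Pool.ML Pool.EU.TB

variable {I J : Type} [Fintype I] [Fintype J] [DecidableEq I] [DecidableEq J] {l : ℕ}

/-- The supports of a frame are admissible. -/
theorem Frame.adm (F : Frame I l) : Adm F.piv F.S where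
  inj := by
    intro a b h
    by_contra hab
    rcases lt_or_gt_of_ne hab with h1 | h1
    · exact F.tri a b h1 (h ▸ F.mem b)
    · exact F.tri b a h1 (h ▸ F.mem a)
  mem := F.mem
  notMem := fun l l' h => F.tri l' l h

/-- The frame vectors are linearly independent. -/
theorem frame_indep {k : Type} [Field k] (F : Frame I l) (q : Matrix I (Fin l) k)
    (h1 : ∀ a, q (F.piv a) a = 1) (h2 : ∀ a i, i ∉ F.S a → q i a = 0) (c : Fin l → k)
    (hc : q *ᵥ c = 0) : c = 0 := by
  have h3 : ∀ n : ℕ, ∀ a : Fin l, a.val < n → c a = 0 := by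
    intro n
    induction n with
    | zero => intro a ha; omega
    | succ n ih =>
      intro a ha
      have h4 := congrFun hc (F.piv a)
      rw [Matrix.mulVec, dotProduct, Finset.sum_eq_single a] at h4
      · rw [h1, one_mul] at h4
        exact h4
      · intro b _ hb
        rcases lt_or_gt_of_ne hb with h5 | h5
        · rw [ih b (by have := Fin.lt_def.mp h5; omega), mul_zero]
        · rw [h2 b _ (F.tri a b h5), zero_mul]
      · intro h
        exact absurd (Finset.mem_univ a) h
  ext a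
  exact h3 (a.val + 1) a (by omega)

theorem frame_indep_mat {k X : Type} [Field k] (F : Frame I l) (q : Matrix I (Fin l) k)
    (h1 : ∀ a, q (F.piv a) a = 1) (h2 : ∀ a i, i ∉ F.S a → q i a = 0) (c : Matrix (Fin l) X k)
    (hc : q * c = 0) : c = 0 := by
  ext a x
  have h3 := frame_indep F q h1 h2 (fun a => c a x) (by
    ext i
    exact congrFun (congrFun hc i) x)
  exact congrFun h3 a

theorem mul_transpose_eq_sum {k π : Type} [Fintype π] [CommRing k] (q φ : Matrix I π k) :
    q * φᵀ = ∑ a, vecMulVec (fun i => q i a) (fun i => φ i a) := by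
  ext i j
  rw [Matrix.mul_apply, Matrix.sum_apply]
  rfl

/-- The point of `TBDefs`. -/
def toP {k : Type} (q : Matrix I (Fin l) k) (P : Matrix I J k) (φ : Matrix I (Fin l) k)
    (G : Matrix I J k) : Pnt k (Fin l) I J :=
  ⟨P, G, fun a i => q i a, fun a i => φ i a⟩

theorem sol_iff {k : Type} [Field k] (F : Frame I l) {r : ℕ} {u : Matrix I J k}
    {v q : Matrix I (Fin l) k} {P : Matrix I J k} {φ : Matrix I (Fin l) k} {G : Matrix I J k} :
    FSol F r u v q P φ G ↔ Sys r F.piv F.S u (fun a i => v i a) (toP q P φ G) := by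
  constructor
  · intro h
    obtain ⟨Z, hZ⟩ := h.mem
    refine ⟨⟨h.rk, h.PG, fun a => ⟨fun j => Z j a, ?_⟩, h.eq, h.one, h.off, h.on⟩, ?_⟩
    · ext i
      exact (congrFun (congrFun hZ i) a).symm
    · exact h.om.trans (mul_transpose_eq_sum q φ)
  · intro h
    have hom : P * Gᵀ = q * φᵀ := h.cr.trans (mul_transpose_eq_sum q φ).symm
    have hPG : Pᵀ * G = 0 := h.orth
    refine ⟨h.eq, h.one, h.zero, h.vq, h.rk, ?_, hPG, ?_, hom⟩
    · have h1 := h.mem
      choose y hy using h1
      refine ⟨Matrix.of fun j a => y a j, ?_⟩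
      ext i a
      exact (congrFun (hy a) i).symm
    · have h2 : q * (φᵀ * P) = 0 := by
        rw [← Matrix.mul_assoc, ← hom, Matrix.mul_assoc]
        have h3 : Gᵀ * P = 0 := by
          have := congrArg Matrix.transpose hPG
          rwa [transpose_mul, transpose_transpose, transpose_zero] at this
        rw [h3, Matrix.mul_zero]
      have h4 := frame_indep_mat F q h.one h.zero _ h2
      have := congrArg Matrix.transpose h4
      rwa [transpose_mul, transpose_transpose, transpose_zero] at this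

/-- The matrices of a point. -/
def ofP {k : Type} (z : Pnt k (Fin l) I J) : Matrix I (Fin l) k × Matrix I J k :=
  (Matrix.of fun i a => z.q a i, z.P)

theorem bij_sys (F : Frame I l) {r : ℕ} {u : Matrix I J ℂ} {v : Matrix I (Fin l) ℂ}
    (hu : ∀ i j, u i j ≠ 0) :
    Set.BijOn ofP {z : Pnt ℂ (Fin l) I J | Sys r F.piv F.S u (fun a i => v i a) z}
      (FSet F r u v) := by
  refine ⟨?_, ?_, ?_⟩
  · intro z hz
    refine ⟨Matrix.of fun i a => z.h a i, z.G, ?_⟩
    rw [sol_iff]
    exact hz
  · intro z hz z' hz' hzz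
    have hP : z.P = z'.P := congrArg Prod.snd hzz
    have hq : z.q = z'.q := by
      ext a i
      exact congrFun (congrFun (congrArg Prod.fst hzz) i) a
    have hG : z.G = z'.G := by
      ext i j
      have h1 := hz.eq i j
      have h2 := hz'.eq i j
      rw [← hP] at h2
      have h3 : z.P i j ≠ 0 := by
        intro h4
        rw [h4, zero_mul] at h1
        exact hu i j h1.symm
      have h4 := mul_left_cancel₀ h3 (h1.trans h2.symm)
      exact add_left_cancel h4
    have hh : z.h = z'.h := by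
      have h1 := hz.cr
      have h2 := hz'.cr
      rw [← hP, ← hG, ← hq] at h2
      have h3 : (Matrix.of fun i a => z.q a i : Matrix I (Fin l) ℂ) *
          ((Matrix.of fun i a => z.h a i : Matrix I (Fin l) ℂ)ᵀ -
            (Matrix.of fun i a => z'.h a i : Matrix I (Fin l) ℂ)ᵀ) = 0 := by
        rw [Matrix.mul_sub, mul_transpose_eq_sum, mul_transpose_eq_sum, sub_eq_zero]
        exact h1.symm.trans h2
      have h4 := frame_indep_mat F _ hz.one hz.zero _ h3
      ext a i
      exact congrFun (congrFun (sub_eq_zero.mp h4) a) i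
    exact Pnt.ext hP hG hq hh
  · rintro ⟨q, P⟩ ⟨φ, G, h⟩
    exact ⟨toP q P φ G, (sol_iff F).mp h, rfl⟩

/-! ### One more vector -/

section snoc

variable {F : Frame I l} {S : Finset I} {p : I} {hp : p ∈ S} {hS : S ⊆ F.free}

/-- The point of `TBDefs` with the last vector separated. -/
def toQ' {k : Type} (q : Matrix I (Fin (l + 1)) k) (P : Matrix I J k)
    (φ : Matrix I (Fin (l + 1)) k) (G : Matrix I J k) : Qnt k (Fin l) I J :=
  ⟨⟨P, G, fun a i => q i a.castSucc, fun a i => φ i a.castSucc⟩, fun i => q i (Fin.last l),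
    fun i => φ i (Fin.last l)⟩

theorem solQ_iff {k : Type} [Field k] {r : ℕ} {u : Matrix I J k}
    {v q : Matrix I (Fin (l + 1)) k} {P : Matrix I J k} {φ : Matrix I (Fin (l + 1)) k}
    {G : Matrix I J k} :
    FSol (F.snoc S p hp hS) r u v q P φ G ↔ SysQ 1 r F.piv F.S S p u
      (fun a i => v i a.castSucc) (fun i => v i (Fin.last l)) (toQ' q P φ G) := by
  have hpl : (F.snoc S p hp hS).piv (Fin.last l) = p := by simp [Frame.snoc]
  have hSl : (F.snoc S p hp hS).S (Fin.last l) = S := by simp [Frame.snoc]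
  have hpc : ∀ a : Fin l, (F.snoc S p hp hS).piv a.castSucc = F.piv a := by
    intro a; simp [Frame.snoc]
  have hSc : ∀ a : Fin l, (F.snoc S p hp hS).S a.castSucc = F.S a := by
    intro a; simp [Frame.snoc]
  have hsum : q * φᵀ = ∑ a : Fin l, vecMulVec (fun i => q i a.castSucc)
      (fun i => φ i a.castSucc) + vecMulVec (fun i => q i (Fin.last l))
      (fun i => φ i (Fin.last l)) := by
    rw [mul_transpose_eq_sum, Fin.sum_univ_castSucc]
  constructor
  · intro h
    obtain ⟨Z, hZ⟩ := h.mem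
    refine ⟨⟨h.rk, h.PG, fun a => ⟨fun j => Z j a.castSucc, ?_⟩, h.eq, ?_, ?_, ?_⟩, ?_,
      ⟨fun j => Z j (Fin.last l), ?_⟩, ?_, ?_, ?_, ?_⟩
    · ext i
      exact (congrFun (congrFun hZ i) _).symm
    · intro a
      have := h.one a.castSucc
      rwa [hpc] at this
    · intro a i hi
      exact h.off a.castSucc i (by rwa [hSc])
    · intro a i hi hi'
      exact h.on a.castSucc i (by rwa [hSc]) (by rwa [hpc])
    · rw [one_smul]
      exact h.om.trans hsum
    · ext i
      exact (congrFun (congrFun hZ i) _).symm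
    · ext j
      exact congrFun (congrFun h.Pφ j) (Fin.last l)
    · have := h.one (Fin.last l)
      rwa [hpl] at this
    · intro i hi
      exact h.off (Fin.last l) i (by rwa [hSl])
    · intro i hi hi'
      exact h.on (Fin.last l) i (by rwa [hSl]) (by rwa [hpl])
  · intro h
    have hone : ∀ a, q ((F.snoc S p hp hS).piv a) a = 1 := by
      intro a
      refine Fin.lastCases ?_ (fun a => ?_) a
      · rw [hpl]
        exact h.one'
      · rw [hpc]
        exact h.one a
    have hoff : ∀ a i, i ∉ (F.snoc S p hp hS).S a → q i a = 0 := by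
      intro a
      refine Fin.lastCases ?_ (fun a => ?_) a
      · rw [hSl]
        exact h.zero'
      · rw [hSc]
        exact h.zero a
    have hom : P * Gᵀ = q * φᵀ := by
      rw [hsum]
      have := h.cr
      rw [one_smul] at this
      exact this
    have hPG : Pᵀ * G = 0 := h.orth
    refine ⟨h.eq, hone, hoff, ?_, h.rk, ?_, hPG, ?_, hom⟩
    · intro a
      refine Fin.lastCases ?_ (fun a => ?_) a
      · rw [hSl, hpl]
        exact h.vq'
      · rw [hSc, hpc]
        exact h.vq a
    · have h1 : ∀ a : Fin (l + 1), ∃ y : J → k, P *ᵥ y = fun i => q i a := by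
        intro a
        refine Fin.lastCases ?_ (fun a => ?_) a
        · exact h.mem'
        · exact h.mem a
      choose y hy using h1
      refine ⟨Matrix.of fun j a => y a j, ?_⟩
      ext i a
      exact (congrFun (hy a) i).symm
    · have h2 : q * (φᵀ * P) = 0 := by
        rw [← Matrix.mul_assoc, ← hom, Matrix.mul_assoc]
        have h3 : Gᵀ * P = 0 := by
          have := congrArg Matrix.transpose hPG
          rwa [transpose_mul, transpose_transpose, transpose_zero] at this
        rw [h3, Matrix.mul_zero]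
      have h4 := frame_indep_mat (F.snoc S p hp hS) q hone hoff _ h2
      have := congrArg Matrix.transpose h4
      rwa [transpose_mul, transpose_transpose, transpose_zero] at this

/-- The matrices of a point with one more vector. -/
def ofQ {k : Type} (z : Qnt k (Fin l) I J) : Matrix I (Fin (l + 1)) k × Matrix I J k :=
  (Matrix.of fun i => Fin.snoc (fun a => z.q a i) (z.a i), z.P)

theorem toQ'_ofQ {k : Type} (z : Qnt k (Fin l) I J) :
    toQ' (Matrix.of fun i => Fin.snoc (fun a => z.q a i) (z.a i)) z.P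
      (Matrix.of fun i => Fin.snoc (fun a => z.h a i) (z.b i)) z.G = z := by
  refine Qnt.ext rfl rfl ?_ ?_ ?_ ?_
  · ext a i
    simp [toQ']
  · ext a i
    simp [toQ']
  · ext i
    simp [toQ']
  · ext i
    simp [toQ']

theorem bij_sysQ {r : ℕ} {u : Matrix I J ℂ} {v : Matrix I (Fin (l + 1)) ℂ}
    (hu : ∀ i j, u i j ≠ 0) :
    Set.BijOn ofQ {z : Qnt ℂ (Fin l) I J | SysQ 1 r F.piv F.S S p u
      (fun a i => v i a.castSucc) (fun i => v i (Fin.last l)) z}
      (FSet (F.snoc S p hp hS) r u v) := by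
  have key : ∀ z : Qnt ℂ (Fin l) I J, SysQ 1 r F.piv F.S S p u
      (fun a i => v i a.castSucc) (fun i => v i (Fin.last l)) z →
      FSol (F.snoc S p hp hS) r u v (ofQ z).1 (ofQ z).2
        (Matrix.of fun i => Fin.snoc (fun a => z.h a i) (z.b i)) z.G := by
    intro z hz
    rw [solQ_iff]
    have h1 := toQ'_ofQ z
    rw [← h1] at hz
    exact hz
  refine ⟨?_, ?_, ?_⟩
  · intro z hz
    exact ⟨_, _, key z hz⟩
  · intro z hz z' hz' hzz
    have h1 := (sol_iff (F.snoc S p hp hS)).mp (key z hz)
    have h2 := (sol_iff (F.snoc S p hp hS)).mp (key z' hz')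
    have h3 := (bij_sys (F.snoc S p hp hS) hu).2.1 h1 h2 hzz
    have h4 : toQ' (Matrix.of fun i => Fin.snoc (fun a => z.q a i) (z.a i)) z.P
        (Matrix.of fun i => Fin.snoc (fun a => z.h a i) (z.b i)) z.G =
        toQ' (Matrix.of fun i => Fin.snoc (fun a => z'.q a i) (z'.a i)) z'.P
        (Matrix.of fun i => Fin.snoc (fun a => z'.h a i) (z'.b i)) z'.G := by
      have h5 := congrArg Pnt.P h3
      have h6 := congrArg Pnt.G h3
      have h7 := congrArg Pnt.q h3
      have h8 := congrArg Pnt.h h3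
      simp only [toP] at h5 h6 h7 h8
      refine Qnt.ext h5 h6 ?_ ?_ ?_ ?_
      · ext a i
        exact congrFun (congrFun h7 a.castSucc) i
      · ext a i
        exact congrFun (congrFun h8 a.castSucc) i
      · ext i
        exact congrFun (congrFun h7 (Fin.last l)) i
      · ext i
        exact congrFun (congrFun h8 (Fin.last l)) i
    rwa [toQ'_ofQ, toQ'_ofQ] at h4
  · rintro ⟨q, P⟩ ⟨φ, G, h⟩
    refine ⟨toQ' q P φ G, solQ_iff.mp h, ?_⟩
    refine Prod.ext ?_ rfl
    ext i a
    refine Fin.lastCases ?_ (fun a => ?_) a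
    · simp [ofQ, toQ']
    · simp [ofQ, toQ']

end snoc

/-! ### The data -/

theorem gen0_iff (F : Frame I l) (u : Matrix I J ℂ) (v : Matrix I (Fin l) ℂ) :
    Gen0 F.piv F.S u (fun a i => v i a) ↔ FGen F u v := by
  constructor
  · intro h
    have h1 := h.comp (fun x : (I × J) ⊕ F.Pos => (Sum.elim (fun x => Sum.inl x)
      (fun x => Sum.inr ⟨(x.1.2, x.1.1), x.2⟩) x : DI J F.piv F.S)) (by
        rintro (x | ⟨⟨i, a⟩, hx⟩) (y | ⟨⟨i', a'⟩, hy⟩) hxy
        · simpa using hxy
        · simp at hxy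
        · simp at hxy
        · simp only [Sum.elim_inr, Sum.inr.injEq, Subtype.mk.injEq, Prod.mk.injEq] at hxy
          simp [hxy.1, hxy.2])
    unfold FGen
    convert h1 using 1
    ext (x | x)
    · rfl
    · rfl
  · intro h
    have h1 := h.comp (fun x : DI J F.piv F.S => (Sum.elim (fun x => Sum.inl x)
      (fun x => Sum.inr ⟨(x.1.2, x.1.1), x.2⟩) x : (I × J) ⊕ F.Pos)) (by
        rintro (x | ⟨⟨i, a⟩, hx⟩) (y | ⟨⟨i', a'⟩, hy⟩) hxy
        · simpa using hxy
        · simp at hxy
        · simp at hxy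
        · simp only [Sum.elim_inr, Sum.inr.injEq, Subtype.mk.injEq, Prod.mk.injEq] at hxy
          simp [hxy.1, hxy.2])
    unfold Gen0
    convert h1 using 1
    ext (x | x)
    · rfl
    · rfl

section snoc2

variable {F : Frame I l} {S : Finset I} {p : I} {hp : p ∈ S} {hS : S ⊆ F.free}

/-- The positions of the longer frame. -/
noncomputable def posE (F : Frame I l) (S : Finset I) (p : I) (hp : p ∈ S) (hS : S ⊆ F.free) :
    (I × J) ⊕ (F.snoc S p hp hS).Pos → DQ J F.piv F.S S p :=
  Sum.elim (fun x => Sum.inl (Sum.inl x)) (fun x =>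
    if h : x.1.2 = Fin.last l then Sum.inr ⟨x.1.1, by
      have h1 := x.2
      rw [h] at h1
      simpa [Frame.snoc] using h1⟩
    else Sum.inl (Sum.inr ⟨(x.1.2.castPred h, x.1.1), by
      have h1 := x.2
      have h2 : x.1.2 = (x.1.2.castPred h).castSucc := by simp
      rw [h2] at h1
      simpa only [Frame.snoc, Fin.snoc_castSucc] using h1⟩))

theorem posE_inj (F : Frame I l) (S : Finset I) (p : I) (hp : p ∈ S) (hS : S ⊆ F.free) :
    Function.Injective (posE (J := J) F S p hp hS) := by
  rintro (x | ⟨⟨i, a⟩, hx⟩) (y | ⟨⟨i', a'⟩, hy⟩) hxy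
  · simpa [posE] using hxy
  · simp only [posE, Sum.elim_inl, Sum.elim_inr] at hxy
    split_ifs at hxy with h
    · simp at hxy
  · simp only [posE, Sum.elim_inl, Sum.elim_inr] at hxy
    split_ifs at hxy with h
    · simp at hxy
  · simp only [posE, Sum.elim_inr] at hxy
    split_ifs at hxy with h h' h'
    · simp only [Sum.inr.injEq, Subtype.mk.injEq] at hxy
      simp only [Sum.inr.injEq, Subtype.mk.injEq, Prod.mk.injEq]
      exact ⟨hxy, h.trans h'.symm⟩
    · simp only [Sum.inl.injEq, Sum.inr.injEq, Subtype.mk.injEq, Prod.mk.injEq] at hxy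
      simp only [Sum.inr.injEq, Subtype.mk.injEq, Prod.mk.injEq]
      refine ⟨hxy.2, ?_⟩
      have h3 := congrArg Fin.castSucc hxy.1
      simpa using h3

theorem gen1_fgen {u : Matrix I J ℂ} {v : Matrix I (Fin (l + 1)) ℂ}
    (h : Gen1 F.piv F.S S p u (fun a i => v i a.castSucc) (fun i => v i (Fin.last l))) :
    FGen (F.snoc S p hp hS) u v := by
  have h1 := h.comp (posE (J := J) F S p hp hS) (posE_inj F S p hp hS)
  unfold FGen
  convert h1 using 1
  ext (x | ⟨⟨i, a⟩, hx⟩)
  · rfl
  · simp only [gdat, posE, Function.comp, Sum.elim_inr]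
    split_ifs with h
    · simp only [dat1, Sum.elim_inr]
      rw [h]
    · simp only [dat1, dat0, Sum.elim_inl, Sum.elim_inr, Fin.castSucc_castPred]

theorem fgen_ne {F : Frame I l} {u : Matrix I J ℂ} {v : Matrix I (Fin l) ℂ} (h : FGen F u v)
    (i : I) (j : J) : u i j ≠ 0 :=
  AlgebraicIndependent.ne_zero h (Sum.inl (i, j))

theorem exists_gen1 (F : Frame I l) (S : Finset I) (p : I) :
    ∃ (u : Matrix I J ℂ) (v : Matrix I (Fin (l + 1)) ℂ),
      Gen1 F.piv F.S S p u (fun a i => v i a.castSucc) (fun i => v i (Fin.last l)) := by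
  classical
  obtain ⟨y, hy⟩ := Pool.EU.exists_algInd ∅ Set.countable_empty (DQ J F.piv F.S S p)
  refine ⟨Matrix.of fun i j => y (Sum.inl (Sum.inl (i, j))), Matrix.of fun i =>
    Fin.snoc (fun a => if h : i ∈ F.S a ∧ i ≠ F.piv a then y (Sum.inl (Sum.inr ⟨(a, i), h⟩)) else 0)
      (if h : i ∈ S ∧ i ≠ p then y (Sum.inr ⟨i, h⟩) else 0), ?_⟩
  have h1 : AlgebraicIndependent ℚ y :=
    Pool.EU.algInd_of_hom (algebraMap ℚ (acl ∅)) (fun a => by simp) hy
  unfold Gen1
  convert h1 using 1
  ext ((x | ⟨⟨a, i⟩, hx⟩) | ⟨i, hi⟩)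
  · rfl
  · simp only [dat1, dat0, Sum.elim_inl, Sum.elim_inr, Matrix.of_apply, Fin.snoc_castSucc]
    rw [dif_pos hx]
  · simp only [dat1, Sum.elim_inr, Matrix.of_apply, Fin.snoc_last]
    rw [dif_pos hi]

theorem N1_eq_of {r N : ℕ} (h : IsFN (F.snoc S p hp hS) J r N) :
    N1 J r F.piv F.S S p = N := by
  obtain ⟨u, v, hg⟩ := exists_gen1 (J := J) F S p
  have hf := gen1_fgen (hp := hp) (hS := hS) hg
  rw [← N1_eq u _ _ hg, ← (h u v hf).2]
  have hb := bij_sysQ (F := F) (S := S) (p := p) (hp := hp) (hS := hS) (r := r) (v := v)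
    (fgen_ne hf)
  rw [← hb.image_eq, Set.ncard_image_of_injOn hb.injOn]

end snoc2

theorem isFN_N0 (F : Frame I l) {r : ℕ} (hl : l ≤ r) (hr : r ≤ Fintype.card I)
    (hJ : Fintype.card I ≤ Fintype.card J) : IsFN F J r (N0 J r F.piv F.S) := by
  intro u v hg
  have hg' := (gen0_iff F u v).mpr hg
  have hb := bij_sys F (r := r) (v := v) (fgen_ne hg)
  have hfin := sys_finite F.adm (by simpa using hl) hr hJ u _ hg'
  rw [← hb.image_eq]
  refine ⟨hfin.image _, ?_⟩
  rw [Set.ncard_image_of_injOn hb.injOn]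
  exact N0_eq u _ hg'

/-- The step. -/
theorem step (F : Frame I l) {r : ℕ} (hl : l < r) (hr : r < Fintype.card I)
    (hJ : Fintype.card I ≤ Fintype.card J)
    (pc : Finset I → I) (hpc : ∀ A : Finset I, A.Nonempty → pc A ∈ A) (M : Finset I → ℕ)
    (hM : ∀ (S : Finset I) (hne : S.Nonempty) (hS : S ⊆ F.free),
      IsFN (F.snoc S (pc S) (hpc S hne) hS) J r (M S)) :
    ∃ N : ℕ, IsFN F J r N ∧
      ∑ S ∈ F.free.powerset.erase ∅, (-1 : ℤ) ^ (S.card + 1) * M S =
        (-1) ^ (Fintype.card I + r) * (r - l) * N := by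
  refine ⟨N0 J r F.piv F.S, isFN_N0 F hl.le hr.le hJ, ?_⟩
  have h1 := tb_step (J := J) F.adm (by simpa using hl) hr hJ pc hpc
  have h2 : (Finset.univ.filter (fun i : I => i ∉ Set.range F.piv)).powerset.filter
      (fun T => T.Nonempty) = F.free.powerset.erase ∅ := by
    ext T
    simp only [Finset.mem_filter, Finset.mem_powerset, Finset.mem_erase, Frame.free,
      Set.mem_range, not_exists, Finset.nonempty_iff_ne_empty]
    exact and_comm
  rw [h2] at h1
  have h3 : ∑ S ∈ F.free.powerset.erase ∅, (-1 : ℤ) ^ (S.card + 1) * M S =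
      -∑ T ∈ F.free.powerset.erase ∅, (-1 : ℤ) ^ T.card * (N1 J r F.piv F.S T (pc T) : ℤ) := by
    rw [← Finset.sum_neg_distrib]
    refine Finset.sum_congr rfl fun S hS => ?_
    rw [Finset.mem_erase, Finset.mem_powerset] at hS
    have hne : S.Nonempty := Finset.nonempty_iff_ne_empty.mpr hS.1
    rw [N1_eq_of (hM S hne hS.2), pow_succ]
    ring
  rw [h3, h1, Fintype.card_fin]
  have h4 : (-1 : ℤ) ^ (Fintype.card I + r) = (-1) ^ (Fintype.card I - r) := by
    obtain ⟨d, hd⟩ := Nat.exists_eq_add_of_lt hr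
    rw [hd]
    have h5 : r + d + 1 + r = (r + d + 1 - r) + 2 * r := by omega
    rw [h5, pow_add, pow_mul (-1 : ℤ) 2, neg_one_sq, one_pow, mul_one]
  rw [h4, pow_add, pow_one]
  ring

end Pool.Tw
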