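import Pool.Agent.Tw.Defs
import Pool.Agent.EC.Arr2

/-!
# Matrices of full rank
-/

set_option autoImplicit false
set_option linter.unusedSectionVars false

namespace Pool.Tw

open Matrix Pool.ML

theorem rank_of_algInd {m n : ℕ} (hn : m ≤ n) (u : Matrix (Fin m) (Fin n) ℂ)
    (hu : AlgebraicIndependent ℚ (fun x : Fin m × Fin n => u x.1 x.2)) : u.rank = m := by
  have h1 : AlgebraicIndependent ℚ (fun x : Fin m × Fin m => u x.1 (Fin.castLE hn x.2)) :=
    hu.comp (fun x : Fin m × Fin m => (x.1, Fin.castLE hn x.2)) (by
      rintro ⟨a, b⟩ ⟨c, d⟩ h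
      simpa using h)
  have h2 : (u.submatrix id (Fin.castLE hn)).det ≠ 0 := by
    have h3 := (Matrix.det_mvPolynomialX_ne_zero (Fin m) ℚ)
    intro h4
    apply h3
    apply h1
    rw [map_zero, AlgHom.map_det]
    rw [← h4]
    congr 1
    ext i j
    simp [Matrix.mvPolynomialX]
  refine le_antisymm ?_ ?_
  · simpa using u.rank_le_card_height
  · have h3 := Matrix.rank_of_det_ne_zero h2
    rw [Fintype.card_fin] at h3
    have h5 := Matrix.rank_submatrix_le u id (Fin.castLE hn)
    omega

/-- The generic number of critical points of the matrices of full rank. -/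
theorem isFN_top {m n : ℕ} (hn : m ≤ n) : IsFN (Frame.nil (Fin m)) (Fin n) m 1 := by
  intro u v hg
  have hu : AlgebraicIndependent ℚ (fun x : Fin m × Fin n => u x.1 x.2) :=
    hg.comp (fun x => Sum.inl x) Sum.inl_injective
  have hr := rank_of_algInd hn u hu
  have h1 : FSet (Frame.nil (Fin m)) m u v = {(Matrix.of fun _ a => a.elim0, u)} := by
    ext x
    obtain ⟨q, P⟩ := x
    rw [Set.mem_singleton_iff, Prod.mk.injEq]
    constructor
    · rintro ⟨φ, G, h⟩
      refine ⟨?_, ?_⟩
      · ext i a
        exact a.elim0
      · have h2 : LinearMap.range P.mulVecLin = ⊤ :=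
          Submodule.eq_top_of_finrank_eq (by simpa [Matrix.rank] using h.rk)
        have h3 : G = 0 := by
          ext i j
          have h4 : Pi.single i (1 : ℂ) ∈ LinearMap.range P.mulVecLin := by
            rw [h2]
            trivial
          obtain ⟨y, hy⟩ := h4
          rw [Matrix.mulVecLin_apply] at hy
          have h5 : y ⬝ᵥ (fun x => (Pᵀ * G) x j) = 0 := by
            rw [h.PG]
            exact dotProduct_zero y
          have h6 : (fun x => (Pᵀ * G) x j) = Pᵀ *ᵥ (fun i => G i j) := rfl
          rw [h6, Matrix.dotProduct_mulVec, Matrix.vecMul_transpose, hy, single_one_dotProduct] at h5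
          exact h5
        ext i j
        have h5 := h.eq i j
        rw [h3] at h5
        simpa using h5
    · rintro ⟨h2, h3⟩
      subst h3
      refine ⟨Matrix.of fun _ a => a.elim0, 0, ?_⟩
      refine ⟨fun i j => by simp, fun a => a.elim0, fun a => a.elim0, fun a => a.elim0, hr,
        ⟨Matrix.of fun _ a => a.elim0, ?_⟩, by simp, ?_, ?_⟩
      · ext i a
        exact a.elim0
      · ext i a
        exact a.elim0
      · ext i j
        simp [Matrix.mul_apply]
  rw [h1]
  exact ⟨Set.finite_singleton _, Set.ncard_singleton _⟩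

/-! ### The beta invariant of the whole space -/

theorem rk_top {m : ℕ} (J : Finset (Option (Fin m))) :
    EC.rk (⊤ : Submodule ℂ (Fin m → ℂ)) J = if J = Finset.univ then m else J.card := by
  classical
  unfold EC.rk
  rw [Submodule.map_top]
  split_ifs with hJ
  · rw [LinearMap.finrank_range_of_inj]
    · simp
    · intro x y h
      ext i
      have h1 := congrFun h ⟨some i, by rw [hJ]; exact Finset.mem_univ _⟩
      simpa [EC.fn] using h1
  · have hs : Function.Surjective
        (LinearMap.pi fun j : {j // j ∈ J} => EC.fn ℂ m j.1) := by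
      intro y
      obtain ⟨b, hb⟩ : ∃ b, b ∉ J := by
        by_contra hc
        push Not at hc
        exact hJ (Finset.eq_univ_iff_forall.mpr hc)
      cases b with
      | none =>
        refine ⟨fun i => if h : some i ∈ J then y ⟨some i, h⟩ else 0, ?_⟩
        ext ⟨j, hj⟩
        cases j with
        | none => exact absurd hj hb
        | some i => simp [EC.fn, hj]
      | some i0 =>
        set x0 : Fin m → ℂ := fun i => if h : some i ∈ J then y ⟨some i, h⟩ else 0 with hx0
        set c : ℂ := (if h : none ∈ J then y ⟨none, h⟩ else 0) - ∑ i, x0 i with hc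
        refine ⟨x0 + Pi.single i0 c, ?_⟩
        ext ⟨j, hj⟩
        cases j with
        | none =>
          simp only [LinearMap.pi_apply, EC.fn, LinearMap.sum_apply, LinearMap.proj_apply,
            Pi.add_apply, Finset.sum_add_distrib, Finset.sum_pi_single', Finset.mem_univ, if_true]
          rw [hc, dif_pos hj]
          ring
        | some i =>
          have h1 : i ≠ i0 := by
            rintro rfl
            exact hb hj
          simp only [LinearMap.pi_apply, EC.fn, LinearMap.proj_apply, Pi.add_apply,
            Pi.single_eq_of_ne h1, add_zero, hx0]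
          rw [dif_pos hj]
    rw [LinearMap.range_eq_top.mpr hs, finrank_top]
    simp

theorem sum_card {α : Type} [Fintype α] [DecidableEq α] (h : 2 ≤ Fintype.card α) :
    ∑ J : Finset α, (-1 : ℤ) ^ J.card * (J.card : ℤ) = 0 := by
  have h1 : ∀ J : Finset α, (-1 : ℤ) ^ J.card * (J.card : ℤ) =
      ∑ x : α, if x ∈ J then (-1 : ℤ) ^ J.card else 0 := by
    intro J
    rw [← Finset.sum_filter]
    simp [mul_comm]
  simp only [h1]
  rw [Finset.sum_comm]
  refine Finset.sum_eq_zero fun x _ => ?_
  have h2 : ∑ J : Finset α, (if x ∈ J then (-1 : ℤ) ^ J.card else 0) =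
      ∑ J ∈ (Finset.univ.erase x).powerset, (-1 : ℤ) ^ (J.card + 1) := by
    rw [← Finset.sum_filter]
    symm
    refine Finset.sum_bij (fun J _ => insert x J) ?_ ?_ ?_ ?_
    · intro J _
      simp
    · intro J hJ J' hJ' h
      rw [Finset.mem_powerset] at hJ hJ'
      have h3 : x ∉ J := fun h3 => Finset.notMem_erase x _ (hJ h3)
      have h4 : x ∉ J' := fun h3 => Finset.notMem_erase x _ (hJ' h3)
      rw [← Finset.erase_insert h3, h, Finset.erase_insert h4]
    · intro J hJ
      rw [Finset.mem_filter] at hJ
      exact ⟨J.erase x, by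
        rw [Finset.mem_powerset]
        exact Finset.erase_subset_erase _ (Finset.subset_univ _), Finset.insert_erase hJ.2⟩
    · intro J hJ
      rw [Finset.mem_powerset] at hJ
      rw [Finset.card_insert_of_notMem fun h3 => Finset.notMem_erase x _ (hJ h3)]
  rw [h2]
  have h3 : (Finset.univ.erase x : Finset α).Nonempty := by
    rw [← Finset.card_pos, Finset.card_erase_of_mem (Finset.mem_univ _), Finset.card_univ]
    omega
  simp only [pow_succ, ← Finset.sum_mul]
  rw [Finset.sum_powerset_neg_one_pow_card_of_nonempty h3, zero_mul]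

theorem beta_top {m : ℕ} (hm : 1 ≤ m) : EC.beta (⊤ : Submodule ℂ (Fin m → ℂ)) = 1 := by
  classical
  unfold EC.beta
  rw [finrank_top, Module.finrank_fintype_fun_eq_card, Fintype.card_fin]
  have h1 : ∑ J : Finset (Option (Fin m)), (-1 : ℤ) ^ J.card *
      (EC.rk (⊤ : Submodule ℂ (Fin m → ℂ)) J : ℤ) = (-1) ^ m := by
    have h2 : ∀ J : Finset (Option (Fin m)), (-1 : ℤ) ^ J.card *
        (EC.rk (⊤ : Submodule ℂ (Fin m → ℂ)) J : ℤ) = (-1 : ℤ) ^ J.card * (J.card : ℤ) +
          (if J = Finset.univ then (-1 : ℤ) ^ m else 0) := by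
      intro J
      rw [rk_top]
      split_ifs with hJ
      · rw [hJ, Finset.card_univ, Fintype.card_option, Fintype.card_fin]
        push_cast
        ring
      · ring
    simp only [h2, Finset.sum_add_distrib]
    rw [sum_card (by simpa using hm), zero_add]
    simp
  rw [h1, ← mul_pow]
  norm_num

theorem top_formula {m n : ℕ} (hm : 1 ≤ m) :
    (1 : ℤ) = ∑ᶠ b : ℤ, b ^ n * EC.E (EC.ind {A : Fin m × Fin m → ℂ | A ∈ EC.RE ℂ m m ∧
      EC.beta (EC.rspan A) = b}) := by
  classical
  set A0 : Fin m × Fin m → ℂ := fun c => if c.2 = c.1 then 1 else 0 with hA0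
  have h1 : ∀ A : Fin m × Fin m → ℂ, A ∈ EC.RE ℂ m m ↔ A = A0 := by
    intro A
    constructor
    · rintro ⟨p, hp, h⟩
      have hpid : ∀ j, p j = j := by
        have h2 : p = id := by
          have h3 : Function.Bijective p :=
            (Finite.injective_iff_bijective).mp hp.injective
          ext j
          have := StrictMono.range_inj (f := p) (g := id) hp strictMono_id
          rw [Set.range_id, Set.range_eq_univ] at this
          rw [this.mp h3.2]
        intro j
        rw [h2]
        rfl
      ext ⟨j, i⟩
      by_cases hij : i = j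
      · subst hij
        rw [hA0]
        simp only [if_true]
        have := (h i).1
        rwa [hpid] at this
      · rw [hA0]
        simp only [if_neg hij]
        have := (h j).2.2 i hij
        rwa [hpid] at this
    · rintro rfl
      refine ⟨id, strictMono_id, fun j => ⟨by simp [hA0], fun i hi => ?_, fun l hl => ?_⟩⟩
      · rw [hA0]
        exact if_neg (ne_of_lt hi)
      · rw [hA0]
        exact if_neg hl
  have h2 : EC.rspan A0 = ⊤ := by
    apply Submodule.eq_top_of_finrank_eq
    have h3 : A0 ∈ EC.Fr ℂ m m := EC.RE_subset_Fr ((h1 A0).mpr rfl)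
    rw [EC.finrank_rspan h3]
    simp
  have h3 : ∀ b : ℤ, {A : Fin m × Fin m → ℂ | A ∈ EC.RE ℂ m m ∧ EC.beta (EC.rspan A) = b} =
      if b = 1 then {A0} else ∅ := by
    intro b
    ext A
    simp only [Set.mem_ofPred_eq, h1]
    constructor
    · rintro ⟨rfl, hb⟩
      rw [h2, beta_top hm] at hb
      rw [if_pos hb.symm]
      rfl
    · split_ifs with hb
      · intro h
        rw [Set.mem_singleton_iff] at h
        subst h
        exact ⟨rfl, by rw [h2, beta_top hm, hb]⟩
      · intro h
        exact absurd h (Set.notMem_empty _)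
  rw [finsum_eq_single _ 1]
  · rw [h3 1, if_pos rfl, EC.E_point]
    simp
  · intro b hb
    rw [h3 b, if_neg hb]
    have h4 : EC.ind (∅ : Set (Fin m × Fin m → ℂ)) = fun _ => 0 := by
      ext x
      exact EC.ind_zero (Set.notMem_empty x)
    rw [h4, EC.E_const, mul_zero]

end Pool.Tw
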