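import Pool.Agent.Tw.Full
import Pool.Agent.EU.Peeled
import Pool.Agent.Tw.Step
import Pool.Agent.Tw.Iterate
import Pool.Agent.Tw.FrameSum
import Pool.Agent.Tw.Top

/-!
# The formula: assembly
-/

set_option autoImplicit false
set_option linter.unusedSectionVars false

namespace Pool.Tw

open Matrix Pool.ML Pool.EU

/-- The sum of the numbers of free positions. -/
theorem card_Pos {I : Type} [Fintype I] [DecidableEq I] {l : ℕ} (F : Frame I l) :
    ∑ a, ((F.S a).card + 1) = Fintype.card F.Pos + 2 * l := by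
  have h1 : Fintype.card F.Pos = ∑ a, ((F.S a).erase (F.piv a)).card := by
    rw [Fintype.card_subtype, ← Finset.card_sigma]
    refine Finset.card_bij (fun x _ => ⟨x.2, x.1⟩) ?_ ?_ ?_
    · intro x hx
      simp only [Finset.mem_filter, Finset.mem_univ, true_and] at hx
      simp only [Finset.mem_sigma, Finset.mem_univ, true_and, Finset.mem_erase]
      exact ⟨hx.2, hx.1⟩
    · intro x _ y _ h
      simp only [Sigma.mk.injEq, heq_eq_eq] at h
      exact Prod.ext h.2 h.1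
    · rintro ⟨a, i⟩ h
      simp only [Finset.mem_sigma, Finset.mem_univ, true_and, Finset.mem_erase] at h
      exact ⟨(i, a), by simpa using ⟨h.2, h.1⟩, rfl⟩
  rw [h1]
  have h2 : 2 * l = ∑ _a : Fin l, 2 := by simp [mul_comm]
  rw [h2, ← Finset.sum_add_distrib]
  refine Finset.sum_congr rfl fun a _ => ?_
  rw [Finset.card_erase_of_mem (F.mem a)]
  have h3 : 0 < (F.S a).card := Finset.card_pos.mpr ⟨_, F.mem a⟩
  omega

open Classical in
/-- The smallest element. -/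
noncomputable def pcm {m : ℕ} (h : 0 < m) (A : Finset (Fin m)) : Fin m :=
  if hA : A.Nonempty then A.min' hA else ⟨0, h⟩

/-- The formula for `r < m`. -/
theorem final_lt (h2 : EC.Swap2 ℂ) {m n r : ℕ} (hr : 1 ≤ r) (hm : r < m) (hn : m ≤ n) :
    ∃ N : ℕ, IsFN (Frame.nil (Fin m)) (Fin n) r N ∧
      (N : ℤ) = (-1) ^ (r * (m + r)) * ∑ᶠ b : ℤ, b ^ n *
        EC.E (EC.ind {A : Fin r × Fin m → ℂ | A ∈ EC.RE ℂ r m ∧ EC.beta (EC.rspan A) = b}) := by
  classical
  have hm0 : 0 < m := by omega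
  set pc := pcm hm0 with hpcdef
  have hpc : ∀ A : Finset (Fin m), A.Nonempty → pc A ∈ A := by
    intro A hA
    rw [hpcdef, pcm, dif_pos hA]
    exact Finset.min'_mem A hA
  have hpc' : ∀ A : Finset (Fin m), ∀ i ∈ A, pc A ≤ i := by
    intro A i hi
    rw [hpcdef, pcm, dif_pos ⟨i, hi⟩]
    exact Finset.min'_le A i hi
  have hF : ∀ S : {S // S ∈ NF pc r}, ∃ N, IsFN (frm pc hpc S.1 S.2) (Fin n) r N ∧
      (N : ℤ) = (-1) ^ Fintype.card (frm pc hpc S.1 S.2).Pos *
      EC.E (fun x : (frm pc hpc S.1 S.2).Pos → ℂ => if ∃ i, x i = 0 then 0 else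
        EC.beta (EC.rspan (frameOf (frm pc hpc S.1 S.2) x)) ^ n) := fun S =>
    full_frame hr (hm.le.trans hn) _
  choose M0 hM1 hM2 using hF
  set M : (Fin r → Finset (Fin m)) → ℕ := fun S => if hS : S ∈ NF pc r then M0 ⟨S, hS⟩ else 0
    with hM
  obtain ⟨N, hN, hN2⟩ := iterate' (I := Fin m) (J := Fin n) (r := r) pc hpc
    (fun l F hl M hM => step F hl (by simpa using hm) (by simpa using hn) pc hpc M hM) M
    (fun S hS => by
      rw [hM]
      simp only [dif_pos hS]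
      exact hM1 ⟨S, hS⟩)
  refine ⟨N, hN, ?_⟩
  have h3 := sum_frames' (r := r) h2 pc hpc hpc' (fun q => EC.beta (EC.rspan q) ^ n)
    (EC.cf_beta_Fr EC.cons_Fr (fun b => b ^ n))
  have h4 : ∑ S ∈ NF pc r, (-1 : ℤ) ^ (∑ a, ((S a).card + 1)) * M S =
      EC.E (fun q : Fin r × Fin m → ℂ => EC.ind (EC.Fr ℂ r m) q * EC.beta (EC.rspan q) ^ n) := by
    rw [h3, ← Finset.sum_attach]
    refine Finset.sum_congr rfl fun S _ => ?_
    have h5 : M S.1 = M0 S := by
      rw [hM]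
      simp only [dif_pos S.2]
    have h6 := card_Pos (frm pc hpc S.1 S.2)
    rw [h5, hM2 S, ← mul_assoc, ← pow_add]
    have h7 : ∑ a, ((S.1 a).card + 1) + Fintype.card (frm pc hpc S.1 S.2).Pos =
        2 * (Fintype.card (frm pc hpc S.1 S.2).Pos + r) := by
      have h8 : ∑ a, ((S.1 a).card + 1) = Fintype.card (frm pc hpc S.1 S.2).Pos + 2 * r := h6
      rw [h8]
      ring
    rw [h7, pow_mul, neg_one_sq, one_pow, one_mul]
  rw [h4, Fintype.card_fin] at hN2
  exact EC.gr_formula h2 N ((-1) ^ (r * (m + r))) (fun b => b ^ n) hN2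

/-- The formula. -/
theorem final_of (h2 : EC.Swap2 ℂ) {m n r : ℕ} (hr : 1 ≤ r) (hm : r ≤ m) (hn : m ≤ n) :
    ∃ N : ℕ, IsFN (Frame.nil (Fin m)) (Fin n) r N ∧
      (N : ℤ) = (-1) ^ (r * (m - r)) * ∑ᶠ b : ℤ, b ^ n *
        EC.E (EC.ind {A : Fin r × Fin m → ℂ | A ∈ EC.RE ℂ r m ∧ EC.beta (EC.rspan A) = b}) := by
  have hsign : ((-1 : ℤ)) ^ (r * (m + r)) = (-1) ^ (r * (m - r)) := by
    have h5 : r * (m + r) = r * (m - r) + 2 * (r * r) := by
      obtain ⟨d, rfl⟩ := Nat.exists_eq_add_of_le hm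
      rw [Nat.add_sub_cancel_left]
      ring
    rw [h5, pow_add, pow_mul (-1 : ℤ) 2, neg_one_sq, one_pow, mul_one]
  rcases hm.lt_or_eq with h | h
  · rw [← hsign]
    exact final_lt h2 hr h hn
  · subst h
    refine ⟨1, isFN_top hn, ?_⟩
    rw [Nat.sub_self, Nat.mul_zero, pow_zero, one_mul]
    exact_mod_cast top_formula hr

end Pool.Tw
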