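import Pool.Agent.Tw.FullC
import Pool.Agent.EU.NC
import Pool.Agent.EU.Generic

/-!
# Full frames: the rank at the critical points
-/

set_option autoImplicit false
set_option linter.unusedSectionVars false

namespace Pool.Tw

open Matrix Pool.ML Pool.EU

variable {m d : ℕ}

theorem gQp_lower' {R : Type} [CommRing R] (F : Frame (Fin m) (d + 1)) (x : F.Pos → R)
    (b a : Fin (d + 1)) (h : b < a) : gQp F x b a = 0 := by
  simp only [gQp, gq, Matrix.of_apply]
  rw [dif_neg (fun h' => F.tri b a h h'.1), if_neg (fun h' => h.ne (piv_injective F h'))]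

theorem gQp_diag' {R : Type} [CommRing R] (F : Frame (Fin m) (d + 1)) (x : F.Pos → R)
    (a : Fin (d + 1)) : gQp F x a a = 1 := by
  simp [gQp, gq]

theorem gQp_det {R : Type} [CommRing R] (F : Frame (Fin m) (d + 1)) (x : F.Pos → R) :
    (gQp F x).det = 1 := by
  rw [Matrix.det_of_isLowerTriangular (gQp F x) (fun b a h => gQp_lower' F x b a h)]
  exact Finset.prod_eq_one fun a _ => gQp_diag' F x a

/-- The coordinates of the critical points are algebraically independent. -/
theorem algInd_of_crit (F : Frame (Fin m) (d + 1)) (n : ℕ) (u : Matrix (Fin m) (Fin n) ℂ)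
    (v : Matrix (Fin m) (Fin (d + 1)) ℂ) (hg : FGen F u v) (x : F.Pos ⊕ (Fin d × Fin n) → ℂ)
    (hx : x ∈ Crit (fP F n) (exv F n u v) (ext F n u)) :
    AlgebraicIndependent (acl (∅ : Set ℂ)) x ∧ AlgebraicIndependent ℚ x := by
  have h := algInd_ex F n u v hg
  obtain ⟨f1, hf1⟩ := exists_map_eq (k := acl (∅ : Set ℂ)) (fP F n)
    fun a ha => ⟨⟨a, coefs_fP F n ha⟩, rfl⟩
  have hff1 : fP F n = fun j => MvPolynomial.map (algebraMap (acl (∅ : Set ℂ)) ℂ) (f1 j) :=
    funext fun j => (hf1 j).symm
  rw [hff1] at hx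
  have h1 := (generic_point f1 _ _ h x hx).1
  have h3 : AlgebraicIndependent (acl (∅ : Set ℂ)) x := h1.comp Sum.inl Sum.inl_injective
  exact ⟨h3, h3.restrictScalars (algebraMap ℚ (acl (∅ : Set ℂ))).injective⟩

theorem exists_minor_gc (n : ℕ) (hn : d + 1 ≤ n) (y : Fin d × Fin n → ℂ)
    (hy : AlgebraicIndependent ℚ y) :
    ((gc d n y).submatrix id (Fin.castLE hn)).det ≠ 0 := by
  set p : MvPolynomial (Fin d × Fin n) ℚ :=
    ((gc d n (fun i => (MvPolynomial.X i : MvPolynomial (Fin d × Fin n) ℚ))).submatrix id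
      (Fin.castLE hn)).det with hp
  have h1 : MvPolynomial.aeval y p = ((gc d n y).submatrix id (Fin.castLE hn)).det := by
    rw [hp, AlgHom.map_det]
    congr 1
    ext1 a j
    simp only [AlgHom.mapMatrix_apply, Matrix.map_apply, Matrix.submatrix_apply]
    have h2 := gc_map' ((MvPolynomial.aeval y : MvPolynomial (Fin d × Fin n) ℚ →ₐ[ℚ] ℂ) :
      MvPolynomial (Fin d × Fin n) ℚ →+* ℂ) (n := n)
      (fun i => (MvPolynomial.X i : MvPolynomial (Fin d × Fin n) ℚ))
    have h3 := congrFun (congrFun h2 (id a)) (Fin.castLE hn j)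
    simp only [RingHom.coe_coe, MvPolynomial.aeval_X, Matrix.map_apply] at h3
    exact h3.symm
  have h0 : p ≠ 0 := by
    intro h
    let y0 : Fin d × Fin n → ℚ := fun x => if x.2 = Fin.castLE hn x.1.succ then 1 else 0
    have h2 : MvPolynomial.aeval y0 p =
        ((gc d n y0).submatrix id (Fin.castLE hn)).det := by
      rw [hp, AlgHom.map_det]
      congr 1
      ext1 a j
      simp only [AlgHom.mapMatrix_apply, Matrix.map_apply, Matrix.submatrix_apply]
      have h2 := gc_map' ((MvPolynomial.aeval y0 : MvPolynomial (Fin d × Fin n) ℚ →ₐ[ℚ] ℚ) :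
        MvPolynomial (Fin d × Fin n) ℚ →+* ℚ) (n := n)
        (fun i => (MvPolynomial.X i : MvPolynomial (Fin d × Fin n) ℚ))
      have h3 := congrFun (congrFun h2 (id a)) (Fin.castLE hn j)
      simp only [RingHom.coe_coe, MvPolynomial.aeval_X, Matrix.map_apply] at h3
      exact h3.symm
    have h3 : ((gc d n y0).submatrix id (Fin.castLE hn)).det = 1 := by
      have hu : ((gc d n y0).submatrix id (Fin.castLE hn)).BlockTriangular id := by
        intro a j haj
        simp only [gc, Matrix.submatrix_apply, Matrix.of_apply, id]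
        refine Fin.cases (motive := fun a => j < a → Fin.cases (motive := fun _ => ℚ) 1
          (fun a' => y0 (a', Fin.castLE hn j)) a = 0) (fun h => absurd h (Fin.not_lt_zero j))
          (fun a' h => ?_) a haj
        simp only [Fin.cases_succ, y0]
        rw [if_neg]
        intro h'
        rw [Fin.castLE_inj] at h'
        exact h.ne h'
      rw [Matrix.det_of_isUpperTriangular hu]
      refine Finset.prod_eq_one fun a _ => ?_
      simp only [gc, Matrix.submatrix_apply, Matrix.of_apply, id]
      refine Fin.cases ?_ (fun a' => ?_) a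
      · simp
      · simp [y0]
    rw [h3, h, map_zero] at h2
    exact zero_ne_one h2
  rw [← h1]
  exact (map_ne_zero_iff _ (algebraicIndependent_iff_injective_aeval.mp hy)).mpr h0

theorem rank_of_minor {I J : Type} [Fintype I] [Fintype J] [DecidableEq I] (A : Matrix I J ℂ)
    (g : I → J) (h : (A.submatrix id g).det ≠ 0) : A.rank = Fintype.card I := by
  have h3 : LinearIndependent ℂ A.row := by
    rw [← Matrix.vecMul_injective_iff]
    have h4 : ∀ a : I → ℂ, a ᵥ* A = 0 → a = 0 := by
      intro a ha
      by_contra hne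
      refine h (Matrix.exists_vecMul_eq_zero_iff.1 ⟨a, hne, ?_⟩)
      ext1 l
      exact congrFun ha (g l)
    intro a b hab
    have h5 : (a - b) ᵥ* A = 0 := by
      rw [Matrix.sub_vecMul]
      exact sub_eq_zero.2 hab
    exact sub_eq_zero.1 (h4 _ h5)
  exact h3.rank_matrix

/-- The rank of the coefficients. -/
theorem rank_gT (F : Frame (Fin m) (d + 1)) (n : ℕ) (hn : d + 1 ≤ n) (x : F.Pos → ℂ)
    (y : Fin d × Fin n → ℂ) (hy : AlgebraicIndependent ℚ y) (s : Fin n → ℂ)
    (hs : ∀ j, s j ≠ 0) : (gT F x y * Matrix.diagonal s).rank = d + 1 := by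
  have h1 : (gQp F x * (gT F x y * Matrix.diagonal s)).submatrix id (Fin.castLE hn) =
      (gc d n y).submatrix id (Fin.castLE hn) *
        Matrix.diagonal (fun j => s (Fin.castLE hn j)) := by
    have h2 : gQp F x * gT F x y = gc d n y := by
      rw [gT, ← Matrix.mul_assoc, Matrix.mul_adjugate, gQp_det, one_smul, Matrix.one_mul]
    rw [← Matrix.mul_assoc, h2]
    ext1 b j
    rw [Matrix.mul_diagonal, Matrix.submatrix_apply, Matrix.mul_diagonal]
    rfl
  have h2 : ((gQp F x * (gT F x y * Matrix.diagonal s)).submatrix id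
      (Fin.castLE hn)).det ≠ 0 := by
    rw [h1, Matrix.det_mul, Matrix.det_diagonal]
    exact mul_ne_zero (exists_minor_gc n hn y hy) (Finset.prod_ne_zero_iff.mpr fun j _ => hs _)
  have h3 := rank_of_minor _ _ h2
  rw [Fintype.card_fin] at h3
  apply le_antisymm
  · refine (Matrix.rank_le_card_height _).trans ?_
    rw [Fintype.card_fin]
  · exact h3.ge.trans (Matrix.rank_mul_le_right _ _)

/-- The rank of the matrices at the critical points. -/
theorem rank_gp (F : Frame (Fin m) (d + 1)) (n : ℕ) (hn : d + 1 ≤ n) (x : F.Pos → ℂ)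
    (y : Fin d × Fin n → ℂ) (hy : AlgebraicIndependent ℚ y) (s : Fin n → ℂ)
    (hs : ∀ j, s j ≠ 0) :
    (Matrix.of fun i j => s j * gp F x y i j).rank = d + 1 := by
  apply le_antisymm
  · have h1 : (Matrix.of fun i j => s j * gp F x y i j) =
        gq F x * (gT F x y * Matrix.diagonal s) := by
      rw [← Matrix.mul_assoc]
      ext1 i j
      rw [Matrix.mul_diagonal, Matrix.of_apply, mul_comm]
      rfl
    rw [h1]
    refine (Matrix.rank_mul_le_left _ _).trans ((Matrix.rank_le_card_width _).trans ?_)
    rw [Fintype.card_fin]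
  · -- a minor
    have h1 : (Matrix.of fun i j => s j * gp F x y i j).submatrix F.piv (Fin.castLE hn) =
        (gc d n y).submatrix id (Fin.castLE hn) *
          Matrix.diagonal (fun j => s (Fin.castLE hn j)) := by
      ext1 b j
      rw [Matrix.mul_diagonal]
      simp only [Matrix.submatrix_apply, Matrix.of_apply, id]
      rw [mul_comm]
      congr 1
      have h2 : gQp F x * gT F x y = gc d n y := by
        rw [gT, ← Matrix.mul_assoc, Matrix.mul_adjugate, gQp_det, one_smul, Matrix.one_mul]
      exact congrFun (congrFun h2 b) (Fin.castLE hn j)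
    have h2 : ((Matrix.of fun i j => s j * gp F x y i j).submatrix F.piv
        (Fin.castLE hn)).det ≠ 0 := by
      rw [h1, Matrix.det_mul, Matrix.det_diagonal]
      exact mul_ne_zero (exists_minor_gc n hn y hy) (Finset.prod_ne_zero_iff.mpr fun j _ => hs _)
    have h3 : ((Matrix.of fun i j => s j * gp F x y i j).submatrix F.piv id).rank = d + 1 := by
      rw [rank_of_minor _ (Fin.castLE hn) (by simpa using h2), Fintype.card_fin]
    rw [← h3]
    have h4 : (Matrix.of fun i j => s j * gp F x y i j).submatrix F.piv id =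
        (1 : Matrix (Fin m) (Fin m) ℂ).submatrix F.piv id *
          (Matrix.of fun i j => s j * gp F x y i j) := by
      ext1 b j
      simp [Matrix.mul_apply, Matrix.one_apply]
    rw [h4]
    exact Matrix.rank_mul_le_right _ _

end Pool.Tw
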