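import Pool.Agent.Tw.FullA1
import Pool.Agent.Tw.FullR

/-!
# Full frames: the bijection
-/

set_option autoImplicit false
set_option linter.unusedSectionVars false

namespace Pool.Tw

open Matrix Pool.ML Pool.EU MvPolynomial

variable {m d : ℕ}

section bij

variable (F : Frame (Fin m) (d + 1)) (n : ℕ) (u : Matrix (Fin m) (Fin n) ℂ)
  (v : Matrix (Fin m) (Fin (d + 1)) ℂ)

/-- The point of `FSet` which belongs to a critical point. -/
noncomputable def gz (z : F.Pos ⊕ (Fin d × Fin n) → ℂ) :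
    Matrix (Fin m) (Fin (d + 1)) ℂ × Matrix (Fin m) (Fin n) ℂ :=
  (qz F n z, Matrix.of fun i j => (∑ l, u l j) * pz F n z i j / ∑ l, pz F n z l j)

theorem sum_ne (hg : FGen F u v) (j : Fin n) : ∑ l, u l j ≠ 0 := by
  have h := (algInd_ex F n u v hg).ne_zero (Sum.inr (none, j))
  intro h1
  apply h
  change -∑ i, u i j = 0
  rw [h1, neg_zero]

theorem u_ne (hg : FGen F u v) (i : Fin m) (j : Fin n) : u i j ≠ 0 :=
  hg.ne_zero (Sum.inl (i, j))

theorem v_ne (hg : FGen F u v) (k : F.Pos) : v k.1.1 k.1.2 ≠ 0 :=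
  hg.ne_zero (Sum.inr k)

theorem pz_all {z : F.Pos ⊕ (Fin d × Fin n) → ℂ} (hz : ∀ o, z o ≠ 0)
    (hf : ∀ c, eval z (fP F n c) ≠ 0) (i : Fin m) (j : Fin n) : pz F n z i j ≠ 0 := by
  by_cases h : ∃ b, F.piv b = i
  · obtain ⟨b, rfl⟩ := h
    refine Fin.cases ?_ (fun a => ?_) b
    · rw [pz_piv_zero]
      exact one_ne_zero
    · rw [pz_piv_succ]
      exact hz _
  · push Not at h
    rw [← eval_fP_some F n z ⟨i, Finset.mem_filter.mpr ⟨Finset.mem_univ _, h⟩⟩ j]
    exact hf _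

theorem gz_mem (hn : d + 1 ≤ n) (hg : FGen F u v) {z : F.Pos ⊕ (Fin d × Fin n) → ℂ}
    (hz : z ∈ Crit (fP F n) (exv F n u v) (ext F n u)) : gz F n u z ∈ FSet F (d + 1) u v := by
  have hs := sum_ne F n u v hg
  have hu := u_ne F n u v hg
  have hz0 : ∀ o, z o ≠ 0 := hz.1
  have hp : ∀ i j, pz F n z i j ≠ 0 := pz_all F n hz.1 hz.2.1
  have hσ : ∀ j, ∑ i, pz F n z i j ≠ 0 := fun j => by
    rw [← eval_fP_none]
    exact hz.2.1 _
  obtain ⟨hW, hv⟩ := (mem_crit_fP F n u v z hz0 hp hσ).mp hz.2.2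
  set q := qz F n z with hq
  set P : Matrix (Fin m) (Fin n) ℂ :=
    Matrix.of fun i j => (∑ l, u l j) * pz F n z i j / ∑ l, pz F n z l j with hP
  have hP0 : ∀ i j, P i j ≠ 0 := fun i j =>
    div_ne_zero (mul_ne_zero (hs j) (hp i j)) (hσ j)
  set s : Fin n → ℂ := fun j => (∑ l, u l j) / ∑ l, pz F n z l j with hsd
  have hs0 : ∀ j, s j ≠ 0 := fun j => div_ne_zero (hs j) (hσ j)
  set Y : Matrix (Fin (d + 1)) (Fin n) ℂ := Tz F n z * Matrix.diagonal s with hY
  have hPY : P = q * Y := by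
    rw [hY, ← Matrix.mul_assoc]
    ext i j
    rw [Matrix.mul_diagonal]
    change (∑ l, u l j) * pz F n z i j / ∑ l, pz F n z l j = pz F n z i j * s j
    rw [hsd]
    ring
  have hYr : Y.rank = d + 1 :=
    rank_gT F n hn _ _ ((algInd_of_crit F n u v hg z hz).2.comp Sum.inr Sum.inr_injective) s hs0
  set H : Matrix (Fin m) (Fin n) ℂ := Matrix.of fun i j => u i j / P i j - 1 with hH
  have hHW : ∀ i j, s j * H i j = Wz F n u z i j := by
    intro i j
    rw [hH, Matrix.of_apply, Wz, Matrix.of_apply, hP, Matrix.of_apply, hsd]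
    have h1 := hp i j
    have h2 := hσ j
    have h3 := hs j
    field_simp
  have hqH : qᵀ * H = 0 := by
    ext a j
    have h1 := congrFun (congrFun hW a) j
    rw [Matrix.mul_apply, Matrix.zero_apply] at h1 ⊢
    have h2 : s j * ∑ i, qᵀ a i * H i j = 0 := by
      rw [Finset.mul_sum, ← h1]
      refine Finset.sum_congr rfl fun i _ => ?_
      rw [← hHW]
      ring
    exact (mul_eq_zero.mp h2).resolve_left (hs0 j)
  obtain ⟨L, hL⟩ := exists_left_inverse F (fun i => z (Sum.inl i))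
  obtain ⟨Z, hZ⟩ : ∃ Z : Matrix (Fin n) (Fin (d + 1)) ℂ, Y * Z = 1 := by
    rw [← Matrix.mulVec_surjective_iff_exists_right_inverse]
    have h1 : LinearMap.range Y.mulVecLin = ⊤ := by
      apply Submodule.eq_top_of_finrank_eq
      rw [Module.finrank_fintype_fun_eq_card, Fintype.card_fin]
      exact hYr
    exact LinearMap.range_eq_top.mp h1
  refine ⟨H * Yᵀ, H, ?_, ?_, ?_, ?_, ?_, ?_, ?_, ?_, ?_⟩
  · intro i j
    change P i j * (1 + H i j) = u i j
    rw [hH, Matrix.of_apply]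
    have := hP0 i j
    field_simp
    ring
  · intro a
    exact gq_one F (fun i => z (Sum.inl i)) a
  · intro a i hi
    exact gq_off F (fun i => z (Sum.inl i)) a i hi
  · intro a i hi hi'
    have h1 := hv ⟨(i, a), hi, hi'⟩
    have h2 : (H * Yᵀ) i a = (Wz F n u z * (Tz F n z)ᵀ) i a := by
      rw [Matrix.mul_apply, Matrix.mul_apply]
      refine Finset.sum_congr rfl fun j _ => ?_
      rw [← hHW, Matrix.transpose_apply, Matrix.transpose_apply, hY, Matrix.mul_diagonal]
      ring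
    have h3 : qz F n z i a = z (Sum.inl ⟨(i, a), hi, hi'⟩) := gq_on F _ a i ⟨hi, hi'⟩
    change qz F n z i a * (H * Yᵀ) i a = -v i a
    rw [h2, h3]
    linear_combination h1
  · change P.rank = d + 1
    apply le_antisymm
    · rw [hPY]
      exact (Matrix.rank_mul_le_left _ _).trans (by simpa using Matrix.rank_le_card_width q)
    · have h1 : L * P = Y := by rw [hPY, ← Matrix.mul_assoc, hq, qz, hL, Matrix.one_mul]
      rw [← hYr, ← h1]
      exact Matrix.rank_mul_le_right _ _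
  · refine ⟨Z, ?_⟩
    change q = P * Z
    rw [hPY, Matrix.mul_assoc, hZ, Matrix.mul_one]
  · change Pᵀ * H = 0
    rw [hPY, Matrix.transpose_mul, Matrix.mul_assoc, hqH, Matrix.mul_zero]
  · change Pᵀ * (H * Yᵀ) = 0
    rw [hPY, Matrix.transpose_mul, ← Matrix.mul_assoc, Matrix.mul_assoc Yᵀ, hqH, Matrix.mul_zero,
      Matrix.zero_mul]
  · change P * Hᵀ = q * (H * Yᵀ)ᵀ
    rw [hPY, Matrix.transpose_mul, Matrix.transpose_transpose, Matrix.mul_assoc]

theorem gz_inj (hg : FGen F u v) :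
    Set.InjOn (gz F n u) (Crit (fP F n) (exv F n u v) (ext F n u)) := by
  intro z hz z' hz' h
  have hs := sum_ne F n u v hg
  have h1 : qz F n z = qz F n z' := congrArg Prod.fst h
  have h2 := congrArg Prod.snd h
  have hσ : ∀ j, ∑ i, pz F n z i j ≠ 0 := fun j => by
    rw [← eval_fP_none]
    exact hz.2.1 _
  have hσ' : ∀ j, ∑ i, pz F n z' i j ≠ 0 := fun j => by
    rw [← eval_fP_none]
    exact hz'.2.1 _
  have h3 : ∀ i j, (∑ l, u l j) * pz F n z i j / ∑ l, pz F n z l j =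
      (∑ l, u l j) * pz F n z' i j / ∑ l, pz F n z' l j := fun i j =>
    congrFun (congrFun h2 i) j
  have h4 : ∀ j, ∑ l, pz F n z l j = ∑ l, pz F n z' l j := by
    intro j
    have h5 := h3 (F.piv 0) j
    rw [pz_piv_zero, pz_piv_zero, mul_one, div_eq_div_iff (hσ j) (hσ' j)] at h5
    exact (mul_left_cancel₀ (hs j) h5).symm
  funext o
  rcases o with k | ⟨a, j⟩
  · have h5 := congrFun (congrFun h1 k.1.1) k.1.2
    rw [qz, qz, gq_on F _ k.1.2 k.1.1 k.2, gq_on F _ k.1.2 k.1.1 k.2] at h5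
    exact h5
  · have h5 := h3 (F.piv a.succ) j
    rw [pz_piv_succ, pz_piv_succ, h4 j, div_left_inj' (hσ' j)] at h5
    exact mul_left_cancel₀ (hs j) h5

theorem gz_surj (hg : FGen F u v) :
    Set.SurjOn (gz F n u) (Crit (fP F n) (exv F n u v) (ext F n u)) (FSet F (d + 1) u v) := by
  rintro ⟨q, P⟩ ⟨φ, H, hsol⟩
  have hs := sum_ne F n u v hg
  have hu := u_ne F n u v hg
  have heq : ∀ i j, P i j * (1 + H i j) = u i j := hsol.eq
  have hP0 : ∀ i j, P i j ≠ 0 := by
    intro i j h0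
    have h1 := heq i j
    rw [h0, zero_mul] at h1
    exact hu i j h1.symm
  have hq1 : gq F (fun k => q k.1.1 k.1.2) = q := eq_gq F q hsol.one hsol.off
  -- the matrix Y
  obtain ⟨Z, hZ⟩ := hsol.mem
  have hZ' : q = P * Z := hZ
  obtain ⟨L, hL⟩ := exists_left_inverse F (fun k => q k.1.1 k.1.2)
  rw [hq1] at hL
  have hqr : q.rank = d + 1 := by
    apply le_antisymm
    · simpa using Matrix.rank_le_card_width q
    · have h1 : (1 : Matrix (Fin (d + 1)) (Fin (d + 1)) ℂ).rank ≤ q.rank := by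
        rw [← hL]
        exact Matrix.rank_mul_le_right _ _
      rwa [Matrix.rank_one, Fintype.card_fin] at h1
  obtain ⟨Y, hY⟩ : ∃ Y : Matrix (Fin (d + 1)) (Fin n) ℂ, P = q * Y := by
    have h1 : LinearMap.range q.mulVecLin ≤ LinearMap.range P.mulVecLin := by
      rintro _ ⟨w, rfl⟩
      refine ⟨Z *ᵥ w, ?_⟩
      rw [Matrix.mulVecLin_apply, Matrix.mulVecLin_apply, Matrix.mulVec_mulVec, ← hZ']
    have h2 : LinearMap.range q.mulVecLin = LinearMap.range P.mulVecLin := by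
      apply Submodule.eq_of_le_of_finrank_le h1
      have h3 : P.rank = d + 1 := hsol.rk
      change P.rank ≤ q.rank
      rw [h3, hqr]
    have h3 : ∀ j, ∃ w, q *ᵥ w = fun i => P i j := by
      intro j
      have h4 : (fun i => P i j) ∈ LinearMap.range P.mulVecLin := by
        refine ⟨Pi.single j 1, ?_⟩
        rw [Matrix.mulVecLin_apply, Matrix.mulVec_single_one]
        rfl
      rw [← h2] at h4
      obtain ⟨w, hw⟩ := h4
      exact ⟨w, hw⟩
    choose w hw using h3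
    refine ⟨Matrix.of fun a j => w j a, ?_⟩
    ext i j
    exact (congrFun (hw j) i).symm
  have hqH : qᵀ * H = 0 := by
    rw [hZ', Matrix.transpose_mul, Matrix.mul_assoc]
    have h1 : Pᵀ * H = 0 := hsol.PG
    rw [h1, Matrix.mul_zero]
  have hφ : φ = H * Yᵀ := by
    have h1 : P * Hᵀ = q * φᵀ := hsol.om
    rw [hY, Matrix.mul_assoc] at h1
    have h2 := congrArg (fun M => L * M) h1
    simp only [← Matrix.mul_assoc, hL, Matrix.one_mul] at h2
    have h3 := congrArg Matrix.transpose h2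
    rw [Matrix.transpose_mul, Matrix.transpose_transpose, Matrix.transpose_transpose] at h3
    exact h3.symm
  have hcol : ∀ j, ∑ i, P i j = ∑ i, u i j := by
    intro j
    have h1 : Pᵀ * H = 0 := hsol.PG
    have h2 := congrFun (congrFun h1 j) j
    rw [Matrix.mul_apply, Matrix.zero_apply] at h2
    have h3 : ∀ i, Pᵀ j i * H i j = u i j - P i j := by
      intro i
      rw [← heq i j, Matrix.transpose_apply]
      ring
    simp only [h3, Finset.sum_sub_distrib] at h2
    exact (sub_eq_zero.mp h2).symm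
  -- the point
  set z : F.Pos ⊕ (Fin d × Fin n) → ℂ :=
    Sum.elim (fun k => q k.1.1 k.1.2) (fun y => P (F.piv y.1.succ) y.2 / P (F.piv 0) y.2) with hz
  have hqz : qz F n z = q := hq1
  have hc : ∀ b j, gc d n (fun i => z (Sum.inr i)) b j = P (F.piv b) j / P (F.piv 0) j := by
    intro b j
    refine Fin.cases ?_ (fun a => ?_) b
    · rw [gc_zero, div_self (hP0 _ _)]
    · rw [gc_succ]
      rfl
  have hT : ∀ a j, Tz F n z a j = Y a j / P (F.piv 0) j := by
    intro a j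
    have h1 : gc d n (fun i => z (Sum.inr i)) = gQp F (fun i => z (Sum.inl i)) *
        (Y * Matrix.diagonal fun j => (P (F.piv 0) j)⁻¹) := by
      ext b j
      rw [hc, ← Matrix.mul_assoc, Matrix.mul_diagonal, ← gq_mul_piv]
      have h2 : gq F (fun i => z (Sum.inl i)) = q := hq1
      rw [h2, ← hY]
      rfl
    rw [Tz, gT, h1, ← Matrix.mul_assoc, adj_mul_gQp, Matrix.one_mul, Matrix.mul_diagonal]
    rfl
  have hp : ∀ i j, pz F n z i j = P i j / P (F.piv 0) j := by
    intro i j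
    have h1 : pz F n z i j = (qz F n z * Tz F n z) i j := rfl
    rw [h1, hqz, Matrix.mul_apply, hY, Matrix.mul_apply, Finset.sum_div]
    refine Finset.sum_congr rfl fun a _ => ?_
    rw [hT, hY, mul_div_assoc]
  have hσ : ∀ j, ∑ i, pz F n z i j = (∑ i, u i j) / P (F.piv 0) j := by
    intro j
    simp only [hp, ← Finset.sum_div, hcol]
  have hz0 : ∀ o, z o ≠ 0 := by
    rintro (k | y)
    · intro h0
      have h1 : q k.1.1 k.1.2 * φ k.1.1 k.1.2 = -v k.1.1 k.1.2 := hsol.on _ _ k.2.1 k.2.2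
      have h2 : q k.1.1 k.1.2 = 0 := h0
      rw [h2, zero_mul] at h1
      exact v_ne F n u v hg k (neg_eq_zero.mp h1.symm)
    · exact div_ne_zero (hP0 _ _) (hP0 _ _)
  have hp0 : ∀ i j, pz F n z i j ≠ 0 := fun i j => by
    rw [hp]
    exact div_ne_zero (hP0 _ _) (hP0 _ _)
  have hσ0 : ∀ j, ∑ i, pz F n z i j ≠ 0 := fun j => by
    rw [hσ]
    exact div_ne_zero (hs j) (hP0 _ _)
  have hW : ∀ i j, Wz F n u z i j = P (F.piv 0) j * H i j := by
    intro i j
    rw [Wz, Matrix.of_apply, hp, hσ, ← heq i j]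
    have h1 := hP0 i j
    have h2 := hP0 (F.piv 0) j
    have h3 := hs j
    have h4 : (∑ l, u l j) / ((∑ l, u l j) / P (F.piv 0) j) = P (F.piv 0) j := by
      field_simp
    rw [h4]
    field_simp
    ring
  refine ⟨z, ⟨hz0, ?_, ?_⟩, ?_⟩
  · rintro ⟨_ | i, j⟩
    · rw [eval_fP_none]
      exact hσ0 j
    · rw [eval_fP_some]
      exact hp0 _ _
  · rw [mem_crit_fP F n u v z hz0 hp0 hσ0]
    constructor
    · rw [hqz]
      ext a j
      have h1 := congrFun (congrFun hqH a) j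
      rw [Matrix.mul_apply, Matrix.zero_apply] at h1 ⊢
      have h2 : ∑ i, qᵀ a i * Wz F n u z i j = P (F.piv 0) j * ∑ i, qᵀ a i * H i j := by
        rw [Finset.mul_sum]
        refine Finset.sum_congr rfl fun i _ => ?_
        rw [hW]
        ring
      rw [h2, h1, mul_zero]
    · intro k
      have h1 : (Wz F n u z * (Tz F n z)ᵀ) k.1.1 k.1.2 = φ k.1.1 k.1.2 := by
        rw [hφ, Matrix.mul_apply, Matrix.mul_apply]
        refine Finset.sum_congr rfl fun j _ => ?_
        rw [hW, Matrix.transpose_apply, Matrix.transpose_apply, hT]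
        have := hP0 (F.piv 0) j
        field_simp
      rw [h1]
      have h2 : q k.1.1 k.1.2 * φ k.1.1 k.1.2 = -v k.1.1 k.1.2 := hsol.on _ _ k.2.1 k.2.2
      change v k.1.1 k.1.2 + q k.1.1 k.1.2 * φ k.1.1 k.1.2 = 0
      rw [h2]
      ring
  · refine Prod.ext hqz ?_
    ext i j
    change (∑ l, u l j) * pz F n z i j / ∑ l, pz F n z l j = P i j
    rw [hp, hσ]
    have h1 := hP0 (F.piv 0) j
    have h2 := hs j
    field_simp

end bij

/-- C1a3: the bijection. -/
theorem fset_crit (F : Frame (Fin m) (d + 1)) (n : ℕ) (hn : d + 1 ≤ n)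
    (u : Matrix (Fin m) (Fin n) ℂ) (v : Matrix (Fin m) (Fin (d + 1)) ℂ) (hg : FGen F u v) :
    ∃ g : (F.Pos ⊕ (Fin d × Fin n) → ℂ) → Matrix (Fin m) (Fin (d + 1)) ℂ × Matrix (Fin m) (Fin n) ℂ,
      Set.BijOn g (Crit (fP F n) (exv F n u v) (ext F n u)) (FSet F (d + 1) u v) :=
  ⟨gz F n u, fun _ hz => gz_mem F n u v hn hg hz, gz_inj F n u v hg, gz_surj F n u v hg⟩

/-- C1a -/
theorem isFN_full (F : Frame (Fin m) (d + 1)) (n : ℕ) (hn : d + 1 ≤ n) :
    IsFN F (Fin n) (d + 1) (NC (fP F n)) := by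
  intro u v hg
  obtain ⟨g, hb⟩ := fset_crit F n hn u v hg
  obtain ⟨h1, h2⟩ := NC_eq (fP F n) ∅ Set.countable_empty (coefs_fP F n) (exv F n u v)
    (ext F n u) (algInd_ex F n u v hg)
  refine ⟨?_, ?_⟩
  · rw [← hb.image_eq]
    exact h1.image g
  · rw [← hb.image_eq, hb.injOn.ncard_image, h2]

end Pool.Tw
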