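import Pool.Agent.Tw.FibX
import Pool.Agent.Tw.FullA

/-!
# Full frames
-/

set_option autoImplicit false
set_option linter.unusedSectionVars false

namespace Pool.Tw

open Matrix Pool.ML Pool.EU

/-- The number of critical points with a full frame. -/
theorem full_frame {m n r : ℕ} (hr : 1 ≤ r) (hn : r ≤ n) (F : Frame (Fin m) r) :
    ∃ N, IsFN F (Fin n) r N ∧ (N : ℤ) = (-1) ^ Fintype.card F.Pos *
      EC.E (fun x : F.Pos → ℂ => open Classical in if ∃ i, x i = 0 then 0 else
        EC.beta (EC.rspan (frameOf F x)) ^ n) := by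
  classical
  obtain ⟨d, rfl⟩ := Nat.exists_eq_add_of_le' hr
  refine ⟨NC (fP F n), isFN_full F n hn, ?_⟩
  rw [nc_fP]
  congr 2
  ext x
  by_cases hx : ∃ i, x i = 0
  · rw [if_pos hx, if_pos hx]
  · rw [if_neg hx, if_neg hx]
    push Not at hx
    exact nc_fX F n x hx

end Pool.Tw
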