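import Pool.Agent.Tw.FibP

/-!
# Full frames: the critical equations

The critical equations of the polynomials `fP`, in terms of the matrix `W = u / p - s / σ`.
-/

set_option autoImplicit false
set_option linter.unusedSectionVars false

namespace Pool.Tw

open Matrix Pool.ML Pool.EU

variable {m d : ℕ}

section alg

variable {R : Type} [CommRing R] (F : Frame (Fin m) (d + 1)) {n : ℕ} (x : F.Pos → R)
  (y : Fin d × Fin n → R)

theorem gq_one (a : Fin (d + 1)) : gq F x (F.piv a) a = 1 := by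
  rw [gq, Matrix.of_apply, dif_neg (fun h => h.2 rfl), if_pos rfl]

theorem gq_off (a : Fin (d + 1)) (i : Fin m) (h : i ∉ F.S a) : gq F x i a = 0 := by
  rw [gq, Matrix.of_apply, dif_neg (fun h' => h h'.1), if_neg]
  intro h'
  rw [h'] at h
  exact h (F.mem a)

theorem gq_on (a : Fin (d + 1)) (i : Fin m) (h : i ∈ F.S a ∧ i ≠ F.piv a) :
    gq F x i a = x ⟨(i, a), h⟩ := by
  rw [gq, Matrix.of_apply, dif_pos h]

theorem gQp_det1 : (gQp F x).det = 1 := by
  rw [Matrix.det_of_isLowerTriangular]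
  · refine Finset.prod_eq_one fun a _ => ?_
    exact gq_one F x a
  · intro a b hab
    exact gq_off F x b (F.piv a) (F.tri a b (OrderDual.toDual_lt_toDual.mp hab))

theorem gQp_mul_adj : gQp F x * adjugate (gQp F x) = 1 := by
  rw [Matrix.mul_adjugate, gQp_det1, one_smul]

theorem adj_mul_gQp : adjugate (gQp F x) * gQp F x = 1 := by
  rw [Matrix.adjugate_mul, gQp_det1, one_smul]

theorem gQp_mul_gT : gQp F x * gT F x y = gc d n y := by
  rw [gT, ← Matrix.mul_assoc, gQp_mul_adj, Matrix.one_mul]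

theorem gq_mul_piv {κ : Type} (A : Matrix (Fin (d + 1)) κ R) (b : Fin (d + 1)) (j : κ) :
    (gq F x * A) (F.piv b) j = (gQp F x * A) b j := by
  rw [Matrix.mul_apply, Matrix.mul_apply]
  rfl

theorem gp_piv (b : Fin (d + 1)) (j : Fin n) : gp F x y (F.piv b) j = gc d n y b j := by
  rw [gp, gq_mul_piv, gQp_mul_gT]

theorem gq_cancel {κ : Type} {A B : Matrix (Fin (d + 1)) κ R} (h : gq F x * A = gq F x * B) :
    A = B := by
  have h1 : gQp F x * A = gQp F x * B := by
    ext b j
    rw [← gq_mul_piv, ← gq_mul_piv, h]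
  have h2 := congrArg (fun C => adjugate (gQp F x) * C) h1
  simp only [← Matrix.mul_assoc, adj_mul_gQp, Matrix.one_mul] at h2
  exact h2

theorem gc_zero (j : Fin n) : gc d n y 0 j = 1 := rfl

theorem gc_succ (a : Fin d) (j : Fin n) : gc d n y a.succ j = y (a, j) := rfl

/-- A left inverse of the frame matrix. -/
theorem exists_left_inverse : ∃ L : Matrix (Fin (d + 1)) (Fin m) R, L * gq F x = 1 := by
  refine ⟨adjugate (gQp F x) * (Matrix.of (fun b i => if i = F.piv b then (1 : R) else 0) :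
    Matrix (Fin (d + 1)) (Fin m) R), ?_⟩
  have h : (Matrix.of (fun b i => if i = F.piv b then (1 : R) else 0) :
      Matrix (Fin (d + 1)) (Fin m) R) * gq F x = gQp F x := by
    ext b a
    rw [Matrix.mul_apply, Finset.sum_eq_single (F.piv b)]
    · simp [gQp]
    · intro i _ hi
      simp [hi]
    · intro h
      exact absurd (Finset.mem_univ _) h
  rw [Matrix.mul_assoc, h, adj_mul_gQp]

/-- A frame matrix is given by its free entries. -/
theorem eq_gq (q : Matrix (Fin m) (Fin (d + 1)) R) (h1 : ∀ a, q (F.piv a) a = 1)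
    (h2 : ∀ a i, i ∉ F.S a → q i a = 0) : gq F (fun k => q k.1.1 k.1.2) = q := by
  ext i a
  by_cases h : i ∈ F.S a ∧ i ≠ F.piv a
  · rw [gq_on F _ a i h]
  · by_cases h3 : i = F.piv a
    · rw [h3, gq_one, h1]
    · have h4 : i ∉ F.S a := fun h5 => h ⟨h5, h3⟩
      rw [gq_off F _ a i h4, h2 a i h4]

/-- Splitting a sum in the pivots and the rest. -/
theorem sum_split (f : Fin m → R) :
    ∑ i, f i = ∑ i : {i // i ∈ F.free}, f i.1 + ∑ b, f (F.piv b) := by
  classical
  have hinj : Function.Injective F.piv := by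
    intro a b hab
    by_contra h
    rcases lt_or_gt_of_ne h with h | h
    · exact F.tri a b h (hab ▸ F.mem b)
    · exact F.tri b a h (hab ▸ F.mem a)
  rw [Finset.sum_coe_sort F.free f,
    ← Finset.sum_filter_add_sum_filter_not Finset.univ (fun i => ∀ a, F.piv a ≠ i)]
  congr 1
  have h1 : (Finset.univ.filter fun i => ¬ ∀ a, F.piv a ≠ i) = Finset.univ.image F.piv := by
    ext i
    simp
  rw [h1, Finset.sum_image fun a _ b _ h => hinj h]

end alg

section der

open MvPolynomial

variable (F : Frame (Fin m) (d + 1)) (n : ℕ)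

/-- The point derivation in the direction of a coordinate. -/
noncomputable def pd (z : F.Pos ⊕ (Fin d × Fin n) → ℂ) (o : F.Pos ⊕ (Fin d × Fin n)) :
    MvPolynomial (F.Pos ⊕ (Fin d × Fin n)) ℂ →ₗ[ℂ] ℂ :=
  (MvPolynomial.aeval z).toLinearMap ∘ₗ (pderiv o).toLinearMap

variable (z : F.Pos ⊕ (Fin d × Fin n) → ℂ) (o : F.Pos ⊕ (Fin d × Fin n))

theorem pd_apply (p : MvPolynomial (F.Pos ⊕ (Fin d × Fin n)) ℂ) :
    pd F n z o p = eval z (pderiv o p) := by
  rw [← MvPolynomial.aeval_eq_eval]
  rfl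

theorem pd_mul (p q : MvPolynomial (F.Pos ⊕ (Fin d × Fin n)) ℂ) :
    pd F n z o (p * q) = pd F n z o p * eval z q + eval z p * pd F n z o q := by
  simp only [pd_apply, Derivation.leibniz, map_add, smul_eq_mul, map_mul]
  ring

theorem pd_X (k : F.Pos ⊕ (Fin d × Fin n)) : pd F n z o (X k) = if o = k then 1 else 0 := by
  classical
  rw [pd_apply, pderiv_X]
  by_cases h : o = k
  · subst h
    simp
  · rw [if_neg h, Pi.single_eq_of_ne (Ne.symm h), map_zero]

theorem pd_one : pd F n z o 1 = 0 := by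
  rw [pd_apply, Derivation.map_one_eq_zero, map_zero]

theorem pd_matrix_mul {α β γ : Type} [Fintype β]
    (M : Matrix α β (MvPolynomial (F.Pos ⊕ (Fin d × Fin n)) ℂ))
    (N : Matrix β γ (MvPolynomial (F.Pos ⊕ (Fin d × Fin n)) ℂ)) :
    (M * N).map (pd F n z o) = M.map (pd F n z o) * N.map (eval z) +
      M.map (eval z) * N.map (pd F n z o) := by
  ext i j
  simp only [Matrix.map_apply, Matrix.add_apply, Matrix.mul_apply, map_sum, pd_mul,
    Finset.sum_add_distrib]

/-- The coordinate functions. -/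
noncomputable def XX : F.Pos → MvPolynomial (F.Pos ⊕ (Fin d × Fin n)) ℂ := fun i => X (Sum.inl i)

/-- The coordinate functions. -/
noncomputable def YY : Fin d × Fin n → MvPolynomial (F.Pos ⊕ (Fin d × Fin n)) ℂ :=
  fun i => X (Sum.inr i)

/-- The derivative of the frame vectors. -/
noncomputable def dq : Matrix (Fin m) (Fin (d + 1)) ℂ := (gq F (XX F n)).map (pd F n z o)

/-- The derivative of the coefficients. -/
noncomputable def dT : Matrix (Fin (d + 1)) (Fin n) ℂ :=
  (gT F (XX F n) (YY F n)).map (pd F n z o)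

/-- The derivative of the entries at the pivots. -/
noncomputable def dc : Matrix (Fin (d + 1)) (Fin n) ℂ := (gc d n (YY F n)).map (pd F n z o)

theorem ev_gq : (gq F (XX F n)).map (eval z) = gq F (fun i => z (Sum.inl i)) := by
  rw [← gq_map]
  simp [XX]

theorem ev_gQp : (gQp F (XX F n)).map (eval z) = gQp F (fun i => z (Sum.inl i)) := by
  rw [← gQp_map]
  simp [XX]

theorem ev_gT : (gT F (XX F n) (YY F n)).map (eval z) =
    gT F (fun i => z (Sum.inl i)) (fun i => z (Sum.inr i)) := by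
  rw [← gT_map]
  simp [XX, YY]

theorem ev_gp : (gp F (XX F n) (YY F n)).map (eval z) =
    gp F (fun i => z (Sum.inl i)) (fun i => z (Sum.inr i)) := by
  rw [← gp_map]
  simp [XX, YY]

theorem dp_eq : (gp F (XX F n) (YY F n)).map (pd F n z o) =
    dq F n z o * gT F (fun i => z (Sum.inl i)) (fun i => z (Sum.inr i)) +
      gq F (fun i => z (Sum.inl i)) * dT F n z o := by
  rw [gp, pd_matrix_mul, ev_gT, ev_gq]
  rfl

theorem dp_piv (b : Fin (d + 1)) (j : Fin n) :
    (gp F (XX F n) (YY F n)).map (pd F n z o) (F.piv b) j = dc F n z o b j := by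
  rw [Matrix.map_apply, gp_piv]
  rfl

theorem dc_inl (k : F.Pos) : dc F n z (Sum.inl k) = 0 := by
  ext b j
  rw [dc, Matrix.map_apply, Matrix.zero_apply]
  refine Fin.cases ?_ (fun a => ?_) b
  · rw [gc_zero, pd_one]
  · rw [gc_succ, YY, pd_X, if_neg (by simp)]

theorem dc_inr (a : Fin d) (j : Fin n) :
    dc F n z (Sum.inr (a, j)) = Matrix.single a.succ j 1 := by
  ext b j'
  rw [dc, Matrix.map_apply]
  refine Fin.cases ?_ (fun a' => ?_) b
  · rw [gc_zero, pd_one, Matrix.single_apply, if_neg]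
    rintro ⟨h, _⟩
    exact Fin.succ_ne_zero a h
  · rw [gc_succ, YY, pd_X, Matrix.single_apply]
    by_cases h : a = a' ∧ j = j'
    · rw [if_pos (by rw [h.1, h.2]), if_pos ⟨by rw [h.1], h.2⟩]
    · rw [if_neg, if_neg]
      · rintro ⟨h1, h2⟩
        exact h ⟨Fin.succ_injective _ h1, h2⟩
      · intro h1
        exact h (by simpa using h1)

theorem dq_inr (k : Fin d × Fin n) : dq F n z (Sum.inr k) = 0 := by
  ext i a
  rw [dq, Matrix.map_apply, Matrix.zero_apply]
  by_cases h : i ∈ F.S a ∧ i ≠ F.piv a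
  · rw [gq_on F _ a i h, XX, pd_X, if_neg (by simp)]
  · by_cases h3 : i = F.piv a
    · rw [h3, gq_one, pd_one]
    · have h4 : i ∉ F.S a := fun h5 => h ⟨h5, h3⟩
      rw [gq_off F _ a i h4, map_zero]

theorem dq_inl (i₀ : Fin m) (a₀ : Fin (d + 1)) (h₀ : i₀ ∈ F.S a₀ ∧ i₀ ≠ F.piv a₀) :
    dq F n z (Sum.inl ⟨(i₀, a₀), h₀⟩) = Matrix.single i₀ a₀ 1 := by
  ext i a
  rw [dq, Matrix.map_apply, Matrix.single_apply]
  by_cases h : i ∈ F.S a ∧ i ≠ F.piv a
  · rw [gq_on F _ a i h, XX, pd_X]
    by_cases h1 : i₀ = i ∧ a₀ = a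
    · obtain ⟨rfl, rfl⟩ := h1
      rw [if_pos rfl, if_pos ⟨rfl, rfl⟩]
    · rw [if_neg, if_neg h1]
      intro h2
      simp only [Sum.inl.injEq, Subtype.mk.injEq, Prod.mk.injEq] at h2
      exact h1 h2
  · have h1 : ¬ (i₀ = i ∧ a₀ = a) := by
      rintro ⟨rfl, rfl⟩
      exact h h₀
    rw [if_neg h1]
    by_cases h3 : i = F.piv a
    · rw [h3, gq_one, pd_one]
    · have h4 : i ∉ F.S a := fun h5 => h ⟨h5, h3⟩
      rw [gq_off F _ a i h4, map_zero]

/-- The derivative of the coefficients in the direction of a column entry. -/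
theorem dT_inr (k : Fin d × Fin n) : dT F n z (Sum.inr k) =
    adjugate (gQp F (fun i => z (Sum.inl i))) * dc F n z (Sum.inr k) := by
  have h1 : (gQp F (XX F n)).map (pd F n z (Sum.inr k)) = 0 := by
    ext b a
    have h2 := congrFun (congrFun (dq_inr F n z k) (F.piv b)) a
    exact h2
  have h2 := congrArg (fun M => Matrix.map M (pd F n z (Sum.inr k)))
    (gQp_mul_gT F (XX F n) (YY F n))
  simp only [pd_matrix_mul, h1, Matrix.zero_mul, zero_add, ev_gQp] at h2
  have h3 := congrArg (fun M => adjugate (gQp F (fun i => z (Sum.inl i))) * M) h2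
  simp only [← Matrix.mul_assoc, adj_mul_gQp, Matrix.one_mul] at h3
  exact h3

end der

section crit

open MvPolynomial

variable (F : Frame (Fin m) (d + 1)) (n : ℕ) (u : Matrix (Fin m) (Fin n) ℂ)
  (v : Matrix (Fin m) (Fin (d + 1)) ℂ) (z : F.Pos ⊕ (Fin d × Fin n) → ℂ)

/-- The normalised columns at a point. -/
noncomputable def pz : Matrix (Fin m) (Fin n) ℂ :=
  gp F (fun i => z (Sum.inl i)) (fun i => z (Sum.inr i))

/-- The matrix `u / p - s / σ`. -/
noncomputable def Wz : Matrix (Fin m) (Fin n) ℂ :=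
  Matrix.of fun i j => u i j / pz F n z i j - (∑ l, u l j) / ∑ l, pz F n z l j

/-- The pairing with `W`. -/
noncomputable def Lz (A : Matrix (Fin m) (Fin n) ℂ) : ℂ :=
  ∑ j, ∑ i, Wz F n u z i j * A i j

theorem Lz_add (A B : Matrix (Fin m) (Fin n) ℂ) :
    Lz F n u z (A + B) = Lz F n u z A + Lz F n u z B := by
  simp only [Lz, Matrix.add_apply, mul_add, Finset.sum_add_distrib]

theorem Lz_mul (B : Matrix (Fin (d + 1)) (Fin n) ℂ) (q : Matrix (Fin m) (Fin (d + 1)) ℂ) :
    Lz F n u z (q * B) = ∑ j, ∑ b, (qᵀ * Wz F n u z) b j * B b j := by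
  simp only [Lz, Matrix.mul_apply, Matrix.transpose_apply, Finset.mul_sum, Finset.sum_mul]
  refine Finset.sum_congr rfl fun j _ => ?_
  rw [Finset.sum_comm]
  refine Finset.sum_congr rfl fun b _ => Finset.sum_congr rfl fun i _ => ?_
  ring

theorem eval_fP_none (j : Fin n) : eval z (fP F n (none, j)) = ∑ i, pz F n z i j := by
  rw [fP, gf, Option.elim_none, map_sum]
  refine Finset.sum_congr rfl fun i _ => ?_
  have h := congrFun (congrFun (ev_gp F n z) i) j
  exact h

theorem eval_fP_some (i : {i // i ∈ F.free}) (j : Fin n) :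
    eval z (fP F n (some i, j)) = pz F n z i.1 j := by
  rw [fP, gf, Option.elim_some]
  exact congrFun (congrFun (ev_gp F n z) i.1) j

/-- The derivative of the matrix of the columns. -/
noncomputable def dp (o : F.Pos ⊕ (Fin d × Fin n)) : Matrix (Fin m) (Fin n) ℂ :=
  (gp F (XX F n) (YY F n)).map (pd F n z o)

theorem pd_fP_none (o : F.Pos ⊕ (Fin d × Fin n)) (j : Fin n) :
    eval z (pderiv o (fP F n (none, j))) = ∑ i, dp F n z o i j := by
  rw [← pd_apply, fP, gf, Option.elim_none, map_sum]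
  rfl

theorem pd_fP_some (o : F.Pos ⊕ (Fin d × Fin n)) (i : {i // i ∈ F.free}) (j : Fin n) :
    eval z (pderiv o (fP F n (some i, j))) = dp F n z o i.1 j := by
  rw [← pd_apply, fP, gf, Option.elim_some]
  rfl

/-- The sum over the polynomials. -/
theorem sum_crit (o : F.Pos ⊕ (Fin d × Fin n)) :
    ∑ c, ext F n u c * (z o * eval z (pderiv o (fP F n c)) / eval z (fP F n c)) =
      z o * (Lz F n u z (dp F n z o) -
        ∑ j, ∑ b, u (F.piv b) j * (dc F n z o b j / pz F n z (F.piv b) j)) := by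
  have h1 : ∀ j : Fin n, ∑ i, u i j * (dp F n z o i j / pz F n z i j) =
      ∑ i : {i // i ∈ F.free}, u i.1 j * (dp F n z o i.1 j / pz F n z i.1 j) +
        ∑ b, u (F.piv b) j * (dc F n z o b j / pz F n z (F.piv b) j) := by
    intro j
    rw [sum_split F (fun i => u i j * (dp F n z o i j / pz F n z i j))]
    congr 1
    refine Finset.sum_congr rfl fun b _ => ?_
    have h := dp_piv F n z o b j
    rw [dp, h]
  rw [Fintype.sum_prod_type_right, Lz, ← Finset.sum_sub_distrib, Finset.mul_sum]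
  refine Finset.sum_congr rfl fun j _ => ?_
  rw [Fintype.sum_option]
  simp only [eval_fP_none, eval_fP_some, pd_fP_none, pd_fP_some, ext, Option.elim_none,
    Option.elim_some]
  have h2 : ∑ i, Wz F n u z i j * dp F n z o i j =
      ∑ i, u i j * (dp F n z o i j / pz F n z i j) -
        (∑ l, u l j) * ((∑ i, dp F n z o i j) / ∑ l, pz F n z l j) := by
    rw [Finset.sum_div, Finset.mul_sum, ← Finset.sum_sub_distrib]
    refine Finset.sum_congr rfl fun i _ => ?_
    rw [Wz, Matrix.of_apply]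
    ring
  rw [h2, h1 j]
  have h3 : ∑ x : {i // i ∈ F.free}, u x.1 j * (z o * dp F n z o x.1 j / pz F n z x.1 j) =
      z o * ∑ i : {i // i ∈ F.free}, u i.1 j * (dp F n z o i.1 j / pz F n z i.1 j) := by
    rw [Finset.mul_sum]
    refine Finset.sum_congr rfl fun i _ => ?_
    ring
  rw [h3]
  ring

/-- The coefficients at a point. -/
noncomputable def Tz : Matrix (Fin (d + 1)) (Fin n) ℂ :=
  gT F (fun i => z (Sum.inl i)) (fun i => z (Sum.inr i))

/-- The frame vectors at a point. -/
noncomputable def qz : Matrix (Fin m) (Fin (d + 1)) ℂ := gq F (fun i => z (Sum.inl i))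

theorem dp_eq' (o : F.Pos ⊕ (Fin d × Fin n)) :
    dp F n z o = dq F n z o * Tz F n z + qz F n z * dT F n z o := dp_eq F n z o

theorem pz_piv_zero (j : Fin n) : pz F n z (F.piv 0) j = 1 := by
  rw [pz, gp_piv, gc_zero]

theorem pz_piv_succ (a : Fin d) (j : Fin n) : pz F n z (F.piv a.succ) j = z (Sum.inr (a, j)) := by
  rw [pz, gp_piv, gc_succ]

/-- The critical equation of a frame entry. -/
theorem crit_inl (k : F.Pos) :
    exv F n u v (Sum.inl k) + ∑ c, ext F n u c *
      (z (Sum.inl k) * eval z (pderiv (Sum.inl k) (fP F n c)) / eval z (fP F n c)) =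
      v k.1.1 k.1.2 + z (Sum.inl k) * (Lz F n u z (qz F n z * dT F n z (Sum.inl k)) +
        (Wz F n u z * (Tz F n z)ᵀ) k.1.1 k.1.2) := by
  obtain ⟨⟨i₀, a₀⟩, h₀⟩ := k
  rw [sum_crit, dc_inl, dp_eq', dq_inl, Lz_add]
  simp only [Matrix.zero_apply, zero_div, mul_zero, Finset.sum_const_zero, sub_zero]
  have h1 : Lz F n u z ((Matrix.single i₀ a₀ (1 : ℂ) : Matrix (Fin m) (Fin (d + 1)) ℂ) *
      Tz F n z) = (Wz F n u z * (Tz F n z)ᵀ) i₀ a₀ := by
    rw [Lz, Matrix.mul_apply]
    refine Finset.sum_congr rfl fun j _ => ?_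
    rw [Finset.sum_eq_single i₀]
    · rw [Matrix.single_mul_apply_same, one_mul, Matrix.transpose_apply]
    · intro i _ hi
      rw [Matrix.single_mul_apply_of_ne _ _ _ _ _ hi, mul_zero]
    · intro h
      exact absurd (Finset.mem_univ _) h
  rw [h1]
  simp only [exv, Sum.elim_inl]
  ring

/-- The critical equation of a column entry. -/
theorem crit_inr (a : Fin d) (j : Fin n) (hz : z (Sum.inr (a, j)) ≠ 0) :
    exv F n u v (Sum.inr (a, j)) + ∑ c, ext F n u c *
      (z (Sum.inr (a, j)) * eval z (pderiv (Sum.inr (a, j)) (fP F n c)) / eval z (fP F n c)) =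
      z (Sum.inr (a, j)) * ((adjugate (gQp F (fun i => z (Sum.inl i))))ᵀ *
        ((qz F n z)ᵀ * Wz F n u z)) a.succ j := by
  rw [sum_crit, dc_inr, dp_eq', dq_inr, Matrix.zero_mul, zero_add, dT_inr, dc_inr]
  have h1 : ∑ j', ∑ b, u (F.piv b) j' *
      ((Matrix.single a.succ j (1 : ℂ) : Matrix (Fin (d + 1)) (Fin n) ℂ) b j' /
        pz F n z (F.piv b) j') = u (F.piv a.succ) j / z (Sum.inr (a, j)) := by
    rw [Finset.sum_eq_single j, Finset.sum_eq_single a.succ]
    · rw [Matrix.single_apply_same, pz_piv_succ, mul_one_div]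
    · intro b _ hb
      rw [Matrix.single_apply_of_ne, zero_div, mul_zero]
      rintro ⟨h, _⟩
      exact hb h.symm
    · intro h
      exact absurd (Finset.mem_univ _) h
    · intro j' _ hj
      refine Finset.sum_eq_zero fun b _ => ?_
      rw [Matrix.single_apply_of_ne, zero_div, mul_zero]
      rintro ⟨_, h⟩
      exact hj h.symm
    · intro h
      exact absurd (Finset.mem_univ _) h
  rw [h1, ← Matrix.mul_assoc, Lz_mul]
  have h2 : ∑ j', ∑ b, ((qz F n z * adjugate (gQp F fun i => z (Sum.inl i)))ᵀ *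
      Wz F n u z) b j' * (Matrix.single a.succ j (1 : ℂ) : Matrix (Fin (d + 1)) (Fin n) ℂ) b j' =
      ((adjugate (gQp F (fun i => z (Sum.inl i))))ᵀ *
        ((qz F n z)ᵀ * Wz F n u z)) a.succ j := by
    rw [Finset.sum_eq_single j, Finset.sum_eq_single a.succ]
    · rw [Matrix.single_apply_same, mul_one, Matrix.transpose_mul, Matrix.mul_assoc]
    · intro b _ hb
      rw [Matrix.single_apply_of_ne, mul_zero]
      rintro ⟨h, _⟩
      exact hb h.symm
    · intro h
      exact absurd (Finset.mem_univ _) h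
    · intro j' _ hj
      refine Finset.sum_eq_zero fun b _ => ?_
      rw [Matrix.single_apply_of_ne, mul_zero]
      rintro ⟨_, h⟩
      exact hj h.symm
    · intro h
      exact absurd (Finset.mem_univ _) h
  rw [h2, exv, Sum.elim_inr, mul_sub, mul_div_cancel₀ _ hz]
  ring

/-- The critical equations. -/
theorem mem_crit_fP (hz : ∀ o, z o ≠ 0) (hp : ∀ i j, pz F n z i j ≠ 0)
    (hσ : ∀ j, ∑ i, pz F n z i j ≠ 0) :
    (∀ o, exv F n u v o + ∑ c, ext F n u c *
      (z o * eval z (pderiv o (fP F n c)) / eval z (fP F n c)) = 0) ↔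
    (qz F n z)ᵀ * Wz F n u z = 0 ∧ ∀ k : F.Pos,
      v k.1.1 k.1.2 + z (Sum.inl k) * (Wz F n u z * (Tz F n z)ᵀ) k.1.1 k.1.2 = 0 := by
  constructor
  · intro h
    set V := (adjugate (gQp F (fun i => z (Sum.inl i))))ᵀ * ((qz F n z)ᵀ * Wz F n u z) with hV
    have h1 : ∀ a j, V (Fin.succ a) j = 0 := by
      intro a j
      have h2 := h (Sum.inr (a, j))
      rw [crit_inr F n u v z a j (hz _)] at h2
      exact (mul_eq_zero.mp h2).resolve_left (hz _)
    have h3 : ∀ j, V 0 j = 0 := by
      intro j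
      have h4 : ∑ i, Wz F n u z i j * pz F n z i j = 0 := by
        have h5 : ∀ i, Wz F n u z i j * pz F n z i j =
            u i j - (∑ l, u l j) * (pz F n z i j / ∑ l, pz F n z l j) := by
          intro i
          rw [Wz, Matrix.of_apply, sub_mul, div_mul_cancel₀ _ (hp i j)]
          ring
        simp only [h5, Finset.sum_sub_distrib, ← Finset.mul_sum, ← Finset.sum_div]
        rw [div_self (hσ j), mul_one, sub_self]
      have h6 : ∑ b, V b j * gc d n (fun i => z (Sum.inr i)) b j =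
          ∑ i, Wz F n u z i j * pz F n z i j := by
        have h7 : ∀ b, V b j = ∑ i, Wz F n u z i j *
            (qz F n z * adjugate (gQp F (fun i => z (Sum.inl i)))) i b := by
          intro b
          rw [hV, ← Matrix.mul_assoc, ← Matrix.transpose_mul, Matrix.mul_apply]
          refine Finset.sum_congr rfl fun i _ => ?_
          rw [Matrix.transpose_apply, mul_comm]
        have h8 : ∀ i, pz F n z i j = ∑ b,
            (qz F n z * adjugate (gQp F (fun i => z (Sum.inl i)))) i b *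
              gc d n (fun i => z (Sum.inr i)) b j := by
          intro i
          rw [← Matrix.mul_apply, Matrix.mul_assoc]
          rfl
        simp only [h7, h8, Finset.sum_mul, Finset.mul_sum]
        rw [Finset.sum_comm]
        refine Finset.sum_congr rfl fun i _ => Finset.sum_congr rfl fun b _ => ?_
        ring
      rw [h4, Fin.sum_univ_succ, gc_zero, mul_one] at h6
      simpa [h1] using h6
    have hV0 : V = 0 := by
      ext b j
      refine Fin.cases ?_ (fun a => ?_) b
      · exact h3 j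
      · exact h1 a j
    have h9 : (qz F n z)ᵀ * Wz F n u z = 0 := by
      have h10 : (gQp F (fun i => z (Sum.inl i)))ᵀ * V = 0 := by rw [hV0, Matrix.mul_zero]
      rw [hV, ← Matrix.mul_assoc, ← Matrix.transpose_mul, adj_mul_gQp, Matrix.transpose_one,
        Matrix.one_mul] at h10
      exact h10
    refine ⟨h9, fun k => ?_⟩
    have h11 := h (Sum.inl k)
    rw [crit_inl, Lz_mul, h9] at h11
    simpa using h11
  · rintro ⟨h1, h2⟩ o
    rcases o with k | ⟨a, j⟩
    · rw [crit_inl, Lz_mul, h1]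
      simpa using h2 k
    · rw [crit_inr F n u v z a j (hz _), h1, Matrix.mul_zero, Matrix.zero_apply, mul_zero]

end crit

end Pool.Tw
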