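import Pool.Agent.Tw.FullDefs
import Pool.Agent.EU.Tower

/-!
# Full frames: generic exponents and the coefficients of the polynomials
-/

set_option autoImplicit false
set_option linter.unusedSectionVars false

namespace Pool.Tw

open Matrix Pool.ML Pool.EU

variable {m d : ℕ}

theorem algInd_acl_empty {α : Type} {y : α → ℂ} (hy : AlgebraicIndependent ℚ y) :
    AlgebraicIndependent (acl (∅ : Set ℂ)) y := by
  have h : Algebra.IsAlgebraic ℚ (acl (∅ : Set ℂ)) := by
    constructor
    intro z
    have h1 : IsAlgebraic ℚ (z : ℂ) := by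
      refine isAlgebraic_of_le (Algebra.adjoin ℚ (∅ : Set ℂ)) ℚ ?_ (z : ℂ) (mem_acl'.mp z.2)
      intro a ha
      rw [Algebra.adjoin_empty, Algebra.mem_bot] at ha
      exact ha
    exact (isAlgebraic_algebraMap_iff (algebraMap (acl (∅ : Set ℂ)) ℂ).injective).mp h1
  exact hy.extendScalars (acl (∅ : Set ℂ))

theorem piv_injective (F : Frame (Fin m) (d + 1)) : Function.Injective F.piv := by
  intro a b hab
  rcases lt_trichotomy a b with h | h | h
  · exact absurd (hab ▸ F.mem b) (F.tri a b h)
  · exact h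
  · exact absurd (hab ▸ F.mem a) (F.tri b a h)

theorem card_free (F : Frame (Fin m) (d + 1)) :
    d + 1 + Fintype.card {i // i ∈ F.free} ≤ m := by
  have h1 : Function.Injective (Sum.elim F.piv (fun i : {i // i ∈ F.free} => i.1)) := by
    refine Function.Injective.sumElim (piv_injective F) Subtype.val_injective fun a i => ?_
    exact (Finset.mem_filter.mp i.2).2 a
  have h2 := Fintype.card_le_of_injective _ h1
  rw [Fintype.card_sum, Fintype.card_fin, Fintype.card_fin] at h2
  exact h2

/-- C1a1 -/
theorem algInd_ex (F : Frame (Fin m) (d + 1)) (n : ℕ) (u : Matrix (Fin m) (Fin n) ℂ)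
    (v : Matrix (Fin m) (Fin (d + 1)) ℂ) (hg : FGen F u v) :
    AlgebraicIndependent (acl (∅ : Set ℂ)) (Sum.elim (exv F n u v) (ext F n u)) := by
  refine algInd_acl_empty (algInd_of_acl (gdat F u v) _ hg ?_ ?_).1
  · set x := Sum.elim (exv F n u v) (ext F n u) with hx
    have hx1 : ∀ k, x k ∈ acl (Set.range x) := fun k => subset_acl _ (Set.mem_range_self k)
    have h1 : ∀ i j, i ≠ F.piv 0 → u i j ∈ acl (Set.range x) := by
      intro i j hi
      by_cases h : ∃ a, F.piv a = i
      · obtain ⟨a, rfl⟩ := h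
        obtain ⟨a, rfl⟩ : ∃ a' : Fin d, a = a'.succ := by
          have ha : a ≠ 0 := fun h => hi (by rw [h])
          exact ⟨a.pred ha, (Fin.succ_pred a ha).symm⟩
        exact hx1 (Sum.inl (Sum.inr (a, j)))
      · push Not at h
        exact hx1 (Sum.inr (some ⟨i, Finset.mem_filter.mpr ⟨Finset.mem_univ _, h⟩⟩, j))
    rintro (⟨i, j⟩ | y)
    · by_cases hi : i = F.piv 0
      · have h2 : u i j = - x (Sum.inr (none, j)) - ∑ k ∈ Finset.univ.erase i, u k j := by
          have h3 : x (Sum.inr (none, j)) = - ∑ k, u k j := rfl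
          rw [h3, neg_neg, ← Finset.add_sum_erase _ _ (Finset.mem_univ i)]
          ring
        change u i j ∈ _
        rw [h2]
        refine sub_mem (neg_mem (hx1 _)) (sum_mem fun k hk => h1 k j ?_)
        rw [← hi]
        exact Finset.ne_of_mem_erase hk
      · exact h1 i j hi
    · exact hx1 (Sum.inl (Sum.inl y))
  · have h2 := card_free F
    rw [Fintype.card_sum, Fintype.card_sum, Fintype.card_prod, Fintype.card_prod,
      Fintype.card_sum, Fintype.card_prod, Fintype.card_option, Fintype.card_fin,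
      Fintype.card_fin, Fintype.card_fin]
    have h3 : (d + (Fintype.card {i // i ∈ F.free} + 1)) * n ≤ m * n :=
      Nat.mul_le_mul_right n (by omega)
    rw [add_mul] at h3
    omega

theorem gq_map' {R R' : Type} [CommRing R] [CommRing R'] (f : R →+* R')
    (F : Frame (Fin m) (d + 1)) (x : F.Pos → R) :
    gq F (fun i => f (x i)) = (gq F x).map f := by
  ext1 i a
  simp only [gq, Matrix.of_apply, Matrix.map_apply]
  split_ifs <;> simp

theorem gc_map' {R R' : Type} [CommRing R] [CommRing R'] (f : R →+* R') {n : ℕ}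
    (y : Fin d × Fin n → R) :
    gc d n (fun i => f (y i)) = (gc d n y).map f := by
  ext1 a j
  simp only [gc, Matrix.of_apply, Matrix.map_apply]
  refine Fin.cases ?_ (fun a' => ?_) a
  · simp
  · simp

theorem gp_map' {R R' : Type} [CommRing R] [CommRing R'] (f : R →+* R')
    (F : Frame (Fin m) (d + 1)) {n : ℕ} (x : F.Pos → R) (y : Fin d × Fin n → R) :
    gp F (fun i => f (x i)) (fun i => f (y i)) = (gp F x y).map f := by
  have h1 : gQp F (fun i => f (x i)) = (gQp F x).map f := by
    ext1 b a
    simp only [gQp, Matrix.of_apply, Matrix.map_apply, gq_map']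
  have h2 : adjugate ((gQp F x).map f) = (adjugate (gQp F x)).map f := by
    have := RingHom.map_adjugate f (gQp F x)
    exact this.symm
  rw [gp, gp, gT, gT, h1, h2, gq_map', gc_map', Matrix.map_mul, Matrix.map_mul]

theorem gf_map' {R R' : Type} [CommRing R] [CommRing R'] (f : R →+* R')
    (F : Frame (Fin m) (d + 1)) {n : ℕ} (x : F.Pos → R) (y : Fin d × Fin n → R) (c : Kp F n) :
    gf F (fun i => f (x i)) (fun i => f (y i)) c = f (gf F x y c) := by
  obtain ⟨o, j⟩ := c
  cases o with
  | none => simp [gf, gp_map', Matrix.map_apply]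
  | some i => simp [gf, gp_map', Matrix.map_apply]

/-- C1a2 -/
theorem coefs_fP (F : Frame (Fin m) (d + 1)) (n : ℕ) : coefs (fP F n) ⊆ acl (∅ : Set ℂ) := by
  rintro _ ⟨c, e, rfl⟩
  have h1 : fP F n c = MvPolynomial.map (algebraMap ℚ ℂ)
      (gf F (fun i => (MvPolynomial.X (Sum.inl i) : MvPolynomial (F.Pos ⊕ (Fin d × Fin n)) ℚ))
        (fun i => MvPolynomial.X (Sum.inr i)) c) := by
    rw [← gf_map']
    simp only [MvPolynomial.map_X]
    rfl
  rw [h1, MvPolynomial.coeff_map]
  exact (acl (∅ : Set ℂ)).algebraMap_mem _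

end Pool.Tw
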