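import Pool.Agent.Tw.Defs
import Pool.Agent.EC.Arr2

/-!
# Full frames: the polynomials

The columns of `P` lie in the span of the frame vectors; a column is normalised to have the entry
`1` at the pivot of the first frame vector, and its coordinates are the entries at the other
pivots.  The polynomials are the entries off the pivots and the column sums.
-/

set_option autoImplicit false
set_option linter.unusedSectionVars false

namespace Pool.Tw

open Matrix Pool.ML Pool.EU

variable {m d : ℕ}

/-- The frame vectors with the free entries `x`. -/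
def gq {R : Type} [CommRing R] (F : Frame (Fin m) (d + 1)) (x : F.Pos → R) :
    Matrix (Fin m) (Fin (d + 1)) R :=
  Matrix.of fun i a => if h : i ∈ F.S a ∧ i ≠ F.piv a then x ⟨(i, a), h⟩
    else if i = F.piv a then 1 else 0

/-- The entries of the frame vectors at the pivots: a unitriangular matrix. -/
def gQp {R : Type} [CommRing R] (F : Frame (Fin m) (d + 1)) (x : F.Pos → R) :
    Matrix (Fin (d + 1)) (Fin (d + 1)) R :=
  Matrix.of fun b a => gq F x (F.piv b) a

/-- The entries of the columns at the pivots. -/
def gc {R : Type} [CommRing R] (d n : ℕ) (y : Fin d × Fin n → R) :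
    Matrix (Fin (d + 1)) (Fin n) R :=
  Matrix.of fun a j => Fin.cases (motive := fun _ => R) 1 (fun a' => y (a', j)) a

/-- The coefficients of the columns in the frame. -/
def gT {R : Type} [CommRing R] (F : Frame (Fin m) (d + 1)) {n : ℕ} (x : F.Pos → R)
    (y : Fin d × Fin n → R) : Matrix (Fin (d + 1)) (Fin n) R :=
  adjugate (gQp F x) * gc d n y

/-- The normalised columns. -/
def gp {R : Type} [CommRing R] (F : Frame (Fin m) (d + 1)) {n : ℕ} (x : F.Pos → R)
    (y : Fin d × Fin n → R) : Matrix (Fin m) (Fin n) R :=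
  gq F x * gT F x y

/-- The index set of the polynomials. -/
abbrev Kp (F : Frame (Fin m) (d + 1)) (n : ℕ) : Type := Option {i // i ∈ F.free} × Fin n

/-- The entries off the pivots, and the column sums. -/
def gf {R : Type} [CommRing R] (F : Frame (Fin m) (d + 1)) {n : ℕ} (x : F.Pos → R)
    (y : Fin d × Fin n → R) (c : Kp F n) : R :=
  c.1.elim (∑ i, gp F x y i c.2) (fun i => gp F x y i.1 c.2)

open MvPolynomial in
/-- The polynomials. -/
noncomputable def fP (F : Frame (Fin m) (d + 1)) (n : ℕ) :
    Kp F n → MvPolynomial (F.Pos ⊕ (Fin d × Fin n)) ℂ :=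
  gf F (fun i => X (Sum.inl i)) (fun i => X (Sum.inr i))

open MvPolynomial in
/-- The polynomials of the fibre over the frame with free entries `x`. -/
noncomputable def fX (F : Frame (Fin m) (d + 1)) (n : ℕ) (x : F.Pos → ℂ) :
    Kp F n → MvPolynomial (Fin d × Fin n) ℂ :=
  gf F (fun i => C (x i)) X

/-- The exponents of the coordinates. -/
def exv (F : Frame (Fin m) (d + 1)) (n : ℕ) (u : Matrix (Fin m) (Fin n) ℂ)
    (v : Matrix (Fin m) (Fin (d + 1)) ℂ) : F.Pos ⊕ (Fin d × Fin n) → ℂ :=
  Sum.elim (fun x => v x.1.1 x.1.2) (fun x => u (F.piv x.1.succ) x.2)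

/-- The exponents of the polynomials. -/
def ext (F : Frame (Fin m) (d + 1)) (n : ℕ) (u : Matrix (Fin m) (Fin n) ℂ) : Kp F n → ℂ :=
  fun c => c.1.elim (-∑ i, u i c.2) (fun i => u i.1 c.2)

end Pool.Tw
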