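import Pool.Agent.EC.Fun
import Pool.Agent.ML14.AlgInd
import Pool.Agent.ML14.Defs

/-!
# The ML degree exists

The set of the data with exactly `N` critical points is constructible. A constructible set which
contains all points with algebraically independent coordinates contains a non-empty open set.
-/

set_option autoImplicit false

namespace Pool.Tw

open MvPolynomial EC Pool.ML

/-- Polynomial functions. -/
def PF {ι : Type} (f : (ι → ℂ) → ℂ) : Prop := ∃ P : MvPolynomial ι ℂ, ∀ x, f x = eval x P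

section PF

variable {ι : Type} {f g : (ι → ℂ) → ℂ}

lemma PF.coord (i : ι) : PF fun x : ι → ℂ => x i := ⟨X i, fun x => by simp⟩

lemma PF.const (c : ℂ) : PF fun _ : ι → ℂ => c := ⟨C c, fun x => by simp⟩

lemma PF.add (hf : PF f) (hg : PF g) : PF fun x => f x + g x := by
  obtain ⟨P, hP⟩ := hf
  obtain ⟨Q, hQ⟩ := hg
  exact ⟨P + Q, fun x => by simp only [map_add, hP, hQ]⟩

lemma PF.mul (hf : PF f) (hg : PF g) : PF fun x => f x * g x := by
  obtain ⟨P, hP⟩ := hf
  obtain ⟨Q, hQ⟩ := hg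
  exact ⟨P * Q, fun x => by simp only [map_mul, hP, hQ]⟩

lemma PF.sum {α : Type} (s : Finset α) {f : α → (ι → ℂ) → ℂ} (h : ∀ a ∈ s, PF (f a)) :
    PF fun x => ∑ a ∈ s, f a x := by
  classical
  induction s using Finset.induction_on with
  | empty => simpa using PF.const 0
  | insert a s ha ih =>
    have h1 := (h a (Finset.mem_insert_self a s)).add
      (ih fun b hb => h b (Finset.mem_insert_of_mem hb))
    convert h1 using 2 with x
    rw [Finset.sum_insert ha]

lemma PF.cons_eq (hf : PF f) (hg : PF g) : Cons {x | f x = g x} := by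
  obtain ⟨P, hP⟩ := hf
  obtain ⟨Q, hQ⟩ := hg
  have h := Cons.zero (P - Q)
  convert h using 1
  ext x
  simp only [Set.mem_ofPred_eq, map_sub, sub_eq_zero, hP, hQ]

end PF

/-! ### The rank -/

/-- A matrix of rank at most `k` is a product. -/
lemma rank_le_iff {m n : ℕ} (p : Matrix (Fin m) (Fin n) ℂ) (k : ℕ) :
    p.rank ≤ k ↔ ∃ (A : Matrix (Fin m) (Fin k) ℂ) (B : Matrix (Fin k) (Fin n) ℂ), p = A * B := by
  constructor
  · intro h
    have h1 : Module.finrank ℂ (LinearMap.range p.mulVecLin) ≤ Module.finrank ℂ (Fin k → ℂ) := by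
      rw [Module.finrank_fin_fun]; exact h
    obtain ⟨i, hi⟩ := finrank_le_iff_exists_linearMap.1 h1
    obtain ⟨s, hs⟩ := i.exists_leftInverse_of_injective (LinearMap.ker_eq_bot.2 hi)
    refine ⟨LinearMap.toMatrix' ((LinearMap.range p.mulVecLin).subtype ∘ₗ s),
      LinearMap.toMatrix' (i ∘ₗ p.mulVecLin.rangeRestrict), ?_⟩
    rw [← LinearMap.toMatrix'_comp, LinearMap.comp_assoc, ← LinearMap.comp_assoc _ i s, hs,
      LinearMap.id_comp, LinearMap.subtype_comp_codRestrict, ← Matrix.toLin'_apply',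
      LinearMap.toMatrix'_toLin']
  · rintro ⟨A, B, rfl⟩
    exact (Matrix.rank_mul_le_left A B).trans (A.rank_le_width)

variable {m n : ℕ}

/-- The matrix with the coordinates `x`. -/
def mt (x : Fin m × Fin n → ℂ) : Matrix (Fin m) (Fin n) ℂ := fun i j => x (i, j)

lemma cons_rank_le (k : ℕ) : Cons {x : Fin m × Fin n → ℂ | (mt x).rank ≤ k} := by
  have h1 : Cons {w : (Fin m × Fin n) ⊕ ((Fin m × Fin k) ⊕ (Fin k × Fin n)) → ℂ |
      ∀ x : Fin m × Fin n, w (Sum.inl x) =
        ∑ a, w (Sum.inr (Sum.inl (x.1, a))) * w (Sum.inr (Sum.inr (a, x.2)))} := by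
    rw [Set.ofPred_forall]
    exact Cons.iInter fun x => (PF.coord _).cons_eq
      (PF.sum _ fun a _ => (PF.coord _).mul (PF.coord _))
  have h2 := h1.proj
  convert h2 using 1
  ext x
  simp only [Set.mem_ofPred_eq, rank_le_iff, Sum.elim_inl, Sum.elim_inr]
  constructor
  · rintro ⟨A, B, h⟩
    refine ⟨Sum.elim (fun c => A c.1 c.2) (fun c => B c.1 c.2), fun c => ?_⟩
    have := congrFun (congrFun h c.1) c.2
    rw [Matrix.mul_apply] at this
    exact this
  · rintro ⟨z, hz⟩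
    refine ⟨fun i a => z (Sum.inl (i, a)), fun a j => z (Sum.inr (a, j)), ?_⟩
    ext i j
    rw [Matrix.mul_apply]
    exact hz (i, j)

lemma cons_rank_eq (r : ℕ) : Cons {x : Fin m × Fin n → ℂ | (mt x).rank = r} := by
  rcases r with _ | r
  · have h := cons_rank_le (m := m) (n := n) 0
    convert h using 1
    ext x
    simp only [Set.mem_ofPred_eq]
    omega
  · have h := (cons_rank_le (m := m) (n := n) (r + 1)).diff (cons_rank_le r)
    convert h using 1
    ext x
    simp only [Set.mem_ofPred_eq, Set.mem_sdiff]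
    omega

/-! ### The critical points -/

/-- The data and the critical points. -/
def critSet (m n r : ℕ) : Set ((Fin m × Fin n) ⊕ (Fin m × Fin n) → ℂ) :=
  {w | IsCritical r (mt (w ∘ Sum.inl)) (mt (w ∘ Sum.inr))}

/-- The violated linear conditions. -/
def badSet (m n : ℕ) : Set (((Fin m × Fin n) ⊕ (Fin m × Fin n)) ⊕
    ((Fin m × Fin n) ⊕ ((Fin m × Fin m) ⊕ (Fin n × Fin n))) → ℂ) :=
  {w | (∀ x, w (Sum.inr (Sum.inl x)) * w (Sum.inl (Sum.inr x)) = 1) ∧
    ¬ (∑ i, ∑ j, w (Sum.inl (Sum.inl (i, j))) *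
        ((∑ a, w (Sum.inr (Sum.inr (Sum.inl (i, a)))) * w (Sum.inl (Sum.inr (a, j)))) +
          ∑ b, w (Sum.inl (Sum.inr (i, b))) * w (Sum.inr (Sum.inr (Sum.inr (b, j))))) *
        w (Sum.inr (Sum.inl (i, j))) =
      (∑ i, ∑ j, w (Sum.inl (Sum.inl (i, j)))) * ∑ i, ∑ j,
        ((∑ a, w (Sum.inr (Sum.inr (Sum.inl (i, a)))) * w (Sum.inl (Sum.inr (a, j)))) +
          ∑ b, w (Sum.inl (Sum.inr (i, b))) * w (Sum.inr (Sum.inr (Sum.inr (b, j))))))}

lemma cons_bad : Cons (badSet m n) := by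
  have hq : ∀ (i : Fin m) (j : Fin n), PF fun w : ((Fin m × Fin n) ⊕ (Fin m × Fin n)) ⊕
      ((Fin m × Fin n) ⊕ ((Fin m × Fin m) ⊕ (Fin n × Fin n))) → ℂ =>
      ((∑ a, w (Sum.inr (Sum.inr (Sum.inl (i, a)))) * w (Sum.inl (Sum.inr (a, j)))) +
          ∑ b, w (Sum.inl (Sum.inr (i, b))) * w (Sum.inr (Sum.inr (Sum.inr (b, j))))) :=
    fun i j => (PF.sum _ fun a _ => (PF.coord _).mul (PF.coord _)).add
      (PF.sum _ fun b _ => (PF.coord _).mul (PF.coord _))
  have h1 : Cons {w : ((Fin m × Fin n) ⊕ (Fin m × Fin n)) ⊕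
      ((Fin m × Fin n) ⊕ ((Fin m × Fin m) ⊕ (Fin n × Fin n))) → ℂ |
        ∀ x, w (Sum.inr (Sum.inl x)) * w (Sum.inl (Sum.inr x)) = 1} := by
    rw [Set.ofPred_forall]
    exact Cons.iInter fun x => ((PF.coord _).mul (PF.coord _)).cons_eq (PF.const 1)
  have h2 := PF.cons_eq
    (PF.sum Finset.univ fun (i : Fin m) _ => PF.sum Finset.univ fun (j : Fin n) _ =>
      ((PF.coord (Sum.inl (Sum.inl (i, j)))).mul (hq i j)).mul
        (PF.coord (Sum.inr (Sum.inl (i, j)))))
    ((PF.sum Finset.univ fun (i : Fin m) _ => PF.sum Finset.univ fun (j : Fin n) _ =>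
      PF.coord (Sum.inl (Sum.inl (i, j)))).mul
        (PF.sum Finset.univ fun (i : Fin m) _ => PF.sum Finset.univ fun (j : Fin n) _ => hq i j))
  exact h1.inter h2.compl

lemma cons_crit (r : ℕ) : Cons (critSet m n r) := by
  have h1 : Cons {w : (Fin m × Fin n) ⊕ (Fin m × Fin n) → ℂ | (mt (w ∘ Sum.inr)).rank = r} :=
    (cons_rank_eq r).reindex Sum.inr
  have h2 : Cons {w : (Fin m × Fin n) ⊕ (Fin m × Fin n) → ℂ | ∀ x, w (Sum.inr x) ≠ 0} := by
    rw [Set.ofPred_forall]
    exact Cons.iInter fun x => ((PF.coord _).cons_eq (PF.const 0)).compl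
  have h3 : Cons {w : (Fin m × Fin n) ⊕ (Fin m × Fin n) → ℂ |
      ∑ i, ∑ j, w (Sum.inr (i, j)) = 1} :=
    (PF.sum _ fun i _ => PF.sum _ fun j _ => PF.coord _).cons_eq (PF.const 1)
  have h4 := (cons_bad (m := m) (n := n)).proj.compl
  have h := h1.inter (h2.inter (h3.inter h4))
  convert h using 1
  ext w
  simp only [critSet, IsCritical, Set.mem_inter_iff, Set.mem_ofPred_eq, Set.mem_compl_iff]
  refine and_congr Iff.rfl ?_
  constructor
  · rintro ⟨a1, a2, a3⟩
    refine ⟨fun x => a1 x.1 x.2, a2, ?_⟩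
    rintro ⟨z, hz1, hz2⟩
    apply hz2
    simp only [Sum.elim_inl, Sum.elim_inr] at hz1 ⊢
    have b := a3 (fun i a => z (Sum.inr (Sum.inl (i, a)))) (fun b j => z (Sum.inr (Sum.inr (b, j))))
    simp only [Matrix.add_apply, Matrix.mul_apply, mt, Function.comp_apply] at b
    rw [← b]
    refine Finset.sum_congr rfl fun i _ => Finset.sum_congr rfl fun j _ => ?_
    have hw : w (Sum.inr (i, j)) ≠ 0 := a1 i j
    rw [eq_div_iff hw, mul_assoc, hz1 (i, j), mul_one]
  · rintro ⟨a1, a2, a3⟩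
    refine ⟨fun i j => a1 (i, j), a2, fun Z Y => ?_⟩
    by_contra hcon
    apply a3
    refine ⟨Sum.elim (fun x => (w (Sum.inr x))⁻¹) (Sum.elim (fun c => Z c.1 c.2)
      (fun c => Y c.1 c.2)), ?_, ?_⟩
    · intro x
      simp only [Sum.elim_inl, Sum.elim_inr]
      exact inv_mul_cancel₀ (a1 x)
    · simp only [Sum.elim_inl, Sum.elim_inr]
      intro hb
      apply hcon
      simp only [Matrix.add_apply, Matrix.mul_apply, mt, Function.comp_apply]
      rw [← hb]
      exact Finset.sum_congr rfl fun i _ => Finset.sum_congr rfl fun j _ => div_eq_mul_inv _ _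

/-- At least `k` critical points. -/
def atLeast (m n r k : ℕ) : Set (Fin m × Fin n → ℂ) :=
  {y | ∃ z : Fin k × (Fin m × Fin n) → ℂ,
    (∀ a, Sum.elim y (fun x => z (a, x)) ∈ critSet m n r) ∧
    ∀ a b, a ≠ b → ∃ x, z (a, x) ≠ z (b, x)}

lemma cons_atLeast (r k : ℕ) : Cons (atLeast m n r k) := by
  have h1 : Cons {w : (Fin m × Fin n) ⊕ (Fin k × (Fin m × Fin n)) → ℂ |
      ∀ a : Fin k, w ∘ Sum.map id (fun x => (a, x)) ∈ critSet m n r} := by
    rw [Set.ofPred_forall]
    exact Cons.iInter fun a => (cons_crit r).reindex _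
  have h2 : Cons {w : (Fin m × Fin n) ⊕ (Fin k × (Fin m × Fin n)) → ℂ |
      ∀ a b : Fin k, a ≠ b → ∃ x, w (Sum.inr (a, x)) ≠ w (Sum.inr (b, x))} := by
    rw [Set.ofPred_forall]
    refine Cons.iInter fun a => ?_
    rw [Set.ofPred_forall]
    refine Cons.iInter fun b => ?_
    by_cases hab : a = b
    · have : {w : (Fin m × Fin n) ⊕ (Fin k × (Fin m × Fin n)) → ℂ |
        a ≠ b → ∃ x, w (Sum.inr (a, x)) ≠ w (Sum.inr (b, x))} = Set.univ := by
        ext w; simp [hab]
      rw [this]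
      exact Cons.univ
    · have : {w : (Fin m × Fin n) ⊕ (Fin k × (Fin m × Fin n)) → ℂ |
        a ≠ b → ∃ x, w (Sum.inr (a, x)) ≠ w (Sum.inr (b, x))} =
          ⋃ x : Fin m × Fin n, {w : (Fin m × Fin n) ⊕ (Fin k × (Fin m × Fin n)) → ℂ |
            w (Sum.inr (a, x)) = w (Sum.inr (b, x))}ᶜ := by
        ext w; simp [hab]
      rw [this]
      exact Cons.iUnion fun x => (Cons.eq_coord _ _).compl
  have h := (h1.inter h2).proj
  convert h using 1
  ext y
  refine exists_congr fun z => and_congr ?_ Iff.rfl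
  refine forall_congr' fun a => ?_
  have : (Sum.elim y z ∘ Sum.map id (fun x => (a, x)) : (Fin m × Fin n) ⊕ (Fin m × Fin n) → ℂ) =
      Sum.elim y (fun x => z (a, x)) := by
    ext c
    rcases c with c | c <;> rfl
  rw [this]

lemma mem_atLeast {r k : ℕ} {u : Matrix (Fin m) (Fin n) ℂ} :
    (fun x : Fin m × Fin n => u x.1 x.2) ∈ atLeast m n r k ↔
      (k : ℕ∞) ≤ {p | IsCritical r u p}.encard := by
  constructor
  · rintro ⟨z, hz1, hz2⟩
    have hinj : Function.Injective fun (a : Fin k) => mt fun x => z (a, x) := by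
      intro a b hab
      by_contra hne
      obtain ⟨x, hx⟩ := hz2 a b hne
      exact hx (congrFun (congrFun hab x.1) x.2)
    have hsub : Set.range (fun (a : Fin k) => mt fun x => z (a, x)) ⊆ {p | IsCritical r u p} := by
      rintro _ ⟨a, rfl⟩
      exact hz1 a
    have h1 := Set.encard_le_encard hsub
    rw [← Set.image_univ, hinj.encard_image, Set.encard_univ] at h1
    simpa using h1
  · intro h
    obtain ⟨t, ht, htk⟩ := Set.exists_subset_encard_eq h
    have hfin : t.Finite := Set.finite_of_encard_eq_coe htk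
    have hcard : hfin.toFinset.card = k := by
      have := hfin.encard_eq_coe_toFinset_card
      rw [htk] at this
      exact_mod_cast this.symm
    let e := hfin.toFinset.equivFinOfCardEq hcard
    refine ⟨fun c => (e.symm c.1 : Matrix (Fin m) (Fin n) ℂ) c.2.1 c.2.2, ?_, ?_⟩
    · intro a
      exact ht (hfin.mem_toFinset.1 (e.symm a).2)
    · intro a b hab
      by_contra hcon
      push Not at hcon
      apply hab
      apply e.symm.injective
      apply Subtype.ext
      ext i j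
      exact hcon (i, j)

/-! ### Generic points -/

/-- A constructible set or its complement contains a non-empty open set. -/
lemma Cons.generic {ι : Type} {S : Set (ι → ℂ)} (hS : Cons S) :
    (∃ g : MvPolynomial ι ℂ, g ≠ 0 ∧ ∀ x, eval x g ≠ 0 → x ∈ S) ∨
      ∃ g : MvPolynomial ι ℂ, g ≠ 0 ∧ ∀ x, eval x g ≠ 0 → x ∉ S := by
  have key : ∀ Z : Set (PrimeSpectrum (MvPolynomial ι ℂ)), Topology.IsConstructible Z →
      (⊥ : PrimeSpectrum (MvPolynomial ι ℂ)) ∈ Z →
        ∃ g : MvPolynomial ι ℂ, g ≠ 0 ∧ ∀ x, eval x g ≠ 0 → pt x ∈ Z := by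
    intro Z hZ hb
    obtain ⟨D, rfl⟩ := PrimeSpectrum.exists_constructibleSetData_iff.2 hZ
    unfold PrimeSpectrum.ConstructibleSetData.toSet at hb
    rw [Set.mem_iUnion₂] at hb
    obtain ⟨C, hC, hbC⟩ := hb
    unfold PrimeSpectrum.BasicConstructibleSetData.toSet at hbC
    have hg : ∀ i, C.g i = 0 := fun i => by
      have := hbC.1 (Set.mem_range_self i)
      exact this
    have hf : C.f ≠ 0 := fun h0 => hbC.2 (by
      intro a ha
      rw [Set.mem_singleton_iff] at ha
      rw [ha, h0]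
      exact zero_mem _)
    refine ⟨C.f, hf, fun x hx => ?_⟩
    unfold PrimeSpectrum.ConstructibleSetData.toSet
    rw [Set.mem_iUnion₂]
    refine ⟨C, hC, ?_, ?_⟩
    · rintro _ ⟨i, rfl⟩
      rw [hg i]
      exact zero_mem _
    · intro h
      exact hx (mem_pt.1 (h (Set.mem_singleton _)))
  obtain ⟨Z, hZ, h1⟩ := hS
  by_cases hb : (⊥ : PrimeSpectrum (MvPolynomial ι ℂ)) ∈ Z
  · obtain ⟨g, hg, h⟩ := key Z hZ hb
    exact Or.inl ⟨g, hg, fun x hx => (h1 x).2 (h x hx)⟩
  · obtain ⟨g, hg, h⟩ := key Zᶜ hZ.compl hb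
    exact Or.inr ⟨g, hg, fun x hx hx' => h x hx ((h1 x).1 hx')⟩

/-- D1. -/
theorem isMLDegree_of_alg {m n r N : ℕ}
    (h : ∀ u : Matrix (Fin m) (Fin n) ℂ, AlgebraicIndependent ℚ (fun x : Fin m × Fin n => u x.1 x.2) →
      {p | IsCritical r u p}.Finite ∧ {p | IsCritical r u p}.ncard = N) : IsMLDegree m n r N := by
  have hS := (cons_atLeast (m := m) (n := n) r N).diff (cons_atLeast r (N + 1))
  have hmem : ∀ u : Matrix (Fin m) (Fin n) ℂ, (fun x : Fin m × Fin n => u x.1 x.2) ∈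
      atLeast m n r N \ atLeast m n r (N + 1) ↔
        {p | IsCritical r u p}.Finite ∧ {p | IsCritical r u p}.ncard = N := by
    intro u
    rw [Set.mem_sdiff, mem_atLeast, mem_atLeast, not_le]
    constructor
    · rintro ⟨h1, h2⟩
      have hfin : {p | IsCritical r u p}.Finite := by
        rw [← Set.encard_lt_top_iff]
        exact h2.trans_le le_top
      refine ⟨hfin, ?_⟩
      rw [← hfin.cast_ncard_eq] at h1 h2
      have h1' : N ≤ {p | IsCritical r u p}.ncard := by exact_mod_cast h1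
      have h2' : {p | IsCritical r u p}.ncard < N + 1 := by exact_mod_cast h2
      omega
    · rintro ⟨h1, h2⟩
      rw [← h1.cast_ncard_eq, h2]
      exact ⟨le_refl _, by exact_mod_cast Nat.lt_succ_self N⟩
  rcases Cons.generic hS with ⟨g, hg, h1⟩ | ⟨g, hg, h1⟩
  · exact ⟨g, hg, fun u hu => (hmem u).1 (h1 _ hu)⟩
  · exfalso
    have hopen : IsOpen {x : (Fin m × Fin n) → ℂ | MvPolynomial.eval x g ≠ 0} :=
      isOpen_ne_fun (MvPolynomial.continuous_eval g) continuous_const
    have hne : {x : (Fin m × Fin n) → ℂ | MvPolynomial.eval x g ≠ 0}.Nonempty := by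
      obtain ⟨x, _, hx⟩ := exists_eval_ne g hg Set.univ isOpen_univ ⟨0, trivial⟩
      exact ⟨x, hx⟩
    obtain ⟨x, hx, hx'⟩ := exists_algInd _ hopen hne
    exact h1 x hx ((hmem (fun i j => x (i, j))).2 (h (fun i j => x (i, j)) hx'))

end Pool.Tw
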