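import Pool.Agent.Tw.SymDefs

/-!
# The rank function and the beta invariant are constructible functions of a matrix
-/

set_option autoImplicit false
set_option linter.unusedSectionVars false

namespace Pool.Tw

open MvPolynomial

/-- The rank of the submatrix with the columns `J` is a constructible function. -/
theorem cf_rkC {r N : ℕ} (J : Finset (Fin N)) : EC.CF (fun A : Fin r × Fin N → ℂ =>
    (Module.finrank ℂ ((EC.rspan A).map (LinearMap.pi fun j : J => LinearMap.proj j.1)) : ℤ)) := by
  have h1 := EC.cf_finrank (κ := Fin r × Fin N) (A := J) (K := ℂ)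
    (fun (j : Fin r) a => X (j, a.1))
  have h2 : ∀ A : Fin r × Fin N → ℂ,
      (EC.rspan A).map (LinearMap.pi fun j : J => LinearMap.proj j.1) =
      Submodule.span ℂ (Set.range fun (j : Fin r) (a : J) =>
        eval A (X (j, a.1) : MvPolynomial (Fin r × Fin N) ℂ)) := by
    intro A
    have h3 : (fun (j : Fin r) (a : J) => eval A (X (j, a.1) : MvPolynomial (Fin r × Fin N) ℂ)) =
        fun j : Fin r =>
          (LinearMap.pi fun j : J => LinearMap.proj j.1 : (Fin N → ℂ) →ₗ[ℂ] (J → ℂ)) (EC.row A j) := by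
      funext j a
      rw [eval_X]
      rfl
    rw [h3, EC.rspan, Submodule.map_span, ← Set.range_comp]
    rfl
  have h4 : (fun A : Fin r × Fin N → ℂ => (Module.finrank ℂ
      ((EC.rspan A).map (LinearMap.pi fun j : J => LinearMap.proj j.1)) : ℤ)) = fun A =>
      (Module.finrank ℂ (Submodule.span ℂ (Set.range fun (j : Fin r) (a : J) =>
        eval A (X (j, a.1) : MvPolynomial (Fin r × Fin N) ℂ))) : ℤ) := by
    funext A
    rw [h2 A]
  rw [h4]
  exact h1

/-- The level sets of the rank function. -/
theorem cons_rkC {r N : ℕ} (J : Finset (Fin N)) (k : ℕ) :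
    EC.Cons {A : Fin r × Fin N → ℂ | Module.finrank ℂ
      ((EC.rspan A).map (LinearMap.pi fun j : J => LinearMap.proj j.1)) = k} := by
  have h1 := (cf_rkC (r := r) J).2 (k : ℤ)
  simp only [Nat.cast_inj] at h1
  exact h1

/-- The beta invariant is a constructible function. -/
theorem cf_betaC {r N : ℕ} : EC.CF (fun A : Fin r × Fin N → ℂ => betaC (EC.rspan A)) := by
  have h1 : EC.CF (fun A : Fin r × Fin N → ℂ => ∑ J : Finset (Fin N), (-1) ^ J.card *
      (Module.finrank ℂ ((EC.rspan A).map (LinearMap.pi fun j : J => LinearMap.proj j.1)) : ℤ)) :=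
    EC.CF.sum _ fun J _ => (cf_rkC J).comp₁ (fun b => (-1) ^ J.card * b)
  have h2 := EC.cf_finrank_rspan.comp₂ h1 (fun a b => (-1) ^ a.natAbs * b)
  simp only [Int.natAbs_natCast] at h2
  exact h2

end Pool.Tw
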