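import Pool.Agent.Tw.SliceA
import Pool.Agent.Tw.SymCF

/-!
# Representatives of the connected matroids up to scaling
-/

set_option autoImplicit false
set_option linter.unusedSectionVars false

namespace Pool.Tw.Sl

variable {r N : ℕ}

/-! ### Bipartite graphs -/

/-- the entry of `A` at the edge between `u` and `v` -/
def val (A : Fin r × Fin N → ℂ) : Fin r ⊕ Fin N → Fin r ⊕ Fin N → ℂ
  | Sum.inl j, Sum.inr i => A (j, i)
  | Sum.inr i, Sum.inl j => A (j, i)
  | _, _ => 0

/-- the vertices `u` and `v` are joined by an edge in `S` -/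
def adj (S : Set (Fin r × Fin N)) : Fin r ⊕ Fin N → Fin r ⊕ Fin N → Prop
  | Sum.inl j, Sum.inr i => (j, i) ∈ S
  | Sum.inr i, Sum.inl j => (j, i) ∈ S
  | _, _ => False

/-- the vertices joined to `ρ` by a walk of length `n` -/
def lvl (S : Set (Fin r × Fin N)) (ρ : Fin r) : ℕ → Set (Fin r ⊕ Fin N)
  | 0 => {Sum.inl ρ}
  | n + 1 => {v | ∃ u ∈ lvl S ρ n, adj S u v}

/-- a spanning tree, with the root `ρ`, the parents `π` and the levels `d` -/
structure Tree (S : Set (Fin r × Fin N)) where
  ρ : Fin r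
  π : Fin r ⊕ Fin N → Fin r ⊕ Fin N
  d : Fin r ⊕ Fin N → ℕ
  spec : ∀ v, v ≠ Sum.inl ρ → adj S (π v) v ∧ d (π v) < d v

lemma exists_tree (S : Set (Fin r × Fin N)) (ρ : Fin r) (h : ∀ v, ∃ n, v ∈ lvl S ρ n) :
    Nonempty (Tree S) := by
  classical
  have h1 : ∀ v, v ≠ Sum.inl ρ → ∃ u, adj S u v ∧ Nat.find (h u) < Nat.find (h v) := by
    intro v hv
    have h2 := Nat.find_spec (h v)
    rcases hn : Nat.find (h v) with - | n
    · rw [hn] at h2
      exact absurd h2 hv
    · rw [hn] at h2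
      obtain ⟨u, hu, hadj⟩ := h2
      exact ⟨u, hadj, Nat.lt_succ_of_le (Nat.find_min' (h u) hu)⟩
  refine ⟨⟨ρ, fun v => if hv : v = Sum.inl ρ then v else (h1 v hv).choose,
    fun v => Nat.find (h v), fun v hv => ?_⟩⟩
  simp only [dif_neg hv]
  exact (h1 v hv).choose_spec

/-- potentials on a tree -/
lemma exists_potential {S : Set (Fin r × Fin N)} (T : Tree S) (a : Fin r ⊕ Fin N → ℂ)
    (ha : ∀ v, v ≠ Sum.inl T.ρ → a v ≠ 0) : ∃ t : Fin r ⊕ Fin N → ℂ, (∀ v, t v ≠ 0) ∧
      ∀ v, v ≠ Sum.inl T.ρ → a v * t v * t (T.π v) = 1 := by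
  classical
  have h : ∀ n, ∃ t : Fin r ⊕ Fin N → ℂ, (∀ v, t v ≠ 0) ∧
      ∀ v, v ≠ Sum.inl T.ρ → T.d v < n → a v * t v * t (T.π v) = 1 := by
    intro n
    induction n with
    | zero => exact ⟨fun _ => 1, fun _ => one_ne_zero, fun _ _ h => absurd h (Nat.not_lt_zero _)⟩
    | succ n ih =>
      obtain ⟨t, ht, h1⟩ := ih
      refine ⟨fun v => if v ≠ Sum.inl T.ρ ∧ T.d v = n then (a v * t (T.π v))⁻¹ else t v, ?_, ?_⟩
      · intro v
        by_cases hv : v ≠ Sum.inl T.ρ ∧ T.d v = n
        · simp only [if_pos hv]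
          exact inv_ne_zero (mul_ne_zero (ha v hv.1) (ht _))
        · simp only [if_neg hv]
          exact ht v
      · intro v hv hd
        have hlt := (T.spec v hv).2
        have hπ : ¬ (T.π v ≠ Sum.inl T.ρ ∧ T.d (T.π v) = n) := by
          rintro ⟨-, h2⟩
          omega
        simp only [if_neg hπ]
        by_cases hn : T.d v = n
        · have h3 : v ≠ Sum.inl T.ρ ∧ T.d v = n := ⟨hv, hn⟩
          simp only [if_pos h3]
          have h4 := mul_ne_zero (ha v hv) (ht (T.π v))
          field_simp [ha v hv, ht (T.π v)]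
        · have h3 : ¬ (v ≠ Sum.inl T.ρ ∧ T.d v = n) := fun h4 => hn h4.2
          simp only [if_neg h3]
          exact h1 v hv (by omega)
  obtain ⟨t, ht, h1⟩ := h ((Finset.univ.sup T.d) + 1)
  exact ⟨t, ht, fun v hv => h1 v hv (Nat.lt_succ_of_le (Finset.le_sup (Finset.mem_univ v)))⟩

/-- a function of product `1` on the edges of a tree is constant on the rows, with the inverse value on
the columns -/
lemma potential_unique {S : Set (Fin r × Fin N)} (T : Tree S) (t : Fin r ⊕ Fin N → ℂ)
    (h : ∀ v, v ≠ Sum.inl T.ρ → t v * t (T.π v) = 1) (ht : t (Sum.inl T.ρ) ≠ 0) :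
    (∀ j, t (Sum.inl j) = t (Sum.inl T.ρ)) ∧ ∀ i, t (Sum.inr i) * t (Sum.inl T.ρ) = 1 := by
  have key : ∀ n, ∀ v, T.d v < n → (∀ j, v = Sum.inl j → t v = t (Sum.inl T.ρ)) ∧
      ∀ i, v = Sum.inr i → t v * t (Sum.inl T.ρ) = 1 := by
    intro n
    induction n with
    | zero => exact fun v hv => absurd hv (Nat.not_lt_zero _)
    | succ n ih =>
      intro v hv
      by_cases hr : v = Sum.inl T.ρ
      · rw [hr]
        exact ⟨fun _ _ => rfl, fun i hi => absurd hi (by simp)⟩
      · have h1 := T.spec v hr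
        have h2 := ih (T.π v) (by omega)
        have h3 := h v hr
        constructor
        · rintro j rfl
          obtain ⟨i, hi⟩ : ∃ i, T.π (Sum.inl j) = Sum.inr i := by
            rcases hπ : T.π (Sum.inl j) with j' | i
            · rw [hπ] at h1
              exact absurd h1.1 (by simp [adj])
            · exact ⟨i, rfl⟩
          have h4 := h2.2 i hi
          have h5 : t (T.π (Sum.inl j)) ≠ 0 := left_ne_zero_of_mul_eq_one h4
          refine mul_right_cancel₀ h5 ?_
          rw [h3, mul_comm, h4]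
        · rintro i rfl
          obtain ⟨j, hj⟩ : ∃ j, T.π (Sum.inr i) = Sum.inl j := by
            rcases hπ : T.π (Sum.inr i) with j | i'
            · exact ⟨j, rfl⟩
            · rw [hπ] at h1
              exact absurd h1.1 (by simp [adj])
          have h4 := h2.1 j hj
          rw [← h4]
          exact h3
  exact ⟨fun j => (key _ (Sum.inl j) (Nat.lt_succ_self _)).1 j rfl,
    fun i => (key _ (Sum.inr i) (Nat.lt_succ_self _)).2 i rfl⟩

/-! ### Connectedness -/

/-- the support -/
def supp (A : Fin r × Fin N → ℂ) : Set (Fin r × Fin N) := {x | A x ≠ 0}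

lemma val_ne_of_adj {A : Fin r × Fin N → ℂ} {u v : Fin r ⊕ Fin N} (h : adj (supp A) u v) :
    val A u v ≠ 0 := by
  rcases u with j | i <;> rcases v with j' | i' <;> first | exact h | exact absurd h id

/-- **A matrix in reduced echelon form with a connected matroid has a connected support.** -/
theorem exists_tree_of_betaC {A : Fin r × Fin N → ℂ} (hA : A ∈ EC.RE ℂ r N)
    (hb : betaC (EC.rspan A) ≠ 0) : Nonempty (Tree (supp A)) := by
  classical
  obtain ⟨p, -, hp⟩ := hA
  -- there is a row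
  have hr : 0 < r := by
    rcases Nat.eq_zero_or_pos r with h | h
    · subst h
      refine absurd ?_ hb
      have h1 : EC.rspan A = ⊥ := by
        rw [EC.rspan, Set.range_eq_empty, Submodule.span_empty]
      have h2 : ∀ J : Finset (Fin N), (EC.rspan A).map (resJ N J) = ⊥ := fun J => by
        rw [h1, Submodule.map_bot]
      rw [betaC]
      refine mul_eq_zero_of_right _ (Finset.sum_eq_zero fun J _ => ?_)
      change (-1 : ℤ) ^ J.card * (Module.finrank ℂ ((EC.rspan A).map (resJ N J)) : ℤ) = 0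
      rw [h2, finrank_bot, Nat.cast_zero, mul_zero]
    · exact h
  let ρ : Fin r := ⟨0, hr⟩
  by_contra hT
  have h1 : ∃ v, ∀ n, v ∉ lvl (supp A) ρ n := by
    by_contra hc
    push Not at hc
    exact hT (exists_tree _ ρ hc)
  obtain ⟨v, hv⟩ := h1
  let R : Fin r ⊕ Fin N → Prop := fun v => ∃ n, v ∈ lvl (supp A) ρ n
  have hstep : ∀ u w, R u → adj (supp A) u w → R w := by
    rintro u w ⟨n, hn⟩ huw
    exact ⟨n + 1, u, hn, huw⟩
  let P : Fin N → Prop := fun i => R (Sum.inr i)
  have hpiv : ∀ j, A (j, p j) ≠ 0 := fun j => by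
    rw [(hp j).1]
    exact one_ne_zero
  have hρ : P (p ρ) := hstep (Sum.inl ρ) (Sum.inr (p ρ)) ⟨0, rfl⟩ (hpiv ρ)
  have hout : ∃ e, ¬ P e := by
    rcases v with j | i
    · refine ⟨p j, fun h => ?_⟩
      obtain ⟨n, hn⟩ := hstep (Sum.inr (p j)) (Sum.inl j) h (hpiv j)
      exact hv n hn
    · refine ⟨i, ?_⟩
      rintro ⟨n, hn⟩
      exact hv n hn
  obtain ⟨e, he⟩ := hout
  refine hb (betaC_eq_zero P _ ?_ he hρ)
  have h2 : (EC.rspan A).map (trn N P) ≤ EC.rspan A := by
    rw [EC.rspan, Submodule.map_span, Submodule.span_le]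
    rintro _ ⟨_, ⟨j, rfl⟩, rfl⟩
    by_cases hj : R (Sum.inl j)
    · have h3 : trn N P (EC.row A j) = EC.row A j := by
        funext i
        rw [trn_apply]
        by_cases hi : P i
        · rw [if_pos hi]
        · rw [if_neg hi]
          by_contra hc
          exact hi (hstep _ _ hj (fun h => hc h.symm))
      rw [h3]
      exact Submodule.subset_span ⟨j, rfl⟩
    · have h3 : trn N P (EC.row A j) = 0 := by
        funext i
        rw [trn_apply]
        by_cases hi : P i
        · rw [if_pos hi]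
          by_contra hc
          exact hj (hstep (Sum.inr i) (Sum.inl j) hi hc)
        · rw [if_neg hi]
          rfl
      rw [h3]
      exact Submodule.zero_mem _
  exact fun x hx => h2 ⟨x, hx, rfl⟩

/-! ### The slice -/

/-- the representatives: the entries on a chosen spanning tree of the support are `1` -/
def slice (r N : ℕ) : Set (Fin r × Fin N → ℂ) :=
  {A | A ∈ EC.RE ℂ r N ∧ betaC (EC.rspan A) ≠ 0 ∧ ∃ h : Nonempty (Tree (supp A)),
    ∀ v, v ≠ Sum.inl (Classical.choice h).ρ → val A ((Classical.choice h).π v) v = 1}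

lemma cons_val (u v : Fin r ⊕ Fin N) : EC.Cons {A : Fin r × Fin N → ℂ | val A u v = 1} := by
  rcases u with j | i <;> rcases v with j' | i'
  · have h : {A : Fin r × Fin N → ℂ | val A (Sum.inl j) (Sum.inl j') = 1} = ∅ := by
      ext A
      simp [val]
    rw [h]
    exact EC.Cons.empty
  · exact EC.cons_coord_eq _ 1
  · exact EC.cons_coord_eq _ 1
  · have h : {A : Fin r × Fin N → ℂ | val A (Sum.inr i) (Sum.inr i') = 1} = ∅ := by
      ext A
      simp [val]
    rw [h]
    exact EC.Cons.empty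

lemma cons_supp (S : Set (Fin r × Fin N)) : EC.Cons {A : Fin r × Fin N → ℂ | supp A = S} := by
  classical
  have h : {A : Fin r × Fin N → ℂ | supp A = S} =
      ⋂ x : Fin r × Fin N, {A | A x ≠ 0 ↔ x ∈ S} := by
    ext A
    rw [Set.mem_iInter]
    constructor
    · rintro rfl x
      exact Iff.rfl
    · intro h
      ext x
      exact h x
  rw [h]
  refine EC.Cons.iInter fun x => ?_
  by_cases hx : x ∈ S
  · have h1 : {A : Fin r × Fin N → ℂ | A x ≠ 0 ↔ x ∈ S} = {A | A x = 0}ᶜ := by
      ext A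
      simp [hx]
    rw [h1]
    exact (EC.cons_coord_eq x 0).compl
  · have h1 : {A : Fin r × Fin N → ℂ | A x ≠ 0 ↔ x ∈ S} = {A | A x = 0} := by
      ext A
      simp [hx]
    rw [h1]
    exact EC.cons_coord_eq x 0

lemma cons_slice (hcf : EC.CF (fun A : Fin r × Fin N → ℂ => betaC (EC.rspan A))) :
    EC.Cons (slice r N) := by
  classical
  have h1 : slice r N = EC.RE ℂ r N ∩ ({A | betaC (EC.rspan A) = 0}ᶜ ∩
      ⋃ S : Set (Fin r × Fin N), ({A | supp A = S} ∩
        {A | ∃ h : Nonempty (Tree S), ∀ v, v ≠ Sum.inl (Classical.choice h).ρ →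
          val A ((Classical.choice h).π v) v = 1})) := by
    ext A
    simp only [slice, Set.mem_inter_iff, Set.mem_compl_iff, Set.mem_iUnion, Set.mem_setOf_eq]
    refine and_congr Iff.rfl (and_congr Iff.rfl ?_)
    constructor
    · intro h
      exact ⟨supp A, rfl, h⟩
    · rintro ⟨S, rfl, h⟩
      exact h
  rw [h1]
  refine EC.cons_RE.inter ((hcf.2 0).compl.inter (EC.Cons.iUnion fun S =>
    (cons_supp S).inter ?_))
  by_cases h : Nonempty (Tree S)
  · have h2 : {A : Fin r × Fin N → ℂ | ∃ h : Nonempty (Tree S),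
        ∀ v, v ≠ Sum.inl (Classical.choice h).ρ → val A ((Classical.choice h).π v) v = 1} =
        ⋂ v : {v // v ≠ Sum.inl (Classical.choice h).ρ},
          {A | val A ((Classical.choice h).π v.1) v.1 = 1} := by
      ext A
      simp only [Set.mem_setOf_eq, Set.mem_iInter, Subtype.forall]
      exact ⟨fun ⟨_, h3⟩ => h3, fun h3 => ⟨h, h3⟩⟩
    rw [h2]
    exact EC.Cons.iInter fun v => cons_val _ _
  · have h2 : {A : Fin r × Fin N → ℂ | ∃ h : Nonempty (Tree S),
        ∀ v, v ≠ Sum.inl (Classical.choice h).ρ → val A ((Classical.choice h).π v) v = 1} = ∅ := by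
      ext A
      simp only [Set.mem_setOf_eq, Set.mem_empty_iff_false, iff_false]
      rintro ⟨h3, -⟩
      exact h h3
    rw [h2]
    exact EC.Cons.empty

/-- the values on the edges after scaling -/
lemma val_scale (A : Fin r × Fin N → ℂ) (t : Fin r ⊕ Fin N → ℂ) (u v : Fin r ⊕ Fin N) :
    val (fun x => A x * t (Sum.inr x.2) * t (Sum.inl x.1)) u v = val A u v * t v * t u := by
  rcases u with j | i <;> rcases v with j' | i'
  · simp [val]
  · change A (j, i') * t (Sum.inr i') * t (Sum.inl j) = A (j, i') * t (Sum.inr i') * t (Sum.inl j)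
    rfl
  · change A (j', i) * t (Sum.inr i) * t (Sum.inl j') = A (j', i) * t (Sum.inl j') * t (Sum.inr i)
    ring
  · simp [val]

theorem slice_exists {A : Fin r × Fin N → ℂ} (hA : A ∈ EC.RE ℂ r N)
    (hb : betaC (EC.rspan A) ≠ 0) : ∃ B, B ∈ slice r N ∧ TEquiv A B := by
  have hT := exists_tree_of_betaC hA hb
  set T := Classical.choice hT with hTdef
  obtain ⟨t, ht, h1⟩ := exists_potential T (fun v => val A (T.π v) v)
    (fun v hv => val_ne_of_adj (T.spec v hv).1)
  let B : Fin r × Fin N → ℂ := fun x => A x * t (Sum.inr x.2) * t (Sum.inl x.1)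
  have hsupp : supp B = supp A := by
    ext x
    change A x * t (Sum.inr x.2) * t (Sum.inl x.1) ≠ 0 ↔ A x ≠ 0
    constructor
    · intro h h2
      exact h (by rw [h2, zero_mul, zero_mul])
    · intro h
      exact mul_ne_zero (mul_ne_zero h (ht _)) (ht _)
  have hspan : EC.rspan B = (EC.rspan A).map (dg N fun i => t (Sum.inr i)) :=
    rspan_scale A (fun i => t (Sum.inr i)) (fun j => t (Sum.inl j)) fun j => ht _
  refine ⟨B, ⟨?_, ?_, ?_⟩, ?_⟩
  · obtain ⟨p, hp, hp'⟩ := hA
    refine ⟨p, hp, fun j => ⟨?_, ?_, ?_⟩⟩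
    · have hadj := (T.spec (Sum.inr (p j)) (by simp)).1
      have h2 := h1 (Sum.inr (p j)) (by simp)
      obtain ⟨j', hj'⟩ : ∃ j', T.π (Sum.inr (p j)) = Sum.inl j' := by
        rcases hπ : T.π (Sum.inr (p j)) with j' | i'
        · exact ⟨j', rfl⟩
        · rw [hπ] at hadj
          exact absurd hadj id
      rw [hj'] at hadj h2
      have h3 : j' = j := by
        by_contra hne
        exact hadj ((hp' j').2.2 j (fun h => hne h.symm))
      subst h3
      exact h2
    · intro i hi
      change A (j, i) * t (Sum.inr i) * t (Sum.inl j) = 0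
      rw [(hp' j).2.1 i hi, zero_mul, zero_mul]
    · intro l hl
      change A (j, p l) * t (Sum.inr (p l)) * t (Sum.inl j) = 0
      rw [(hp' j).2.2 l hl, zero_mul, zero_mul]
  · rw [hspan, betaC_dg fun i => ht _]
    exact hb
  · rw [hsupp]
    refine ⟨hT, fun v hv => ?_⟩
    rw [val_scale]
    exact h1 v hv
  · refine TEquiv.symm ⟨fun i => t (Sum.inr i), fun i => ht _, hspan⟩

theorem slice_unique {B B' : Fin r × Fin N → ℂ} (hB : B ∈ slice r N) (hB' : B' ∈ slice r N)
    (h : TEquiv B B') : B = B' := by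
  obtain ⟨hE, -, hT, hv⟩ := hB
  obtain ⟨hE', -, hT', hv'⟩ := hB'
  obtain ⟨t, s, ht, hs, hx⟩ := scale_of_TEquiv hE hE' h
  have hsupp : supp B = supp B' := by
    ext x
    change B x ≠ 0 ↔ B' x ≠ 0
    rw [hx x]
    constructor
    · intro h h2
      exact h (by rw [h2, zero_mul, zero_mul])
    · intro h
      exact mul_ne_zero (mul_ne_zero h (ht _)) (hs _)
  let τ : Fin r ⊕ Fin N → ℂ := Sum.elim s t
  have hBτ : B = fun x => B' x * τ (Sum.inr x.2) * τ (Sum.inl x.1) := funext hx
  revert hT hv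
  rw [hsupp]
  intro hT hv
  have h1 : ∀ v, v ≠ Sum.inl (Classical.choice hT').ρ →
      τ v * τ ((Classical.choice hT').π v) = 1 := by
    intro v hne
    have h2 := hv v hne
    have h3 := hv' v hne
    rw [hBτ, val_scale, h3, one_mul] at h2
    exact h2
  obtain ⟨h2, h3⟩ := potential_unique (Classical.choice hT') τ h1 (hs _)
  funext x
  rw [hx x]
  have h4 : τ (Sum.inr x.2) * τ (Sum.inl x.1) = 1 := by
    rw [h2 x.1]
    exact h3 x.2
  have h5 : t x.2 * s x.1 = 1 := h4
  rw [mul_assoc, h5, mul_one]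

/-- D3a, given that the beta invariant is a constructible function. -/
theorem isSlice_slice (hcf : EC.CF (fun A : Fin r × Fin N → ℂ => betaC (EC.rspan A))) :
    IsSlice (slice r N) := by
  refine ⟨cons_slice hcf, fun A hA => ⟨hA.1, hA.2.1⟩, fun A hA hb => ?_⟩
  obtain ⟨B, hB, h⟩ := slice_exists hA hb
  exact ⟨B, ⟨hB, h⟩, fun B' hB' => slice_unique hB'.1 hB (hB'.2.symm.trans h)⟩

end Pool.Tw.Sl

/-- D3a: there are such sets. -/
theorem Pool.Tw.exists_slice (r N : ℕ) : ∃ Y : Set (Fin r × Fin N → ℂ), Pool.Tw.IsSlice Y :=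
  ⟨_, Pool.Tw.Sl.isSlice_slice Pool.Tw.cf_betaC⟩
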