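import Pool.Agent.Tw.SymDefs

/-!
# The beta invariant of a direct sum is zero, and scaling of the coordinates
-/

set_option autoImplicit false
set_option linter.unusedSectionVars false

namespace Pool.Tw.Sl

variable {r N : ℕ}

/-- the restriction to the coordinates in `J` -/
abbrev resJ (N : ℕ) (J : Finset (Fin N)) : (Fin N → ℂ) →ₗ[ℂ] (J → ℂ) :=
  LinearMap.pi fun j : J => LinearMap.proj j.1

lemma finrank_map_inj {V W : Type} [AddCommGroup V] [Module ℂ V] [AddCommGroup W] [Module ℂ W]
    (f : V →ₗ[ℂ] W) (hf : Function.Injective f) (S : Submodule ℂ V) :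
    Module.finrank ℂ (S.map f) = Module.finrank ℂ S :=
  (LinearEquiv.finrank_eq (Submodule.equivMapOfInjective f hf S)).symm

/-! ### Alternating sums -/

lemma alt_sum (P : Fin N → Prop) [DecidablePred P] (e : Fin N) (he : ¬ P e) (h : Finset (Fin N) → ℤ) :
    ∑ J : Finset (Fin N), (-1) ^ J.card * h (J.filter P) = 0 := by
  classical
  refine Finset.sum_involution (fun J _ => if e ∈ J then J.erase e else insert e J) ?_ ?_ ?_ ?_
  · intro J _
    have h1 : (if e ∈ J then J.erase e else insert e J).filter P = J.filter P := by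
      ext i
      by_cases hJ : e ∈ J
      · rw [if_pos hJ, Finset.mem_filter, Finset.mem_filter, Finset.mem_erase]
        constructor
        · rintro ⟨⟨-, h1⟩, h2⟩
          exact ⟨h1, h2⟩
        · rintro ⟨h1, h2⟩
          exact ⟨⟨fun h3 => he (h3 ▸ h2), h1⟩, h2⟩
      · rw [if_neg hJ, Finset.mem_filter, Finset.mem_filter, Finset.mem_insert]
        constructor
        · rintro ⟨h1 | h1, h2⟩
          · exact absurd h2 (h1 ▸ he)
          · exact ⟨h1, h2⟩
        · rintro ⟨h1, h2⟩
          exact ⟨Or.inr h1, h2⟩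
    rw [h1]
    by_cases hJ : e ∈ J
    · rw [if_pos hJ]
      have h2 : J.card = (J.erase e).card + 1 := (Finset.card_erase_add_one hJ).symm
      rw [h2, pow_succ]
      ring
    · rw [if_neg hJ, Finset.card_insert_of_notMem hJ, pow_succ]
      ring
  · intro J _ _ h1
    by_cases hJ : e ∈ J
    · rw [if_pos hJ] at h1
      have h2 := Finset.notMem_erase e J
      rw [h1] at h2
      exact h2 hJ
    · rw [if_neg hJ] at h1
      have h2 := Finset.mem_insert_self e J
      rw [h1] at h2
      exact hJ h2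
  · intro J _
    exact Finset.mem_univ _
  · intro J _
    by_cases hJ : e ∈ J
    · simp only [if_pos hJ, Finset.notMem_erase, if_false]
      exact Finset.insert_erase hJ
    · simp only [if_neg hJ, Finset.mem_insert_self, if_true]
      exact Finset.erase_insert hJ

/-! ### Truncation -/

/-- the truncation to the coordinates with `P` -/
def trn (N : ℕ) (P : Fin N → Prop) [DecidablePred P] : (Fin N → ℂ) →ₗ[ℂ] (Fin N → ℂ) :=
  LinearMap.pi fun i => if P i then LinearMap.proj i else 0

lemma trn_apply (P : Fin N → Prop) [DecidablePred P] (x : Fin N → ℂ) (i : Fin N) :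
    trn N P x i = if P i then x i else 0 := by
  rw [trn, LinearMap.pi_apply]
  split_ifs <;> rfl

/-- extension by zero -/
def exz (N : ℕ) (P : Fin N → Prop) [DecidablePred P] (J : Finset (Fin N)) :
    (J.filter P → ℂ) →ₗ[ℂ] (J → ℂ) :=
  LinearMap.pi fun i => if h : P i.1 then
    LinearMap.proj (⟨i.1, Finset.mem_filter.2 ⟨i.2, h⟩⟩ : {x // x ∈ J.filter P}) else 0

lemma exz_inj (P : Fin N → Prop) [DecidablePred P] (J : Finset (Fin N)) :
    Function.Injective (exz N P J) := by
  rw [← LinearMap.ker_eq_bot, LinearMap.ker_eq_bot']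
  intro x hx
  ext i
  have h1 := (Finset.mem_filter.1 i.2).1
  have h2 := (Finset.mem_filter.1 i.2).2
  have h3 := congrFun hx ⟨i.1, h1⟩
  rw [exz, LinearMap.pi_apply, dif_pos h2] at h3
  exact h3

lemma exz_comp (P : Fin N → Prop) [DecidablePred P] (J : Finset (Fin N)) :
    (exz N P J).comp (resJ N (J.filter P)) = (resJ N J).comp (trn N P) := by
  ext x i
  simp only [LinearMap.comp_apply, exz, LinearMap.pi_apply, trn_apply, LinearMap.proj_apply]
  by_cases h : P i.1
  · rw [dif_pos h, if_pos h]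
    rfl
  · rw [dif_neg h, if_neg h]
    rfl

lemma finrank_trn (P : Fin N → Prop) [DecidablePred P] (J : Finset (Fin N))
    (L : Submodule ℂ (Fin N → ℂ)) :
    Module.finrank ℂ ((L.map (trn N P)).map (resJ N J)) =
      Module.finrank ℂ (L.map (resJ N (J.filter P))) := by
  rw [← Submodule.map_comp, ← exz_comp, Submodule.map_comp, finrank_map_inj _ (exz_inj P J)]

/-- the rank of the restriction to `J` is the sum of those to the two parts of `J` -/
lemma finrank_split (P : Fin N → Prop) [DecidablePred P] (L : Submodule ℂ (Fin N → ℂ))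
    (hL : ∀ x ∈ L, trn N P x ∈ L) (J : Finset (Fin N)) :
    Module.finrank ℂ (L.map (resJ N J)) = Module.finrank ℂ (L.map (resJ N (J.filter P))) +
      Module.finrank ℂ (L.map (resJ N (J.filter fun i => ¬ P i))) := by
  have hadd : ∀ x, trn N P x + trn N (fun i => ¬ P i) x = x := by
    intro x
    ext i
    rw [Pi.add_apply, trn_apply, trn_apply]
    by_cases h : P i
    · rw [if_pos h, if_neg (not_not.2 h), add_zero]
    · rw [if_neg h, if_pos h, zero_add]
  have hsup : L.map (trn N P) ⊔ L.map (trn N fun i => ¬ P i) = L := by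
    apply le_antisymm
    · refine sup_le ?_ ?_
      · rintro _ ⟨x, hx, rfl⟩
        exact hL x hx
      · rintro _ ⟨x, hx, rfl⟩
        have h1 : trn N (fun i => ¬ P i) x = x - trn N P x := by
          rw [eq_sub_iff_add_eq, add_comm]
          exact hadd x
        rw [h1]
        exact L.sub_mem hx (hL x hx)
    · intro x hx
      rw [← hadd x]
      exact Submodule.add_mem_sup ⟨x, hx, rfl⟩ ⟨x, hx, rfl⟩
  have hinf : (L.map (trn N P)).map (resJ N J) ⊓ (L.map (trn N fun i => ¬ P i)).map (resJ N J) =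
      ⊥ := by
    rw [eq_bot_iff]
    rintro y ⟨⟨_, ⟨x, -, rfl⟩, h1⟩, ⟨_, ⟨x', -, rfl⟩, h2⟩⟩
    rw [Submodule.mem_bot]
    ext i
    have e1 : y i = if P i.1 then x i.1 else 0 := by
      rw [← trn_apply, ← h1]
      rfl
    have e2 : y i = if ¬ P i.1 then x' i.1 else 0 := by
      rw [← trn_apply (fun i => ¬ P i), ← h2]
      rfl
    by_cases h : P i.1
    · rw [if_neg (not_not.2 h)] at e2
      exact e2
    · rw [if_neg h] at e1
      exact e1
  have h1 := Submodule.finrank_sup_add_finrank_inf_eq ((L.map (trn N P)).map (resJ N J))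
    ((L.map (trn N fun i => ¬ P i)).map (resJ N J))
  rw [hinf, finrank_bot, add_zero, ← Submodule.map_sup, hsup, finrank_trn, finrank_trn] at h1
  exact h1

/-- **The beta invariant of a direct sum is zero.** -/
theorem betaC_eq_zero (P : Fin N → Prop) [DecidablePred P] (L : Submodule ℂ (Fin N → ℂ))
    (hL : ∀ x ∈ L, trn N P x ∈ L) {e e' : Fin N} (he : ¬ P e) (he' : P e') : betaC L = 0 := by
  rw [betaC]
  have h1 : ∑ J : Finset (Fin N), (-1 : ℤ) ^ J.card *
      (Module.finrank ℂ (L.map (LinearMap.pi fun j : J => LinearMap.proj j.1)) : ℤ) = 0 := by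
    have h2 : ∀ J : Finset (Fin N), (-1 : ℤ) ^ J.card *
        (Module.finrank ℂ (L.map (LinearMap.pi fun j : J => LinearMap.proj j.1)) : ℤ) =
        (-1 : ℤ) ^ J.card * (Module.finrank ℂ (L.map (resJ N (J.filter P))) : ℤ) +
        (-1 : ℤ) ^ J.card * (Module.finrank ℂ (L.map (resJ N (J.filter fun i => ¬ P i))) : ℤ) := by
      intro J
      have h3 := finrank_split P L hL J
      rw [← mul_add]
      congr 1
      exact_mod_cast h3
    rw [Finset.sum_congr rfl fun J _ => h2 J, Finset.sum_add_distrib,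
      alt_sum P e he fun J => (Module.finrank ℂ (L.map (resJ N J)) : ℤ),
      alt_sum (fun i => ¬ P i) e' (not_not.2 he') fun J =>
        (Module.finrank ℂ (L.map (resJ N J)) : ℤ), add_zero]
  rw [h1, mul_zero]

/-! ### Scaling -/

/-- the multiplication of the coordinates by `t` -/
abbrev dg (N : ℕ) (t : Fin N → ℂ) : (Fin N → ℂ) →ₗ[ℂ] (Fin N → ℂ) :=
  LinearMap.pi fun i => t i • LinearMap.proj i

lemma dg_apply (t x : Fin N → ℂ) (i : Fin N) : dg N t x i = t i * x i := rfl

lemma dg_comp (t t' : Fin N → ℂ) : (dg N t).comp (dg N t') = dg N fun i => t i * t' i := by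
  refine LinearMap.ext fun x => ?_
  funext i
  simp only [LinearMap.comp_apply, dg_apply]
  ring

lemma dg_one : dg N (fun _ => 1) = LinearMap.id := by
  refine LinearMap.ext fun x => ?_
  funext i
  rw [dg_apply, one_mul]
  rfl

lemma dg_inj {t : Fin N → ℂ} (ht : ∀ i, t i ≠ 0) : Function.Injective (dg N t) := by
  intro x y h
  funext i
  have h1 := congrFun h i
  rw [dg_apply, dg_apply] at h1
  exact mul_left_cancel₀ (ht i) h1

lemma finrank_res_dg {t : Fin N → ℂ} (ht : ∀ i, t i ≠ 0) (L : Submodule ℂ (Fin N → ℂ))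
    (J : Finset (Fin N)) :
    Module.finrank ℂ ((L.map (dg N t)).map (resJ N J)) = Module.finrank ℂ (L.map (resJ N J)) := by
  let f : (J → ℂ) →ₗ[ℂ] (J → ℂ) := LinearMap.pi fun i => t i.1 • LinearMap.proj i
  have hf : Function.Injective f := by
    intro x y h
    funext i
    have h1 : t i.1 * x i = t i.1 * y i := congrFun h i
    exact mul_left_cancel₀ (ht i.1) h1
  have h1 : (resJ N J).comp (dg N t) = f.comp (resJ N J) := rfl
  rw [← Submodule.map_comp, h1, Submodule.map_comp, finrank_map_inj f hf]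

/-- **The beta invariant does not change under scaling.** -/
theorem betaC_dg {t : Fin N → ℂ} (ht : ∀ i, t i ≠ 0) (L : Submodule ℂ (Fin N → ℂ)) :
    betaC (L.map (dg N t)) = betaC L := by
  rw [betaC, betaC, finrank_map_inj _ (dg_inj ht)]
  congr 1
  refine Finset.sum_congr rfl fun J _ => ?_
  congr 1
  exact_mod_cast finrank_res_dg ht L J

/-- scaling of the rows and the columns -/
lemma rspan_scale (A : Fin r × Fin N → ℂ) (t : Fin N → ℂ) (s : Fin r → ℂ) (hs : ∀ j, s j ≠ 0) :
    EC.rspan (fun x => A x * t x.2 * s x.1) = (EC.rspan A).map (dg N t) := by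
  have h1 : ∀ j, EC.row (fun x : Fin r × Fin N => A x * t x.2 * s x.1) j =
      s j • dg N t (EC.row A j) := by
    intro j
    funext i
    rw [Pi.smul_apply, dg_apply, smul_eq_mul]
    change A (j, i) * t i * s j = s j * (t i * A (j, i))
    ring
  apply le_antisymm
  · rw [EC.rspan, Submodule.span_le]
    rintro _ ⟨j, rfl⟩
    rw [h1]
    exact Submodule.smul_mem _ _ ⟨_, Submodule.subset_span ⟨j, rfl⟩, rfl⟩
  · rw [EC.rspan, EC.rspan, Submodule.map_span, Submodule.span_le]
    rintro _ ⟨_, ⟨j, rfl⟩, rfl⟩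
    have h2 : dg N t (EC.row A j) =
        (s j)⁻¹ • EC.row (fun x : Fin r × Fin N => A x * t x.2 * s x.1) j := by
      rw [h1, smul_smul, inv_mul_cancel₀ (hs j), one_smul]
    rw [h2]
    exact Submodule.smul_mem _ _ (Submodule.subset_span ⟨j, rfl⟩)

/-- two reduced echelon matrices which are equivalent differ by a scaling of rows and columns -/
theorem scale_of_TEquiv {B B' : Fin r × Fin N → ℂ} (hB : B ∈ EC.RE ℂ r N) (hB' : B' ∈ EC.RE ℂ r N)
    (h : TEquiv B B') : ∃ (t : Fin N → ℂ) (s : Fin r → ℂ), (∀ i, t i ≠ 0) ∧ (∀ j, s j ≠ 0) ∧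
      ∀ x, B x = B' x * t x.2 * s x.1 := by
  obtain ⟨t, ht, h⟩ := h
  obtain ⟨p, hp, hp'⟩ := id hB'
  have hs : ∀ j, (t (p j))⁻¹ ≠ 0 := fun j => inv_ne_zero (ht _)
  refine ⟨t, fun j => (t (p j))⁻¹, ht, hs, ?_⟩
  have h1 := rspan_scale B' t (fun j => (t (p j))⁻¹) hs
  have hC : (fun x : Fin r × Fin N => B' x * t x.2 * (t (p x.1))⁻¹) ∈ EC.RE ℂ r N := by
    refine ⟨p, hp, fun j => ⟨?_, ?_, ?_⟩⟩
    · change B' (j, p j) * t (p j) * (t (p j))⁻¹ = 1
      rw [(hp' j).1, one_mul, mul_inv_cancel₀ (ht _)]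
    · intro i hi
      change B' (j, i) * t i * (t (p j))⁻¹ = 0
      rw [(hp' j).2.1 i hi, zero_mul, zero_mul]
    · intro l hl
      change B' (j, p l) * t (p l) * (t (p j))⁻¹ = 0
      rw [(hp' j).2.2 l hl, zero_mul, zero_mul]
  have hr : Module.finrank ℂ (EC.rspan B) = r := EC.finrank_rspan (EC.RE_subset_Fr hB)
  have h2 := (EC.RE_unique hr).unique ⟨hB, rfl⟩ ⟨hC, h1.trans h.symm⟩
  intro x
  exact congrFun h2 x

lemma _root_.Pool.Tw.TEquiv.symm {A B : Fin r × Fin N → ℂ} (h : TEquiv A B) : TEquiv B A := by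
  obtain ⟨t, ht, h⟩ := h
  refine ⟨fun i => (t i)⁻¹, fun i => inv_ne_zero (ht i), ?_⟩
  rw [h]
  change _ = Submodule.map (dg N fun i => (t i)⁻¹) (Submodule.map (dg N t) (EC.rspan B))
  rw [← Submodule.map_comp, dg_comp]
  have h1 : (fun i => (t i)⁻¹ * t i) = fun _ : Fin N => (1 : ℂ) :=
    funext fun i => inv_mul_cancel₀ (ht i)
  rw [h1, dg_one, Submodule.map_id]

lemma _root_.Pool.Tw.TEquiv.trans {A B C : Fin r × Fin N → ℂ} (h : TEquiv A B) (h' : TEquiv B C) :
    TEquiv A C := by
  obtain ⟨t, ht, h⟩ := h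
  obtain ⟨t', ht', h'⟩ := h'
  refine ⟨fun i => t i * t' i, fun i => mul_ne_zero (ht i) (ht' i), ?_⟩
  rw [h, h']
  change Submodule.map (dg N t) (Submodule.map (dg N t') (EC.rspan C)) = _
  rw [← Submodule.map_comp, dg_comp]

end Pool.Tw.Sl
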