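import Pool.Agent.ML14.Defs

/-!
# Definitions for the formula for the ML degree

Euler characteristics of constructible sets, reduced echelon matrices, rank functions of linear
forms and their beta invariants, representatives of linear spaces up to scaling.
-/

set_option autoImplicit false

namespace Pool.MLF

/-! ### Euler characteristics -/

open Classical in
/-- The Euler integral over the line of a function `f` which has the same value `g` off a finite
set: `g + ∑ (f t - g)`, because the line has Euler characteristic `1`. -/
noncomputable def lineInt (f : ℂ → ℤ) : ℤ :=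
  if h : ∃ g : ℤ, {t | f t ≠ g}.Finite then h.choose + ∑ᶠ t, (f t - h.choose) else 0

/-- The iterated Euler integral over `ℂ ^ k`. -/
noncomputable def eulerInt : (k : ℕ) → ((Fin k → ℂ) → ℤ) → ℤ
  | 0, f => f Fin.elim0
  | k + 1, f => lineInt (fun t => eulerInt k (fun x => f (Fin.cons t x)))

open Classical in
/-- The Euler characteristic of a constructible subset of `ℂ ^ k`: the iterated Euler integral of
its indicator function. -/
noncomputable def chi (k : ℕ) (S : Set (Fin k → ℂ)) : ℤ :=
  eulerInt k (fun x => if x ∈ S then 1 else 0)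

/-- Constructible sets: the smallest family of sets which contains the zero sets of the polynomials
and is closed under complements and unions. -/
inductive Constructible {ι : Type} : Set (ι → ℂ) → Prop
  | zero (p : MvPolynomial ι ℂ) : Constructible {x | MvPolynomial.eval x p = 0}
  | compl (S : Set (ι → ℂ)) : Constructible S → Constructible Sᶜ
  | union (S T : Set (ι → ℂ)) : Constructible S → Constructible T → Constructible (S ∪ T)

/-! ### Linear spaces and matroids -/

/-- `A` is a reduced echelon matrix with `r` non-zero rows; `p j` is the pivot of the row `j`. -/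
def IsEchelon {r m : ℕ} (A : Fin r × Fin m → ℂ) : Prop :=
  ∃ p : Fin r → Fin m, StrictMono p ∧ ∀ j, A (j, p j) = 1 ∧ (∀ i < p j, A (j, i) = 0) ∧
    ∀ l, l ≠ j → A (j, p l) = 0

/-- The row space of a matrix. -/
def rowSpace {r m : ℕ} (A : Fin r × Fin m → ℂ) : Submodule ℂ (Fin m → ℂ) :=
  Submodule.span ℂ (Set.range fun (j : Fin r) (i : Fin m) => A (j, i))

/-- The rank function of the linear forms `φ e` on the space `L`: the rank of a set `J` of forms is
the dimension of the image of `L` under them. -/
noncomputable def rankOn {m : ℕ} {E : Type} (φ : E → ((Fin m → ℂ) →ₗ[ℂ] ℂ))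
    (L : Submodule ℂ (Fin m → ℂ)) (J : Finset E) : ℕ :=
  Module.finrank ℂ (L.map (LinearMap.pi fun j : {j // j ∈ J} => φ j))

/-- The coordinates. -/
def coords (m : ℕ) (i : Fin m) : (Fin m → ℂ) →ₗ[ℂ] ℂ := LinearMap.proj i

/-- The coordinates and their sum. -/
noncomputable def coordsAndSum (m : ℕ) : Option (Fin m) → ((Fin m → ℂ) →ₗ[ℂ] ℂ)
  | none => ∑ i, LinearMap.proj i
  | some i => LinearMap.proj i

/-- Crapo's beta invariant of a rank function of rank `r`. -/
def crapoBeta {E : Type} [Fintype E] (r : ℕ) (ρ : Finset E → ℕ) : ℤ :=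
  (-1) ^ r * ∑ J : Finset E, (-1) ^ J.card * (ρ J : ℤ)

/-- The row space of `A` is obtained from the row space of `B` by scaling the coordinates. -/
def ScalingEquiv {r N : ℕ} (A B : Fin r × Fin N → ℂ) : Prop :=
  ∃ t : Fin N → ℂ, (∀ i, t i ≠ 0) ∧
    rowSpace A = (rowSpace B).map (LinearMap.pi fun i => t i • LinearMap.proj i)

/-- `Y` is a constructible set of reduced echelon matrices which represent, each exactly once, the
`r`-dimensional subspaces of `ℂ ^ N` with non-zero beta invariant up to scaling of the
coordinates. -/
def IsRepresentatives {r N : ℕ} (Y : Set (Fin r × Fin N → ℂ)) : Prop :=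
  Constructible Y ∧
    (∀ A ∈ Y, IsEchelon A ∧ crapoBeta r (rankOn (coords N) (rowSpace A)) ≠ 0) ∧
    ∀ A : Fin r × Fin N → ℂ, IsEchelon A → crapoBeta r (rankOn (coords N) (rowSpace A)) ≠ 0 →
      ∃! B, B ∈ Y ∧ ScalingEquiv A B

end Pool.MLF
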