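import Pool.Agent.Tw.SymCF

/-!
# Sums over strata
-/

set_option autoImplicit false
set_option linter.unusedSectionVars false

namespace Pool.Tw

open EC

/-- The Euler integral of a function of a function with finitely many values. -/
theorem E_levels {ι α : Type} [Fintype ι] {S : Set (ι → ℂ)} (hS : Cons S)
    {f : (ι → ℂ) → α} (hf : (Set.range f).Finite) (hl : ∀ a, Cons {x | f x = a}) (φ : α → ℤ) :
    E (fun x => ind S x * φ (f x)) = ∑ᶠ a : α, φ a * E (ind {x | x ∈ S ∧ f x = a}) := by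
  classical
  have hSb : ∀ b, Cons {x | x ∈ S ∧ f x = b} := fun b => hS.inter (hl b)
  have h1 : (fun x => ind S x * φ (f x)) =
      fun x => ∑ b ∈ hf.toFinset, φ b * ind {x | x ∈ S ∧ f x = b} x := by
    ext x
    rw [Finset.sum_eq_single (f x)]
    · by_cases h : x ∈ S
      · rw [ind_one h, ind_one (S := {y | y ∈ S ∧ f y = f x}) ⟨h, rfl⟩]
        ring
      · rw [ind_zero h, ind_zero (S := {y | y ∈ S ∧ f y = f x}) (fun h' => h h'.1)]
        ring
    · intro b _ hb
      rw [ind_zero (S := {x | x ∈ S ∧ f x = b}) (fun h => hb h.2.symm), mul_zero]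
    · intro h
      exact absurd (hf.mem_toFinset.2 ⟨x, rfl⟩) h
  rw [h1, E_fsum _ fun b _ => (CF.of_cons (hSb b)).comp₁ (fun a => φ b * a)]
  rw [finsum_eq_sum_of_support_subset (s := hf.toFinset)]
  · exact Finset.sum_congr rfl fun b _ => E_mul _ (CF.of_cons (hSb b))
  · intro b hb
    rw [Set.Finite.coe_toFinset]
    by_contra hc
    refine hb ?_
    have h2 : ind {x | x ∈ S ∧ f x = b} = fun _ => 0 := by
      ext x
      exact ind_zero fun h => hc ⟨x, h.2⟩
    change φ b * E (ind {x | x ∈ S ∧ f x = b}) = 0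
    rw [h2, E_const, mul_zero]

/-- The rank function of the coordinates on `L`: the dimension of the image of `L` under the
coordinates in `J`. -/
noncomputable def rkC {N : ℕ} (L : Submodule ℂ (Fin N → ℂ)) (J : Finset (Fin N)) : ℕ :=
  Module.finrank ℂ (L.map (LinearMap.pi fun j : J => LinearMap.proj j.1))

/-- Crapo's beta invariant of a rank function of rank `r`. -/
def crapo {N : ℕ} (r : ℕ) (ρ : Finset (Fin N) → ℕ) : ℤ :=
  (-1) ^ r * ∑ J : Finset (Fin N), (-1) ^ J.card * (ρ J : ℤ)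

theorem betaC_eq {N : ℕ} (L : Submodule ℂ (Fin N → ℂ)) :
    betaC L = crapo (Module.finrank ℂ L) (rkC L) := rfl

theorem rkC_le {N : ℕ} (L : Submodule ℂ (Fin N → ℂ)) (J : Finset (Fin N)) : rkC L J ≤ N := by
  unfold rkC
  refine (Submodule.finrank_map_le _ _).trans ?_
  simpa using Submodule.finrank_le L

/-- The sets of the matrices whose row space has a given rank function. -/
theorem cons_rk {r N : ℕ} (ρ : Finset (Fin N) → ℕ) :
    Cons {A : Fin r × Fin N → ℂ | rkC (rspan A) = ρ} := by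
  have h2 : {A : Fin r × Fin N → ℂ | rkC (rspan A) = ρ} =
      ⋂ J : Finset (Fin N), {A | rkC (rspan A) J = ρ J} := by
    ext A
    simp only [Set.mem_iInter]
    exact funext_iff
  rw [h2]
  exact Cons.iInter fun J => cons_rkC J (ρ J)

/-- The formula with representatives as a sum over the matroids. -/
theorem strata {r N : ℕ} (n : ℕ) {Y : Set (Fin r × Fin N → ℂ)} (hY : Cons Y)
    (hYr : ∀ A ∈ Y, A ∈ RE ℂ r N) (hb : CF (fun A : Fin r × Fin N → ℂ => betaC (rspan A))) :
    ∑ᶠ b : ℤ, b ^ n * E (ind {A : Fin r × Fin N → ℂ | A ∈ Y ∧ betaC (rspan A) = b}) =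
      ∑ᶠ ρ : Finset (Fin N) → ℕ, crapo r ρ ^ n *
        E (ind {A : Fin r × Fin N → ℂ | A ∈ Y ∧ rkC (rspan A) = ρ}) := by
  classical
  rw [← E_levels hY hb.1 hb.2 (fun b => b ^ n)]
  have hfin : (Set.range fun A : Fin r × Fin N → ℂ => rkC (rspan A)).Finite := by
    have h1 : {ρ : Finset (Fin N) → ℕ | ∀ J, ρ J ∈ Set.Iic N}.Finite :=
      Set.Finite.pi' fun _ => Set.finite_Iic N
    refine h1.subset ?_
    rintro ρ ⟨A, rfl⟩ J
    exact rkC_le _ J
  rw [← E_levels hY hfin cons_rk (fun ρ => crapo r ρ ^ n)]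
  congr 1
  ext A
  by_cases hA : A ∈ Y
  · rw [betaC_eq, finrank_rspan (RE_subset_Fr (hYr A hA))]
  · rw [ind_zero hA]
    ring

/-- The integral in any order of the coordinates. -/
theorem E_order (h2 : Swap2 ℂ) {ι : Type} [Fintype ι] {k : ℕ} (e : ι ≃ Fin k)
    {S : Set (ι → ℂ)} (hS : Cons S) : E (ind S) = chi k {x : Fin k → ℂ | x ∘ e ∈ S} := by
  rw [E_eq h2 e (CF.of_cons hS)]
  rfl

end Pool.Tw
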