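import Pool.Agent.Tw.SymDefs

/-!
# The beta invariant: scaling, decomposition, stabilisers
-/

set_option autoImplicit false
set_option linter.unusedSectionVars false

namespace Pool.Tw

open Matrix

/-- Multiplication of the coordinates. -/
noncomputable def dg {N : ℕ} (t : Fin N → ℂ) : (Fin N → ℂ) →ₗ[ℂ] (Fin N → ℂ) :=
  LinearMap.pi fun i => t i • LinearMap.proj i

theorem dg_apply {N : ℕ} (t x : Fin N → ℂ) (i : Fin N) : dg t x i = t i * x i := rfl

/-- The projection to the coordinates in `J`. -/
noncomputable def pj {N : ℕ} (J : Finset (Fin N)) : (Fin N → ℂ) →ₗ[ℂ] (J → ℂ) :=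
  LinearMap.pi fun j : J => LinearMap.proj j.1

theorem pj_eq_zero {N : ℕ} {J : Finset (Fin N)} {x : Fin N → ℂ} :
    pj J x = 0 ↔ ∀ j ∈ J, x j = 0 := by
  rw [funext_iff]
  constructor
  · intro h j hj
    exact h ⟨j, hj⟩
  · intro h j
    exact h j.1 j.2

theorem betaC_def {N : ℕ} (L : Submodule ℂ (Fin N → ℂ)) : betaC L =
    (-1) ^ Module.finrank ℂ L * ∑ J : Finset (Fin N), (-1) ^ J.card *
      (Module.finrank ℂ (L.map (pj J)) : ℤ) := rfl

theorem finrank_map_congr {V W W' : Type} [AddCommGroup V] [Module ℂ V] [FiniteDimensional ℂ V]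
    [AddCommGroup W] [Module ℂ W] [AddCommGroup W'] [Module ℂ W'] (L : Submodule ℂ V)
    (f : V →ₗ[ℂ] W) (g : V →ₗ[ℂ] W') (h : ∀ x ∈ L, f x = 0 ↔ g x = 0) :
    Module.finrank ℂ (L.map f) = Module.finrank ℂ (L.map g) := by
  have h1 := EC.finrank_map_add L f
  have h2 := EC.finrank_map_add L g
  have h3 : (L ⊓ LinearMap.ker f : Submodule ℂ V) = L ⊓ LinearMap.ker g := by
    ext x
    simp only [Submodule.mem_inf, LinearMap.mem_ker]
    exact and_congr_right fun hx => h x hx
  rw [h3] at h1
  omega

theorem finrank_map_inj {V W : Type} [AddCommGroup V] [Module ℂ V] [FiniteDimensional ℂ V]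
    [AddCommGroup W] [Module ℂ W] (L : Submodule ℂ V) (f : V →ₗ[ℂ] W)
    (hf : Function.Injective f) : Module.finrank ℂ (L.map f) = Module.finrank ℂ L := by
  have h1 := finrank_map_congr L f LinearMap.id (fun x _ => by
    rw [LinearMap.id_apply, map_eq_zero_iff f hf])
  rw [h1, Submodule.map_id]

theorem dg_injective {N : ℕ} {t : Fin N → ℂ} (ht : ∀ i, t i ≠ 0) : Function.Injective (dg t) := by
  intro x y h
  funext i
  exact mul_left_cancel₀ (ht i) (congrFun h i)

/-- The beta invariant does not change if the coordinates are multiplied by nonzero numbers. -/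
theorem betaC_dg {N : ℕ} (L : Submodule ℂ (Fin N → ℂ)) {t : Fin N → ℂ} (ht : ∀ i, t i ≠ 0) :
    betaC (L.map (dg t)) = betaC L := by
  rw [betaC_def, betaC_def, finrank_map_inj L _ (dg_injective ht)]
  congr 1
  refine Finset.sum_congr rfl fun J _ => ?_
  rw [← Submodule.map_comp]
  congr 2
  refine finrank_map_congr L _ _ fun x _ => ?_
  rw [LinearMap.comp_apply, pj_eq_zero, pj_eq_zero]
  refine forall_congr' fun j => forall_congr' fun _ => ?_
  rw [dg_apply, mul_eq_zero, or_iff_right (ht j)]

/-- Add the negative of the sum as the last coordinate. -/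
noncomputable def extL (m : ℕ) : (Fin m → ℂ) →ₗ[ℂ] (Fin (m + 1) → ℂ) :=
  LinearMap.pi fun i => Fin.lastCases (motive := fun _ => (Fin m → ℂ) →ₗ[ℂ] ℂ)
    (-∑ j, LinearMap.proj j) (fun j => LinearMap.proj j) i

theorem extL_last {m : ℕ} (x : Fin m → ℂ) : extL m x (Fin.last m) = -∑ j, x j := by
  simp [extL]

theorem extL_castSucc {m : ℕ} (x : Fin m → ℂ) (i : Fin m) : extL m x i.castSucc = x i := by
  simp [extL]

theorem extL_injective (m : ℕ) : Function.Injective (extL m) := by
  intro x y h
  funext i
  rw [← extL_castSucc x i, ← extL_castSucc y i, h]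

theorem extL_sum {m : ℕ} (x : Fin m → ℂ) : ∑ i, extL m x i = 0 := by
  rw [Fin.sum_univ_castSucc, extL_last]
  simp only [extL_castSucc]
  ring

theorem exists_extL {m : ℕ} (y : Fin (m + 1) → ℂ) (hy : ∑ i, y i = 0) :
    ∃ x, extL m x = y := by
  refine ⟨fun i => y i.castSucc, ?_⟩
  funext i
  refine Fin.lastCases ?_ (fun i => ?_) i
  · rw [extL_last]
    rw [Fin.sum_univ_castSucc] at hy
    linear_combination -hy
  · rw [extL_castSucc]

/-- The beta invariant of the arrangement. -/
theorem betaC_ext {m : ℕ} (L : Submodule ℂ (Fin m → ℂ)) :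
    betaC (L.map (extL m)) = EC.beta L := by
  rw [betaC_def, EC.beta, finrank_map_inj L _ (extL_injective m)]
  congr 1
  refine (Fintype.sum_equiv (finSuccEquivLast (n := m)).symm.finsetCongr _ _ fun J => ?_).symm
  have h1 : ((finSuccEquivLast (n := m)).symm.finsetCongr J).card = J.card := by
    rw [Equiv.finsetCongr_apply, Finset.card_map]
  rw [h1, ← Submodule.map_comp, EC.rk]
  congr 2
  refine finrank_map_congr L _ _ fun x _ => ?_
  rw [LinearMap.comp_apply, pj_eq_zero, funext_iff, Equiv.finsetCongr_apply]
  constructor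
  · intro h a ha
    obtain ⟨b, hb, rfl⟩ := Finset.mem_map.mp ha
    have h2 : EC.fn ℂ m b x = 0 := h ⟨b, hb⟩
    rcases b with _ | b
    · change extL m x ((finSuccEquivLast (n := m)).symm none) = 0
      rw [finSuccEquivLast_symm_none, extL_last]
      have h3 : EC.fn ℂ m none x = ∑ j, x j := by
        simp [EC.fn]
      rw [← h3, h2, neg_zero]
    · change extL m x ((finSuccEquivLast (n := m)).symm (some b)) = 0
      rw [finSuccEquivLast_symm_some, extL_castSucc]
      exact h2
  · rintro h ⟨b, hb⟩
    have h2 := h _ (Finset.mem_map_of_mem _ hb)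
    change EC.fn ℂ m b x = 0
    rcases b with _ | b
    · change extL m x ((finSuccEquivLast (n := m)).symm none) = 0 at h2
      rw [finSuccEquivLast_symm_none, extL_last] at h2
      have h3 : EC.fn ℂ m none x = ∑ j, x j := by
        simp [EC.fn]
      rw [h3]
      exact neg_eq_zero.mp h2
    · change extL m x ((finSuccEquivLast (n := m)).symm (some b)) = 0 at h2
      rw [finSuccEquivLast_symm_some, extL_castSucc] at h2
      exact h2

/-- A space which is the sum of its parts supported on `S` and on the complement of `S` has beta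
invariant zero. -/
theorem betaC_split {N : ℕ} (L : Submodule ℂ (Fin N → ℂ)) (S : Finset (Fin N)) (a b : Fin N)
    (ha : a ∈ S) (hb : b ∉ S) (h : ∀ x ∈ L, (fun i => if i ∈ S then x i else 0) ∈ L) :
    betaC L = 0 := by
  classical
  rw [betaC_def]
  have hsum : ∑ J : Finset (Fin N), (-1 : ℤ) ^ J.card *
      (Module.finrank ℂ (L.map (pj J)) : ℤ) = 0 := by
    let P : Submodule ℂ (Fin N → ℂ) := LinearMap.ker (pj Sᶜ)
    let P' : Submodule ℂ (Fin N → ℂ) := LinearMap.ker (pj S)
    let F : Finset (Fin N) → ℤ := fun J =>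
      (Module.finrank ℂ ((L ⊓ LinearMap.ker (pj J)) ⊓ P : Submodule ℂ (Fin N → ℂ)) : ℤ)
    let G : Finset (Fin N) → ℤ := fun J =>
      (Module.finrank ℂ ((L ⊓ LinearMap.ker (pj J)) ⊓ P' : Submodule ℂ (Fin N → ℂ)) : ℤ)
    have hF : ∀ J, F (insert b J) = F J := by
      intro J
      have h1 : ((L ⊓ LinearMap.ker (pj (insert b J))) ⊓ P : Submodule ℂ (Fin N → ℂ)) =
          (L ⊓ LinearMap.ker (pj J)) ⊓ P := by
        ext x
        simp only [P, Submodule.mem_inf, LinearMap.mem_ker, pj_eq_zero, Finset.mem_insert,
          forall_eq_or_imp, Finset.mem_compl]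
        constructor
        · rintro ⟨⟨h1, -, h2⟩, h3⟩
          exact ⟨⟨h1, h2⟩, h3⟩
        · rintro ⟨⟨h1, h2⟩, h3⟩
          exact ⟨⟨h1, h3 b hb, h2⟩, h3⟩
      simp only [F]
      rw [h1]
    have hG : ∀ J, G (insert a J) = G J := by
      intro J
      have h1 : ((L ⊓ LinearMap.ker (pj (insert a J))) ⊓ P' : Submodule ℂ (Fin N → ℂ)) =
          (L ⊓ LinearMap.ker (pj J)) ⊓ P' := by
        ext x
        simp only [P', Submodule.mem_inf, LinearMap.mem_ker, pj_eq_zero, Finset.mem_insert,
          forall_eq_or_imp]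
        constructor
        · rintro ⟨⟨h1, -, h2⟩, h3⟩
          exact ⟨⟨h1, h2⟩, h3⟩
        · rintro ⟨⟨h1, h2⟩, h3⟩
          exact ⟨⟨h1, h3 a ha, h2⟩, h3⟩
      simp only [G]
      rw [h1]
    have hR : ∀ J : Finset (Fin N), (Module.finrank ℂ (L.map (pj J)) : ℤ) =
        (Module.finrank ℂ L : ℤ) - F J - G J := by
      intro J
      have h1 := EC.finrank_map_add L (pj J)
      let t : Fin N → ℂ := fun i => if i ∈ S then 1 else 0
      have h2 := EC.finrank_map_add (L ⊓ LinearMap.ker (pj J)) (dg t)
      have h3 : (L ⊓ LinearMap.ker (pj J)).map (dg t) = (L ⊓ LinearMap.ker (pj J)) ⊓ P := by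
        ext y
        simp only [P, Submodule.mem_map, Submodule.mem_inf, LinearMap.mem_ker, pj_eq_zero,
          Finset.mem_compl]
        constructor
        · rintro ⟨x, ⟨hx1, hx2⟩, rfl⟩
          refine ⟨⟨?_, fun j hj => ?_⟩, fun j hj => ?_⟩
          · have h4 := h x hx1
            have h5 : dg t x = fun i => if i ∈ S then x i else 0 := by
              funext i
              rw [dg_apply]
              simp only [t]
              split_ifs <;> simp
            rw [h5]
            exact h4
          · rw [dg_apply, hx2 j hj, mul_zero]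
          · rw [dg_apply]
            simp only [t]
            rw [if_neg hj, zero_mul]
        · rintro ⟨⟨hy1, hy2⟩, hy3⟩
          refine ⟨y, ⟨hy1, hy2⟩, ?_⟩
          funext i
          rw [dg_apply]
          simp only [t]
          split_ifs with hi
          · rw [one_mul]
          · rw [zero_mul, hy3 i hi]
      have h4 : ((L ⊓ LinearMap.ker (pj J)) ⊓ LinearMap.ker (dg t) :
          Submodule ℂ (Fin N → ℂ)) = (L ⊓ LinearMap.ker (pj J)) ⊓ P' := by
        ext y
        simp only [P', Submodule.mem_inf, LinearMap.mem_ker, pj_eq_zero]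
        refine and_congr_right fun _ => ?_
        rw [funext_iff]
        constructor
        · intro h5 j hj
          have h6 := h5 j
          rw [dg_apply] at h6
          simp only [t, if_pos hj, one_mul] at h6
          exact h6
        · intro h5 j
          rw [dg_apply]
          simp only [t]
          split_ifs with hj
          · rw [h5 j hj]
            simp
          · simp
      rw [h3, h4] at h2
      simp only [F, G]
      omega
    have e1 := EC.sum_insert_eq_zero a (fun _ => (Module.finrank ℂ L : ℤ))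
    have e2 := EC.sum_insert_eq_zero b F
    have e3 := EC.sum_insert_eq_zero a G
    simp only [hF] at e2
    simp only [hG] at e3
    simp only [hR, mul_sub, Finset.sum_sub_distrib, e1, e2, e3, sub_zero]
  rw [hsum, mul_zero]

/-- The stabiliser of a space with nonzero beta invariant consists of the scalars. -/
theorem stab_scalar {N : ℕ} (L : Submodule ℂ (Fin N → ℂ)) (hL : betaC L ≠ 0) (s : Fin N → ℂ)
    (hs : ∀ x ∈ L, dg s x ∈ L) (i j : Fin N) : s i = s j := by
  classical
  by_contra hij
  apply hL
  let S : Finset (Fin N) := Finset.univ.filter fun k => s k = s i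
  have hiS : i ∈ S := Finset.mem_filter.mpr ⟨Finset.mem_univ _, rfl⟩
  have hjS : j ∉ S := fun h => hij (Finset.mem_filter.mp h).2.symm
  refine betaC_split L S i j hiS hjS ?_
  have key : ∀ p : Polynomial ℂ, ∀ x ∈ L, (fun k => p.eval (s k) * x k) ∈ L := by
    intro p
    induction p using Polynomial.induction_on' with
    | add p q hp hq =>
      intro x hx
      have h1 := L.add_mem (hp x hx) (hq x hx)
      convert h1 using 1
      funext k
      rw [Polynomial.eval_add, add_mul]
      rfl
    | monomial n a =>
      intro x hx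
      have h1 : ∀ n : ℕ, (fun k => s k ^ n * x k) ∈ L := by
        intro n
        induction n with
        | zero =>
          convert hx using 1
          funext k
          rw [pow_zero, one_mul]
        | succ n ih =>
          have h2 := hs _ ih
          convert h2 using 1
          funext k
          rw [dg_apply, pow_succ]
          ring
      have h2 := L.smul_mem a (h1 n)
      convert h2 using 1
      funext k
      rw [Polynomial.eval_monomial, Pi.smul_apply, smul_eq_mul, mul_assoc]
  intro x hx
  have h1 := key (∏ k ∈ Sᶜ, (Polynomial.C (s i - s k)⁻¹ * (Polynomial.X - Polynomial.C (s k)))) x hx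
  convert h1 using 1
  funext k
  rw [Polynomial.eval_prod]
  by_cases hk : k ∈ S
  · rw [if_pos hk, Finset.prod_eq_one, one_mul]
    intro l hl
    have hk' : s k = s i := (Finset.mem_filter.mp hk).2
    have hl' : s i - s l ≠ 0 := by
      intro h2
      apply Finset.mem_compl.mp hl
      exact Finset.mem_filter.mpr ⟨Finset.mem_univ _, (sub_eq_zero.mp h2).symm⟩
    rw [Polynomial.eval_mul, Polynomial.eval_C, Polynomial.eval_sub, Polynomial.eval_X,
      Polynomial.eval_C, hk', inv_mul_cancel₀ hl']
  · rw [if_neg hk, Finset.prod_eq_zero (Finset.mem_compl.mpr hk), zero_mul]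
    simp

end Pool.Tw
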