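import Pool.Agent.EC.Dual
import Pool.Agent.Tw.SymLin

/-!
# The points without zero coordinate in a chart of the orthogonal space

The Euler characteristic of the set of the vectors orthogonal to `B` which have no zero coordinate
and where one given coordinate is one is, up to sign, the beta invariant of `B`.
-/

set_option autoImplicit false
set_option linter.unusedSectionVars false

namespace Pool.Tw

open Classical

/-- The increment of the rank. -/
theorem rkC_insert {N : ℕ} (L : Submodule ℂ (Fin N → ℂ)) (I : Finset (Fin N)) (a : Fin N) :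
    (Module.finrank ℂ (L.map (pj (insert a I))) : ℤ) = Module.finrank ℂ (L.map (pj I)) +
      if ∃ q ∈ L, q a = 1 ∧ ∀ b ∈ I, q b = 0 then 1 else 0 := by
  have h1 := EC.finrank_map_add L (pj I)
  have h2 := EC.finrank_map_add L (pj (insert a I))
  have h3 := EC.finrank_map_add (L ⊓ LinearMap.ker (pj I))
    (LinearMap.proj a : (Fin N → ℂ) →ₗ[ℂ] ℂ)
  have h4 : ((L ⊓ LinearMap.ker (pj I)) ⊓ LinearMap.ker (LinearMap.proj a :
      (Fin N → ℂ) →ₗ[ℂ] ℂ) : Submodule ℂ (Fin N → ℂ)) = L ⊓ LinearMap.ker (pj (insert a I)) := by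
    ext x
    simp only [Submodule.mem_inf, LinearMap.mem_ker, pj_eq_zero, Finset.mem_insert,
      forall_eq_or_imp, LinearMap.proj_apply]
    tauto
  rw [h4] at h3
  have h5 : Module.finrank ℂ ((L ⊓ LinearMap.ker (pj I)).map
      (LinearMap.proj a : (Fin N → ℂ) →ₗ[ℂ] ℂ)) =
      if ∃ q ∈ L, q a = 1 ∧ ∀ b ∈ I, q b = 0 then 1 else 0 := by
    by_cases h : ∃ q ∈ L, q a = 1 ∧ ∀ b ∈ I, q b = 0
    · rw [if_pos h]
      obtain ⟨p, hp, hp1, hp2⟩ := h
      have h6 : (L ⊓ LinearMap.ker (pj I)).map (LinearMap.proj a : (Fin N → ℂ) →ₗ[ℂ] ℂ) = ⊤ := by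
        rw [Submodule.eq_top_iff']
        intro t
        refine ⟨t • p, Submodule.smul_mem _ t ⟨hp, ?_⟩, ?_⟩
        · exact LinearMap.mem_ker.mpr (pj_eq_zero.mpr hp2)
        · rw [map_smul, LinearMap.proj_apply, hp1, smul_eq_mul, mul_one]
      rw [h6, finrank_top, Module.finrank_self]
    · rw [if_neg h]
      have h6 : (L ⊓ LinearMap.ker (pj I)).map (LinearMap.proj a : (Fin N → ℂ) →ₗ[ℂ] ℂ) = ⊥ := by
        rw [Submodule.eq_bot_iff]
        rintro _ ⟨p, hp, rfl⟩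
        obtain ⟨hp1, hp2⟩ := hp
        have hp3 : ∀ b ∈ I, p b = 0 := pj_eq_zero.mp (LinearMap.mem_ker.mp hp2)
        by_contra h7
        refine h ⟨(p a)⁻¹ • p, L.smul_mem _ hp1, ?_, ?_⟩
        · exact inv_mul_cancel₀ h7
        · intro b hb
          rw [Pi.smul_apply, hp3 b hb, smul_zero]
      rw [h6, finrank_bot]
  have h6 : Module.finrank ℂ (L.map (pj (insert a I))) = Module.finrank ℂ (L.map (pj I)) +
      Module.finrank ℂ ((L ⊓ LinearMap.ker (pj I)).map
        (LinearMap.proj a : (Fin N → ℂ) →ₗ[ℂ] ℂ)) := by omega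
  rw [h6, h5]
  push_cast
  rfl

/-- The alternative. -/
theorem alternativeC {N : ℕ} (B : Submodule ℂ (Fin N → ℂ)) (i0 : Fin N) (J : Finset (Fin N)) :
    (∃ x, x ∈ EC.perp B ∧ x i0 = 1 ∧ ∀ i ∈ J, x i = 0) ↔
      ¬ ∃ q ∈ B, ∀ i ∉ J, q i = if i = i0 then 1 else 0 := by
  constructor
  · rintro ⟨x, h1, h2, h3⟩ ⟨q, hq, h4⟩
    have h5 := h1 q hq
    have h6 : ∑ i, x i * q i = ∑ i, x i * (if i = i0 then 1 else 0) := by
      refine Finset.sum_congr rfl fun i _ => ?_
      by_cases hi : i ∈ J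
      · rw [h3 i hi, zero_mul, zero_mul]
      · rw [h4 i hi]
    rw [h6] at h5
    simp only [mul_ite, mul_one, mul_zero, Finset.sum_ite_eq', Finset.mem_univ, if_true] at h5
    rw [h2] at h5
    exact one_ne_zero h5
  · intro h
    let V : Submodule ℂ (Fin N → ℂ) := B ⊔ Submodule.span ℂ (Set.range fun i : {i // i ∈ J} =>
      (Pi.single i.1 1 : Fin N → ℂ))
    have h1 : (Pi.single i0 1 : Fin N → ℂ) ∉ V := by
      intro h2
      obtain ⟨q, hq, y, hy, h3⟩ := Submodule.mem_sup.1 h2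
      refine h ⟨q, hq, fun i hi => ?_⟩
      have h4 : y i = 0 := by
        have h5 : Submodule.span ℂ (Set.range fun i : {i // i ∈ J} =>
            (Pi.single i.1 1 : Fin N → ℂ)) ≤ LinearMap.ker (LinearMap.proj i) := by
          rw [Submodule.span_le]
          rintro _ ⟨j, rfl⟩
          show (Pi.single j.1 1 : Fin N → ℂ) i = 0
          rw [Pi.single_apply, if_neg]
          rintro rfl
          exact hi j.2
        exact h5 hy
      have h5 := congrFun h3 i
      rw [Pi.add_apply, h4, add_zero, Pi.single_apply] at h5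
      exact h5
    obtain ⟨f, hf, hfN⟩ := Submodule.exists_dual_map_eq_bot_of_notMem h1 inferInstance
    have hfN' : ∀ y ∈ V, f y = 0 := by
      intro y hy
      have : f y ∈ V.map f := Submodule.mem_map_of_mem hy
      rw [hfN, Submodule.mem_bot] at this
      exact this
    have hfe : ∀ y : Fin N → ℂ, f y = ∑ i, f (Pi.single i 1) * y i := by
      intro y
      rw [LinearMap.pi_apply_eq_sum_univ f y]
      refine Finset.sum_congr rfl fun i _ => ?_
      rw [smul_eq_mul, mul_comm]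
      congr 2
      ext j
      simp [Pi.single_apply, eq_comm]
    refine ⟨fun i => (f (Pi.single i0 1))⁻¹ * f (Pi.single i 1), fun q hq => ?_,
      inv_mul_cancel₀ hf, fun i hi => ?_⟩
    · have h2 := hfN' q (Submodule.mem_sup_left hq)
      rw [hfe] at h2
      have h3 : ∑ i, (f (Pi.single i0 1))⁻¹ * f (Pi.single i 1) * q i =
          (f (Pi.single i0 1))⁻¹ * ∑ i, f (Pi.single i 1) * q i := by
        rw [Finset.mul_sum]
        exact Finset.sum_congr rfl fun i _ => mul_assoc _ _ _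
      rw [h3, h2, mul_zero]
    · have h2 : f (Pi.single i 1) = 0 :=
        hfN' _ (Submodule.mem_sup_right (Submodule.subset_span ⟨⟨i, hi⟩, rfl⟩))
      show (f (Pi.single i0 1))⁻¹ * f (Pi.single i 1) = 0
      rw [h2, mul_zero]

/-- The solvability of the complementary system in terms of ranks. -/
theorem solvC {N : ℕ} (B : Submodule ℂ (Fin N → ℂ)) (i0 : Fin N) (I : Finset (Fin N)) :
    (if ∃ q ∈ B, ∀ i ∈ I, q i = if i = i0 then 1 else 0 then (1 : ℤ) else 0) =
      Module.finrank ℂ (B.map (pj I)) - Module.finrank ℂ (B.map (pj (I.erase i0))) +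
        if i0 ∈ I then 0 else 1 := by
  by_cases hi : i0 ∈ I
  · have h1 := rkC_insert B (I.erase i0) i0
    rw [Finset.insert_erase hi] at h1
    rw [if_pos hi, h1, add_zero, add_sub_cancel_left]
    congr 1
    apply propext
    refine exists_congr fun q => and_congr_right fun _ => ?_
    constructor
    · intro h
      refine ⟨?_, fun b hb => ?_⟩
      · rw [h i0 hi, if_pos rfl]
      · rw [h b (Finset.mem_of_mem_erase hb), if_neg (Finset.ne_of_mem_erase hb)]
    · rintro ⟨h2, h3⟩ i hi'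
      by_cases h4 : i = i0
      · rw [if_pos h4, h4, h2]
      · rw [if_neg h4, h3 i (Finset.mem_erase.mpr ⟨h4, hi'⟩)]
  · rw [if_neg hi, Finset.erase_eq_of_notMem hi, sub_self, zero_add, if_pos]
    refine ⟨0, B.zero_mem, fun i hi' => ?_⟩
    rw [if_neg]
    · rfl
    · rintro rfl
      exact hi hi'

/-- The Euler characteristic of the set of the vectors orthogonal to `B` which have no zero
coordinate and where the coordinate `i0` is one. -/
theorem E_perp {N : ℕ} (hN : 2 ≤ N) (B : Submodule ℂ (Fin N → ℂ)) (i0 : Fin N) :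
    EC.E (EC.ind {x : Fin N → ℂ | (∀ b ∈ B, ∑ i, b i * x i = 0) ∧ x i0 = 1 ∧ ∀ i, x i ≠ 0}) =
      (-1) ^ (N + 1 + Module.finrank ℂ B) * betaC B := by
  have h1 := EC.E_ie (K := ℂ) ((EC.perp B).mkQ.prod (LinearMap.proj i0))
    ((0 : (Fin N → ℂ) ⧸ EC.perp B), (1 : ℂ)) (fun i : Fin N => LinearMap.proj i) (fun _ => 0)
  have h2 : ∀ x : Fin N → ℂ, ((EC.perp B).mkQ.prod (LinearMap.proj i0)) x =
      ((0 : (Fin N → ℂ) ⧸ EC.perp B), (1 : ℂ)) ↔ x ∈ EC.perp B ∧ x i0 = 1 := by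
    intro x
    show ((EC.perp B).mkQ x, x i0) = ((0 : (Fin N → ℂ) ⧸ EC.perp B), (1 : ℂ)) ↔ _
    rw [Prod.mk.injEq, Submodule.mkQ_apply, Submodule.Quotient.mk_eq_zero]
  simp only [h2, LinearMap.proj_apply, and_assoc] at h1
  have h3 : {x : Fin N → ℂ | (∀ b ∈ B, ∑ i, b i * x i = 0) ∧ x i0 = 1 ∧ ∀ i, x i ≠ 0} =
      {x | x ∈ EC.perp B ∧ x i0 = 1 ∧ ∀ i, x i ≠ 0} := by
    ext x
    show ((∀ b ∈ B, ∑ i, b i * x i = 0) ∧ x i0 = 1 ∧ ∀ i, x i ≠ 0) ↔
      ((∀ b ∈ B, ∑ i, x i * b i = 0) ∧ x i0 = 1 ∧ ∀ i, x i ≠ 0)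
    simp only [mul_comm]
  rw [h3, h1]
  have h4 : ∀ J : Finset (Fin N), (if ∃ x, x ∈ EC.perp B ∧ x i0 = 1 ∧ ∀ i ∈ J, x i = 0
      then (1 : ℤ) else 0) = 1 - (Module.finrank ℂ (B.map (pj Jᶜ)) -
        Module.finrank ℂ (B.map (pj (Jᶜ.erase i0))) + if i0 ∈ Jᶜ then 0 else 1) := by
    intro J
    rw [← solvC B i0 Jᶜ]
    have h5 := alternativeC B i0 J
    have h6 : (∃ q ∈ B, ∀ i ∈ Jᶜ, q i = if i = i0 then 1 else 0) ↔
        ∃ q ∈ B, ∀ i ∉ J, q i = if i = i0 then 1 else 0 := by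
      simp only [Finset.mem_compl]
    by_cases h7 : ∃ q ∈ B, ∀ i ∉ J, q i = if i = i0 then 1 else 0
    · rw [if_pos (h6.2 h7), if_neg (fun h => h5.1 h h7)]
      rfl
    · rw [if_neg (fun h => h7 (h6.1 h)), if_pos (h5.2 h7)]
      rfl
  simp only [h4]
  -- the sums which vanish
  have e1 : ∑ J : Finset (Fin N), (-1 : ℤ) ^ J.card = 0 := by
    have h := EC.sum_insert_eq_zero i0 (fun _ => 1)
    simp only [mul_one] at h
    exact h
  have e2 : ∑ J : Finset (Fin N), (-1 : ℤ) ^ J.card *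
      (Module.finrank ℂ (B.map (pj (J.erase i0))) : ℤ) = 0 := by
    let F : Finset (Fin N) → ℤ := fun J => (Module.finrank ℂ (B.map (pj (J.erase i0))) : ℤ)
    have hF : ∀ J, F (insert i0 J) = F J := by
      intro J
      have h' : (insert i0 J).erase i0 = J.erase i0 := by
        ext i
        simp only [Finset.mem_erase, Finset.mem_insert]
        tauto
      show (Module.finrank ℂ (B.map (pj ((insert i0 J).erase i0))) : ℤ) =
        Module.finrank ℂ (B.map (pj (J.erase i0)))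
      rw [h']
    have h := EC.sum_insert_eq_zero i0 F
    simp only [hF] at h
    exact h
  have e3 : ∑ J : Finset (Fin N), (-1 : ℤ) ^ J.card * (if i0 ∈ J then 0 else 1) = 0 := by
    obtain ⟨j, hj⟩ : ∃ j : Fin N, j ≠ i0 := by
      have : Nontrivial (Fin N) := Fin.nontrivial_iff_two_le.mpr hN
      exact exists_ne i0
    have h := EC.sum_insert_eq_zero j (fun J => if i0 ∈ J then 0 else 1)
    have h' : ∀ J : Finset (Fin N), i0 ∈ insert j J ↔ i0 ∈ J := by
      intro J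
      rw [Finset.mem_insert, or_iff_right (Ne.symm hj)]
    simp only [h'] at h
    exact h
  have e4 : ∀ F : Finset (Fin N) → ℤ, ∑ J : Finset (Fin N), (-1 : ℤ) ^ J.card * F Jᶜ =
      (-1) ^ N * ∑ J : Finset (Fin N), (-1 : ℤ) ^ J.card * F J := by
    intro F
    rw [Finset.mul_sum]
    refine Finset.sum_bij' (fun I _ => Iᶜ) (fun I _ => Iᶜ) (by simp) (by simp) (by simp) (by simp) ?_
    intro J _
    have h9 : J.card + Jᶜ.card = N := by
      rw [Finset.card_add_card_compl, Fintype.card_fin]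
    have h10 : (-1 : ℤ) ^ N * (-1) ^ Jᶜ.card = (-1) ^ J.card := by
      have h13 : ∀ a b : ℕ, a + b = N → (-1 : ℤ) ^ N * (-1) ^ b = (-1) ^ a := by
        intro a b hab
        rw [← hab, pow_add, mul_assoc, ← mul_pow]
        simp
      exact h13 _ _ h9
    rw [← mul_assoc, h10]
  have h5 := e4 (fun I => 1 - (Module.finrank ℂ (B.map (pj I)) -
    Module.finrank ℂ (B.map (pj (I.erase i0))) + if i0 ∈ I then 0 else 1))
  rw [h5]
  simp only [mul_sub, mul_add, mul_one, Finset.sum_sub_distrib, Finset.sum_add_distrib, e1, e2, e3]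
  rw [betaC_def, pow_add, pow_add]
  have h6 : (-1 : ℤ) ^ Module.finrank ℂ B * (-1) ^ Module.finrank ℂ B = 1 := by
    rw [← mul_pow]
    simp
  linear_combination (-1 : ℤ) ^ N * (∑ J : Finset (Fin N), (-1) ^ J.card *
    (Module.finrank ℂ (B.map (pj J)) : ℤ)) * h6

/-- The form with the dimension `r` of `B`. -/
theorem chi_perp {r N : ℕ} (hN : 2 ≤ N) (hr : r < N) (B : Submodule ℂ (Fin N → ℂ))
    (hB : Module.finrank ℂ B = r) (i0 : Fin N) :
    EC.E (EC.ind {x : Fin N → ℂ | (∀ b ∈ B, ∑ i, b i * x i = 0) ∧ x i0 = 1 ∧ ∀ i, x i ≠ 0}) =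
      (-1) ^ (N - r - 1) * betaC B := by
  rw [E_perp hN B i0, hB]
  congr 1
  have h1 : N + 1 + r = (N - r - 1) + 2 * (r + 1) := by omega
  rw [h1, pow_add, pow_mul]
  simp

/-- The set is constructible. -/
theorem cons_perpC {N : ℕ} (B : Submodule ℂ (Fin N → ℂ)) (i0 : Fin N) :
    EC.Cons {x : Fin N → ℂ | (∀ b ∈ B, ∑ i, b i * x i = 0) ∧ x i0 = 1 ∧ ∀ i, x i ≠ 0} := by
  have h1 : {x : Fin N → ℂ | (∀ b ∈ B, ∑ i, b i * x i = 0) ∧ x i0 = 1 ∧ ∀ i, x i ≠ 0} =
      {x | x ∈ EC.perp B} ∩ ({x | MvPolynomial.eval x (MvPolynomial.X i0 - 1) = 0} ∩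
        {x | ∀ i, x i ≠ 0}) := by
    ext x
    show ((∀ b ∈ B, ∑ i, b i * x i = 0) ∧ x i0 = 1 ∧ ∀ i, x i ≠ 0) ↔
      ((∀ b ∈ B, ∑ i, x i * b i = 0) ∧
        (MvPolynomial.eval x (MvPolynomial.X i0 - 1) = 0 ∧ ∀ i, x i ≠ 0))
    rw [map_sub, MvPolynomial.eval_X, map_one, sub_eq_zero]
    simp only [mul_comm]
  rw [h1]
  exact (EC.cons_submodule _).inter ((EC.Cons.zero _).inter (EC.cons_all_ne 0))

/-- The form with the Euler characteristic in coordinates. -/
theorem chi_perp' (h2 : EC.Swap2 ℂ) {r N : ℕ} (hN : 2 ≤ N) (hr : r < N)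
    (B : Submodule ℂ (Fin N → ℂ)) (hB : Module.finrank ℂ B = r) (i0 : Fin N) :
    EC.chi N {x : Fin N → ℂ | (∀ b ∈ B, ∑ i, b i * x i = 0) ∧ x i0 = 1 ∧ ∀ i, x i ≠ 0} =
      (-1) ^ (N - r - 1) * betaC B := by
  rw [← chi_perp hN hr B hB i0, EC.E_fin h2 (EC.CF.of_cons (cons_perpC B i0)), EC.chi]

end Pool.Tw
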