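import Pool.Agent.Tw.Sym
import Pool.Agent.Tw.SymCF
import Pool.Agent.Tw.SymPerp

/-!
# D3b: the symmetric form
-/

set_option autoImplicit false
set_option linter.unusedSectionVars false

namespace Pool.Tw

/-- The Euler characteristic of `perpT L` is, up to sign, the beta invariant of `L`. -/
theorem chiPerp : ChiPerp := by
  intro N L hN hL
  refine ⟨cons_perpC L (Fin.last N), ?_⟩
  have h1 := chi_perp (N := N + 1) (by omega) (Nat.lt_succ_of_le hL) L rfl (Fin.last N)
  rw [show N + 1 - Module.finrank ℂ L - 1 = N - Module.finrank ℂ L by omega] at h1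
  exact h1

/-- D3b: the integral over the Grassmannian of `ℂ^m` is an integral over the realisation spaces of
the connected matroids on `m + 1` elements. -/
theorem sym_form (h2 : EC.Swap2 ℂ) {m r n : ℕ} (hr : 1 ≤ r) (hm : r ≤ m) (hn : 1 ≤ n)
    (Y : Set (Fin r × Fin (m + 1) → ℂ)) (hY : IsSlice Y) :
    ∑ᶠ b : ℤ, b ^ n *
        EC.E (EC.ind {A : Fin r × Fin m → ℂ | A ∈ EC.RE ℂ r m ∧ EC.beta (EC.rspan A) = b}) =
      (-1) ^ (m - r) * ∑ᶠ b : ℤ, b ^ (n + 1) *
        EC.E (EC.ind {A : Fin r × Fin (m + 1) → ℂ | A ∈ Y ∧ betaC (EC.rspan A) = b}) :=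
  sym_form_of chiPerp h2 hr hm hn cf_betaC Y hY

end Pool.Tw
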