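import Pool.Agent.Tw.State
import Pool.Agent.Tw.Final
import Pool.Agent.Tw.Base
import Pool.Agent.Tw.MLDeg
import Pool.Agent.Tw.SymForm
import Pool.Agent.Tw.Slice
import Pool.Agent.Tw.Strata
import Pool.Agent.EC.Five3

/-!
# The formula in terms of the definitions of `Tw/State`
-/

set_option autoImplicit false
set_option linter.unusedSectionVars false

namespace Pool.MLF

open Pool.Tw

theorem eulerInt_eq : ∀ (k : ℕ) (f : (Fin k → ℂ) → ℤ), eulerInt k f = EC.EI k f
  | 0, _ => rfl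
  | k + 1, f => by
    have h : (fun t : ℂ => eulerInt k (fun x => f (Fin.cons t x))) =
        fun t => EC.EI k (fun x => f (Fin.cons t x)) := funext fun t => eulerInt_eq k _
    rw [eulerInt, h]
    rfl

theorem chi_eq (k : ℕ) (S : Set (Fin k → ℂ)) : chi k S = EC.chi k S := eulerInt_eq k _

theorem constructible_iff {ι : Type} (S : Set (ι → ℂ)) : Constructible S ↔ EC.Cons S := by
  constructor
  · intro h
    induction h with
    | zero p => exact EC.Cons.zero p
    | compl S _ ih => exact ih.compl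
    | union S T _ _ ih1 ih2 => exact ih1.union ih2
  · intro h
    exact EC.Cons.induct (P := Constructible) (fun p => .zero p) (fun S hS => .compl S hS)
      (fun S T hS hT => .union S T hS hT) h

theorem isEchelon_iff {r m : ℕ} (A : Fin r × Fin m → ℂ) : IsEchelon A ↔ A ∈ EC.RE ℂ r m := Iff.rfl

theorem rowSpace_eq {r m : ℕ} (A : Fin r × Fin m → ℂ) : rowSpace A = EC.rspan A := rfl

theorem rankOn_coords {m : ℕ} (L : Submodule ℂ (Fin m → ℂ)) : rankOn (coords m) L = rkC L := rfl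

theorem crapo_coords {r N : ℕ} {A : Fin r × Fin N → ℂ} (hA : A ∈ EC.RE ℂ r N) :
    crapoBeta r (rankOn (coords N) (rowSpace A)) = betaC (EC.rspan A) := by
  rw [rowSpace_eq, rankOn_coords, betaC_eq, EC.finrank_rspan (EC.RE_subset_Fr hA)]
  rfl

theorem coordsAndSum_eq (m : ℕ) : coordsAndSum m = EC.fn ℂ m := by
  funext o
  cases o <;> rfl

theorem crapo_coordsAndSum {r m : ℕ} {A : Fin r × Fin m → ℂ} (hA : A ∈ EC.RE ℂ r m) :
    crapoBeta r (rankOn (coordsAndSum m) (rowSpace A)) = EC.beta (EC.rspan A) := by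
  rw [rowSpace_eq, coordsAndSum_eq, EC.beta, EC.finrank_rspan (EC.RE_subset_Fr hA)]
  rfl

theorem isRepresentatives_iff {r N : ℕ} (Y : Set (Fin r × Fin N → ℂ)) :
    IsRepresentatives Y ↔ IsSlice Y := by
  unfold IsRepresentatives IsSlice
  refine and_congr (constructible_iff Y) (and_congr ?_ ?_)
  · refine forall_congr' fun A => forall_congr' fun _ => ?_
    constructor
    · rintro ⟨h1, h2⟩
      exact ⟨h1, by rwa [crapo_coords h1] at h2⟩
    · rintro ⟨h1, h2⟩
      exact ⟨h1, by rwa [crapo_coords h1]⟩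
  · refine forall_congr' fun A => ?_
    constructor
    · intro h h1 h2
      exact h h1 (by rwa [crapo_coords h1])
    · intro h h1 h2
      exact h h1 (by rwa [crapo_coords h1] at h2)

/-- The formula. -/
theorem formula (m n r : ℕ) (hr : 1 ≤ r) (hm : r ≤ m) (hn : m ≤ n) :
    ∃ N : ℕ, Pool.ML.IsMLDegree m n r N ∧ Pool.ML.IsMLDegree n m r N ∧
      (∀ u : Matrix (Fin m) (Fin n) ℂ,
        AlgebraicIndependent ℚ (fun x : Fin m × Fin n => u x.1 x.2) →
        {p | Pool.ML.IsCritical r u p}.Finite ∧ {p | Pool.ML.IsCritical r u p}.ncard = N) ∧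
      (∃ Y : Set (Fin r × Fin (m + 1) → ℂ), IsRepresentatives Y) ∧
      (∀ (Y : Set (Fin r × Fin (m + 1) → ℂ)) (k : ℕ) (e : Fin r × Fin (m + 1) ≃ Fin k),
        IsRepresentatives Y → (N : ℤ) = (-1) ^ ((r + 1) * (m - r)) *
          ∑ᶠ ρ : Finset (Fin (m + 1)) → ℕ, crapoBeta r ρ ^ (n + 1) *
            chi k {x | x ∘ e ∈ Y ∧ rankOn (coords (m + 1)) (rowSpace (x ∘ e)) = ρ}) ∧
      (∀ (k : ℕ) (e : Fin r × Fin m ≃ Fin k), (N : ℤ) = (-1) ^ (r * (m - r)) *
        ∑ᶠ b : ℤ, b ^ n * chi k {x | IsEchelon (x ∘ e) ∧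
          crapoBeta r (rankOn (coordsAndSum m) (rowSpace (x ∘ e))) = b}) ∧
      (m = 5 → r = 3 → (N : ℤ) =
        156 * 6 ^ n - 600 * 5 ^ n + 760 * 4 ^ n - 180 * 3 ^ n - 360 * 2 ^ n + 290) := by
  have h2 := Pool.EU.swap2C
  obtain ⟨N, hN, hN2⟩ := final_of h2 hr hm hn
  obtain ⟨h3, h4, -⟩ := isFN_crit hr hm (hm.trans hn) hN
  refine ⟨N, isMLDegree_of_alg h3, isMLDegree_of_alg h4, h3, ?_, ?_, ?_, ?_⟩
  · obtain ⟨Y, hY⟩ := exists_slice r (m + 1)
    exact ⟨Y, (isRepresentatives_iff Y).mpr hY⟩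
  · intro Y k e hY
    rw [isRepresentatives_iff] at hY
    rw [hN2, sym_form h2 hr hm (by omega) Y hY, ← mul_assoc, ← pow_add]
    have h6 : r * (m - r) + (m - r) = (r + 1) * (m - r) := by ring
    rw [h6, strata (n + 1) hY.1 (fun A hA => (hY.2.1 A hA).1) cf_betaC]
    congr 1
    refine finsum_congr fun ρ => ?_
    rw [E_order h2 e (S := {A : Fin r × Fin (m + 1) → ℂ | A ∈ Y ∧ rkC (EC.rspan A) = ρ})
      (hY.1.inter (cons_rk ρ)), chi_eq]
    rfl
  · intro k e
    rw [hN2]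
    congr 1
    refine finsum_congr fun b => ?_
    rw [E_order h2 e (S := {A : Fin r × Fin m → ℂ | A ∈ EC.RE ℂ r m ∧ EC.beta (EC.rspan A) = b})
      (EC.cons_RE.inter (EC.cf_beta.2 b)), chi_eq]
    congr 2
    ext x
    refine and_congr_right fun hx => ?_
    rw [crapo_coordsAndSum hx]
  · rintro rfl rfl
    rw [hN2, EC.five_finsum h2 (by omega)]
    norm_num

end Pool.MLF
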