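import Pool.Agent.Tw.SymLin
import Pool.Agent.EC.Bij
import Pool.Agent.EC.Arr2

/-!
# The integral over the Grassmannian as a sum over connected matroids
-/

set_option autoImplicit false
set_option linter.unusedSectionVars false

namespace Pool.Tw

open Matrix MvPolynomial

/-- `t` is orthogonal to `L`, has nonzero coordinates and the last one is `1`. -/
def perpT {N : ℕ} (L : Submodule ℂ (Fin (N + 1) → ℂ)) : Set (Fin (N + 1) → ℂ) :=
  {t | (∀ b ∈ L, ∑ i, b i * t i = 0) ∧ t (Fin.last N) = 1 ∧ ∀ i, t i ≠ 0}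

/-- The spaces of `A` and `B` are equal up to scaling by `t`, after adding the last coordinate. -/
def Rel {m r : ℕ} (A : Fin r × Fin m → ℂ) (B : Fin r × Fin (m + 1) → ℂ)
    (t : Fin (m + 1) → ℂ) : Prop :=
  ∀ j, extL m (EC.row A j) ∈ (EC.rspan B).map (dg t)

theorem map_rspan_le {m r : ℕ} {A : Fin r × Fin m → ℂ} {B : Fin r × Fin (m + 1) → ℂ}
    {t : Fin (m + 1) → ℂ} : Rel A B t ↔ (EC.rspan A).map (extL m) ≤ (EC.rspan B).map (dg t) := by
  rw [EC.rspan, Submodule.map_span, Submodule.span_le]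
  constructor
  · rintro h _ ⟨_, ⟨j, rfl⟩, rfl⟩
    exact h j
  · intro h j
    exact h ⟨_, ⟨j, rfl⟩, rfl⟩

theorem rel_iff {m r : ℕ} {A : Fin r × Fin m → ℂ} {B : Fin r × Fin (m + 1) → ℂ}
    {t : Fin (m + 1) → ℂ} (hA : A ∈ EC.RE ℂ r m) (hB : B ∈ EC.RE ℂ r (m + 1))
    (ht : ∀ i, t i ≠ 0) :
    Rel A B t ↔ (EC.rspan A).map (extL m) = (EC.rspan B).map (dg t) := by
  rw [map_rspan_le]
  refine ⟨fun h => ?_, fun h => h.le⟩
  apply Submodule.eq_of_le_of_finrank_eq h
  rw [finrank_map_inj _ _ (extL_injective m), finrank_map_inj _ _ (dg_injective ht),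
    EC.finrank_rspan (EC.RE_subset_Fr hA), EC.finrank_rspan (EC.RE_subset_Fr hB)]

/-- The polynomial form of the relation. -/
theorem rel_iff_exists {m r : ℕ} {A : Fin r × Fin m → ℂ} {B : Fin r × Fin (m + 1) → ℂ}
    {t : Fin (m + 1) → ℂ} : Rel A B t ↔ ∃ M : Fin r × Fin r → ℂ, ∀ j i,
      extL m (EC.row A j) i = t i * ∑ l, M (j, l) * B (l, i) := by
  constructor
  · intro h
    have h1 : ∀ j, ∃ c : Fin r → ℂ, dg t (∑ l, c l • EC.row B l) = extL m (EC.row A j) := by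
      intro j
      obtain ⟨y, hy, hy2⟩ := h j
      obtain ⟨c, rfl⟩ := (Submodule.mem_span_range_iff_exists_fun ℂ).1 hy
      exact ⟨c, hy2⟩
    choose c hc using h1
    refine ⟨fun x => c x.1 x.2, fun j i => ?_⟩
    rw [← hc j, dg_apply, Finset.sum_apply]
    rfl
  · rintro ⟨M, hM⟩ j
    refine ⟨∑ l, M (j, l) • EC.row B l, ?_, ?_⟩
    · exact Submodule.sum_mem _ fun l _ => Submodule.smul_mem _ _ (Submodule.subset_span ⟨l, rfl⟩)
    · funext i
      rw [hM, dg_apply, Finset.sum_apply]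
      rfl

/-- The relation is constructible. -/
theorem cons_rel (m r : ℕ) : EC.Cons {w : ((Fin r × Fin m) ⊕ (Fin r × Fin (m + 1))) ⊕
    Fin (m + 1) → ℂ | Rel (w ∘ Sum.inl ∘ Sum.inl) (w ∘ Sum.inl ∘ Sum.inr) (w ∘ Sum.inr)} := by
  have h1 : EC.Cons (⋂ x : Fin r × Fin (m + 1), {w : (((Fin r × Fin m) ⊕ (Fin r × Fin (m + 1))) ⊕
      Fin (m + 1)) ⊕ (Fin r × Fin r) → ℂ | eval w
        (Fin.lastCases (motive := fun _ => MvPolynomial ((((Fin r × Fin m) ⊕
          (Fin r × Fin (m + 1))) ⊕ Fin (m + 1)) ⊕ (Fin r × Fin r)) ℂ)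
          (-∑ i, X (Sum.inl (Sum.inl (Sum.inl (x.1, i)))))
          (fun i => X (Sum.inl (Sum.inl (Sum.inl (x.1, i))))) x.2 -
          X (Sum.inl (Sum.inr x.2)) * ∑ l, X (Sum.inr (x.1, l)) *
            X (Sum.inl (Sum.inl (Sum.inr (l, x.2))))) = 0}) :=
    EC.Cons.iInter fun x => EC.Cons.zero _
  have h2 := h1.proj
  convert h2 using 1
  ext w
  rw [Set.mem_setOf_eq, Set.mem_setOf_eq, rel_iff_exists]
  refine exists_congr fun M => ?_
  rw [Set.mem_iInter, Prod.forall]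
  refine forall_congr' fun j => forall_congr' fun i => ?_
  rw [Set.mem_setOf_eq, map_sub, sub_eq_zero]
  have e1 : eval (Sum.elim w M) (Fin.lastCases (motive := fun _ => MvPolynomial
      ((((Fin r × Fin m) ⊕ (Fin r × Fin (m + 1))) ⊕ Fin (m + 1)) ⊕ (Fin r × Fin r)) ℂ)
      (-∑ i, X (Sum.inl (Sum.inl (Sum.inl (j, i)))))
      (fun i => X (Sum.inl (Sum.inl (Sum.inl (j, i))))) i) =
      extL m (EC.row (w ∘ Sum.inl ∘ Sum.inl) j) i := by
    refine Fin.lastCases ?_ (fun i => ?_) i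
    · rw [Fin.lastCases_last, extL_last]
      simp [EC.row]
    · rw [Fin.lastCases_castSucc, extL_castSucc]
      simp [EC.row]
  simp only [e1, map_mul, map_sum, eval_X, Sum.elim_inl, Sum.elim_inr, Function.comp_apply]

theorem perp_of_rel {m r : ℕ} {A : Fin r × Fin m → ℂ} {B : Fin r × Fin (m + 1) → ℂ}
    {t : Fin (m + 1) → ℂ} (h : (EC.rspan A).map (extL m) = (EC.rspan B).map (dg t)) :
    ∀ b ∈ EC.rspan B, ∑ i, b i * t i = 0 := by
  intro b hb
  have h1 : dg t b ∈ (EC.rspan A).map (extL m) := by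
    rw [h]
    exact Submodule.mem_map_of_mem hb
  obtain ⟨x, -, hx⟩ := h1
  have h2 := extL_sum x
  rw [hx] at h2
  rw [← h2]
  exact Finset.sum_congr rfl fun i _ => mul_comm _ _

theorem map_dg_smul {N : ℕ} (L : Submodule ℂ (Fin N → ℂ)) (t : Fin N → ℂ) {c : ℂ} (hc : c ≠ 0) :
    L.map (dg fun i => c * t i) = L.map (dg t) := by
  ext y
  simp only [Submodule.mem_map]
  constructor
  · rintro ⟨x, hx, rfl⟩
    refine ⟨c • x, L.smul_mem c hx, ?_⟩
    funext i
    rw [dg_apply, dg_apply, Pi.smul_apply, smul_eq_mul]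
    ring
  · rintro ⟨x, hx, rfl⟩
    refine ⟨c⁻¹ • x, L.smul_mem _ hx, ?_⟩
    funext i
    rw [dg_apply, dg_apply, Pi.smul_apply, smul_eq_mul]
    field_simp

/-- The scaling is unique up to a constant. -/
theorem scale_unique {N : ℕ} (L : Submodule ℂ (Fin (N + 1) → ℂ)) (hL : betaC L ≠ 0)
    (t t' : Fin (N + 1) → ℂ) (ht : ∀ i, t i ≠ 0) (ht' : ∀ i, t' i ≠ 0)
    (h : L.map (dg t) = L.map (dg t')) (hl : t (Fin.last N) = 1) (hl' : t' (Fin.last N) = 1) :
    t = t' := by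
  have h1 : ∀ x ∈ L, dg (fun i => (t' i)⁻¹ * t i) x ∈ L := by
    intro x hx
    have h2 : dg t x ∈ L.map (dg t') := by
      rw [← h]
      exact Submodule.mem_map_of_mem hx
    obtain ⟨y, hy, hy2⟩ := h2
    have h3 : dg (fun i => (t' i)⁻¹ * t i) x = y := by
      funext i
      have h4 := congrFun hy2 i
      rw [dg_apply, dg_apply] at h4
      rw [dg_apply, mul_assoc, ← h4, inv_mul_cancel_left₀ (ht' i)]
    rw [h3]
    exact hy
  funext i
  have h2 := stab_scalar L hL _ h1 i (Fin.last N)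
  simp only [hl, hl', inv_one, mul_one] at h2
  exact (inv_mul_eq_one₀ (ht' i)).mp h2 |>.symm

/-- The set of the pairs `(A, B)`. -/
def Gam (m r : ℕ) (Y : Set (Fin r × Fin (m + 1) → ℂ)) :
    Set ((Fin r × Fin m) ⊕ (Fin r × Fin (m + 1)) → ℂ) :=
  {w | w ∘ Sum.inl ∈ EC.RE ℂ r m ∧ w ∘ Sum.inr ∈ Y ∧
    ∃ t : Fin (m + 1) → ℂ, (∀ i, t i ≠ 0) ∧ Rel (w ∘ Sum.inl) (w ∘ Sum.inr) t}

theorem cons_gam {m r : ℕ} {Y : Set (Fin r × Fin (m + 1) → ℂ)} (hY : EC.Cons Y) :
    EC.Cons (Gam m r Y) := by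
  have h1 : EC.Cons ({w : ((Fin r × Fin m) ⊕ (Fin r × Fin (m + 1))) ⊕ Fin (m + 1) → ℂ |
      Rel (w ∘ Sum.inl ∘ Sum.inl) (w ∘ Sum.inl ∘ Sum.inr) (w ∘ Sum.inr)} ∩
      ⋂ i : Fin (m + 1), {w | eval w (X (Sum.inr i)) ≠ 0}) :=
    (cons_rel m r).inter (EC.Cons.iInter fun i => EC.Cons.ne _)
  have h2 := ((EC.cons_RE (K := ℂ) (r := r) (m := m)).reindex
    (Sum.inl : Fin r × Fin m → (Fin r × Fin m) ⊕ (Fin r × Fin (m + 1)))).inter
    ((hY.reindex (Sum.inr : Fin r × Fin (m + 1) → (Fin r × Fin m) ⊕ (Fin r × Fin (m + 1)))).inter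
      h1.proj)
  convert h2 using 1
  ext w
  simp only [Gam, Set.mem_setOf_eq, Set.mem_inter_iff, Set.mem_iInter, eval_X, Sum.elim_inr]
  refine and_congr_right fun _ => and_congr_right fun _ => exists_congr fun t => ?_
  rw [and_comm]
  rfl

section fibre

variable {m r : ℕ} {Y : Set (Fin r × Fin (m + 1) → ℂ)} (hY : IsSlice Y)
  {B : Fin r × Fin (m + 1) → ℂ} (hB : B ∈ Y)

include hY hB

theorem fibre_beta {A : Fin r × Fin m → ℂ} (h : Sum.elim A B ∈ Gam m r Y) :
    EC.beta (EC.rspan A) = betaC (EC.rspan B) := by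
  obtain ⟨h1, -, t, ht, h2⟩ := h
  simp only [Sum.elim_comp_inl, Sum.elim_comp_inr] at h1 h2
  rw [rel_iff h1 (hY.2.1 B hB).1 ht] at h2
  rw [← betaC_ext, h2, betaC_dg _ ht]

/-- The Euler characteristic of the fibre. -/
theorem fibre_chi (h2 : EC.Swap2 ℂ) (hT : EC.Cons (perpT (EC.rspan B))) :
    EC.E (fun A : Fin r × Fin m → ℂ => EC.ind (Gam m r Y) (Sum.elim A B)) =
      EC.E (EC.ind (perpT (EC.rspan B))) := by
  have hBY := hY.2.1 B hB
  -- the set of the pairs `(A, t)`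
  let Γ : Set ((Fin r × Fin m) ⊕ Fin (m + 1) → ℂ) :=
    {w | w ∘ Sum.inl ∈ EC.RE ℂ r m ∧ w ∘ Sum.inr ∈ perpT (EC.rspan B) ∧
      Rel (w ∘ Sum.inl) B (w ∘ Sum.inr)}
  have hΓ : EC.Cons Γ := by
    have e1 : EC.Cons {w : (Fin r × Fin m) ⊕ Fin (m + 1) → ℂ |
        Rel (w ∘ Sum.inl) B (w ∘ Sum.inr)} := by
      have e2 := (cons_rel m r).preimage (ι := (Fin r × Fin m) ⊕ Fin (m + 1))
        (Sum.elim (Sum.elim (fun x => X (Sum.inl x)) (fun x => C (B x)))
          (fun i => X (Sum.inr i)))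
      convert e2 using 1
      ext w
      simp only [Set.mem_setOf_eq]
      have e3 : (fun k => eval w (Sum.elim (Sum.elim (fun x => X (Sum.inl x)) (fun x => C (B x)))
          (fun i => X (Sum.inr i)) k)) ∘ Sum.inl ∘ Sum.inl = w ∘ Sum.inl := by
        funext x
        simp
      have e4 : (fun k => eval w (Sum.elim (Sum.elim (fun x => X (Sum.inl x)) (fun x => C (B x)))
          (fun i => X (Sum.inr i)) k)) ∘ Sum.inl ∘ Sum.inr = B := by
        funext x
        simp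
      have e5 : (fun k => eval w (Sum.elim (Sum.elim (fun x => X (Sum.inl x)) (fun x => C (B x)))
          (fun i => X (Sum.inr i)) k)) ∘ Sum.inr = w ∘ Sum.inr := by
        funext x
        simp
      rw [e3, e4, e5]
    exact ((EC.cons_RE (K := ℂ) (r := r) (m := m)).reindex
      (Sum.inl : Fin r × Fin m → (Fin r × Fin m) ⊕ Fin (m + 1))).inter
      ((hT.reindex (Sum.inr : Fin (m + 1) → (Fin r × Fin m) ⊕ Fin (m + 1))).inter e1)
  have hf : EC.CF (fun A : Fin r × Fin m → ℂ => EC.ind (Gam m r Y) (Sum.elim A B)) := by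
    have e1 := (EC.CF.of_cons (cons_gam hY.1)).preimage (ι := Fin r × Fin m)
      (Sum.elim (fun x => X x) (fun x => C (B x)))
    convert e1 using 1
    ext A
    congr 1
    funext x
    rcases x with x | x <;> simp
  refine EC.E_bij h2 hΓ hf ?_ ?_ ?_
  · intro A hA
    have hA' : Sum.elim A B ∈ Gam m r Y := by
      by_contra h
      exact hA (if_neg h)
    obtain ⟨h1, -, t, ht, h3⟩ := hA'
    simp only [Sum.elim_comp_inl, Sum.elim_comp_inr] at h1 h3
    rw [rel_iff h1 hBY.1 ht] at h3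
    have hl : t (Fin.last m) ≠ 0 := ht _
    have ht' : ∀ i, (t (Fin.last m))⁻¹ * t i ≠ 0 := fun i => mul_ne_zero (inv_ne_zero hl) (ht i)
    have h4 : (EC.rspan A).map (extL m) =
        (EC.rspan B).map (dg fun i => (t (Fin.last m))⁻¹ * t i) := by
      rw [map_dg_smul _ _ (inv_ne_zero hl)]
      exact h3
    refine ⟨fun i => (t (Fin.last m))⁻¹ * t i, ?_, ?_⟩
    · refine ⟨?_, ?_, ?_⟩
      · simpa using h1
      · simp only [Sum.elim_comp_inr]
        exact ⟨perp_of_rel h4, inv_mul_cancel₀ hl, ht'⟩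
      · simp only [Sum.elim_comp_inl, Sum.elim_comp_inr]
        exact (rel_iff h1 hBY.1 ht').mpr h4
    · rintro s ⟨-, h5, h6⟩
      simp only [Sum.elim_comp_inl, Sum.elim_comp_inr] at h5 h6
      rw [rel_iff h1 hBY.1 h5.2.2] at h6
      exact scale_unique _ hBY.2 s _ h5.2.2 ht' (h6.symm.trans h4) h5.2.1 (inv_mul_cancel₀ hl)
  · intro t ht
    have ht' : t ∈ perpT (EC.rspan B) := by
      by_contra h
      exact ht (if_neg h)
    -- the space
    let L : Submodule ℂ (Fin m → ℂ) := ((EC.rspan B).map (dg t)).comap (extL m)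
    have hL : L.map (extL m) = (EC.rspan B).map (dg t) := by
      rw [Submodule.map_comap_eq, inf_eq_right]
      rintro _ ⟨b, hb, rfl⟩
      have e1 : ∑ i, dg t b i = 0 := by
        rw [← ht'.1 b hb]
        exact Finset.sum_congr rfl fun i _ => mul_comm _ _
      obtain ⟨x, hx⟩ := exists_extL _ e1
      exact ⟨x, hx⟩
    have hfr : Module.finrank ℂ L = r := by
      rw [← finrank_map_inj L _ (extL_injective m), hL, finrank_map_inj _ _ (dg_injective ht'.2.2),
        EC.finrank_rspan (EC.RE_subset_Fr hBY.1)]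
    obtain ⟨A, ⟨hA1, hA2⟩, hA3⟩ := EC.RE_unique hfr
    refine ⟨A, ?_, ?_⟩
    · refine ⟨?_, ?_, ?_⟩
      · simpa using hA1
      · simpa using ht'
      · simp only [Sum.elim_comp_inl, Sum.elim_comp_inr]
        rw [rel_iff hA1 hBY.1 ht'.2.2, hA2, hL]
    · rintro A' ⟨h5, -, h6⟩
      simp only [Sum.elim_comp_inl, Sum.elim_comp_inr] at h5 h6
      rw [rel_iff h5 hBY.1 ht'.2.2] at h6
      refine hA3 A' ⟨h5, ?_⟩
      apply Submodule.map_injective_of_injective (extL_injective m)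
      rw [h6, hL]
  · rintro A t ⟨h1, h3, h4⟩
    simp only [Sum.elim_comp_inl, Sum.elim_comp_inr] at h1 h3 h4
    have e1 : Sum.elim A B ∈ Gam m r Y := by
      refine ⟨?_, ?_, t, h3.2.2, ?_⟩
      · simpa using h1
      · simpa using hB
      · simpa using h4
    rw [EC.ind, if_pos e1, EC.ind, if_pos h3]

end fibre

/-- The Euler characteristic of the set `perpT`, as a hypothesis. -/
def ChiPerp : Prop := ∀ (N : ℕ) (L : Submodule ℂ (Fin (N + 1) → ℂ)), 1 ≤ N →
  Module.finrank ℂ L ≤ N → EC.Cons (perpT L) ∧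
    EC.E (EC.ind (perpT L)) = (-1) ^ (N - Module.finrank ℂ L) * betaC L

/-- D3b, from the Euler characteristic of the orthogonal space and the constructibility of the
beta invariant. -/
theorem sym_form_of (hχ : ChiPerp) (h2 : EC.Swap2 ℂ) {m r n : ℕ} (hr : 1 ≤ r) (hm : r ≤ m)
    (hn : 1 ≤ n)
    (hcf : EC.CF (fun A : Fin r × Fin (m + 1) → ℂ => betaC (EC.rspan A)))
    (Y : Set (Fin r × Fin (m + 1) → ℂ)) (hY : IsSlice Y) :
    ∑ᶠ b : ℤ, b ^ n *
        EC.E (EC.ind {A : Fin r × Fin m → ℂ | A ∈ EC.RE ℂ r m ∧ EC.beta (EC.rspan A) = b}) =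
      (-1) ^ (m - r) * ∑ᶠ b : ℤ, b ^ (n + 1) *
        EC.E (EC.ind {A : Fin r × Fin (m + 1) → ℂ | A ∈ Y ∧ betaC (EC.rspan A) = b}) := by
  rw [← EC.E_eq_finsum (EC.cons_RE (K := ℂ)) EC.cf_beta (fun b => b ^ n),
    ← EC.E_eq_finsum hY.1 hcf (fun b => b ^ (n + 1))]
  have hf : EC.CF (fun A : Fin r × Fin m → ℂ => EC.ind (EC.RE ℂ r m) A *
      EC.beta (EC.rspan A) ^ n) :=
    (EC.CF.of_cons EC.cons_RE).comp₂ EC.cf_beta (fun a b => a * b ^ n)
  have hg : EC.CF (fun B : Fin r × Fin (m + 1) → ℂ => EC.ind Y B *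
      betaC (EC.rspan B) ^ (n + 1)) :=
    (EC.CF.of_cons hY.1).comp₂ hcf (fun a b => a * b ^ (n + 1))
  rw [← EC.E_mul _ hg, EC.E_fib h2 (cons_gam hY.1) hf]
  · congr 1
    funext B
    by_cases hB : B ∈ Y
    · have hBY := hY.2.1 B hB
      have hfr : Module.finrank ℂ (EC.rspan B) = r := EC.finrank_rspan (EC.RE_subset_Fr hBY.1)
      obtain ⟨hT, hχB⟩ := hχ m (EC.rspan B) (hr.trans hm) (by rw [hfr]; exact hm)
      have h3 : (fun A : Fin r × Fin m → ℂ => EC.ind (Gam m r Y) (Sum.elim A B) *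
          (EC.ind (EC.RE ℂ r m) A * EC.beta (EC.rspan A) ^ n)) = fun A =>
          betaC (EC.rspan B) ^ n * EC.ind (Gam m r Y) (Sum.elim A B) := by
        funext A
        by_cases hA : Sum.elim A B ∈ Gam m r Y
        · have h4 : A ∈ EC.RE ℂ r m := by
            have h5 := hA.1
            simpa using h5
          rw [fibre_beta hY hB hA, EC.ind, if_pos hA, EC.ind, if_pos h4]
          ring
        · rw [EC.ind, if_neg hA]
          ring
      have hcfB : EC.CF (fun A : Fin r × Fin m → ℂ => EC.ind (Gam m r Y) (Sum.elim A B)) := by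
        have e1 := (EC.CF.of_cons (cons_gam hY.1)).preimage (ι := Fin r × Fin m)
          (Sum.elim (fun x => X x) (fun x => C (B x)))
        convert e1 using 1
        ext A
        congr 1
        funext x
        rcases x with x | x <;> simp
      rw [h3, EC.E_mul _ hcfB, fibre_chi hY hB h2 hT, hχB, hfr, EC.ind, if_pos hB]
      ring
    · have h3 : (fun A : Fin r × Fin m → ℂ => EC.ind (Gam m r Y) (Sum.elim A B) *
          (EC.ind (EC.RE ℂ r m) A * EC.beta (EC.rspan A) ^ n)) = fun _ => 0 := by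
        funext A
        have hA : Sum.elim A B ∉ Gam m r Y := by
          intro h
          apply hB
          have h5 := h.2.1
          simpa using h5
        rw [EC.ind, if_neg hA, zero_mul]
      rw [h3, EC.E_const, EC.ind, if_neg hB]
      ring
  · intro A hA
    have hA1 : A ∈ EC.RE ℂ r m := by
      by_contra h
      apply hA
      rw [EC.ind, if_neg h, zero_mul]
    have hA2 : EC.beta (EC.rspan A) ≠ 0 := by
      intro h
      apply hA
      rw [h, zero_pow (by omega), mul_zero]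
    have hfr : Module.finrank ℂ ((EC.rspan A).map (extL m)) = r := by
      rw [finrank_map_inj _ _ (extL_injective m), EC.finrank_rspan (EC.RE_subset_Fr hA1)]
    obtain ⟨A', ⟨hA'1, hA'2⟩, -⟩ := EC.RE_unique hfr
    have hA'3 : betaC (EC.rspan A') ≠ 0 := by
      rw [hA'2, betaC_ext]
      exact hA2
    obtain ⟨B, ⟨hB1, t, ht, hB2⟩, hB3⟩ := hY.2.2 A' hA'1 hA'3
    have hB2' : (EC.rspan A).map (extL m) = (EC.rspan B).map (dg t) := by
      rw [← hA'2, hB2]
      rfl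
    refine ⟨B, ?_, ?_⟩
    · refine ⟨?_, ?_, t, ht, ?_⟩
      · simpa using hA1
      · simpa using hB1
      · simp only [Sum.elim_comp_inl, Sum.elim_comp_inr]
        exact (rel_iff hA1 (hY.2.1 B hB1).1 ht).mpr hB2'
    · rintro B' ⟨-, h4, t', ht', h5⟩
      simp only [Sum.elim_comp_inl, Sum.elim_comp_inr] at h4 h5
      rw [rel_iff hA1 (hY.2.1 B' h4).1 ht'] at h5
      refine hB3 B' ⟨h4, t', ht', ?_⟩
      rw [hA'2, h5]
      rfl

end Pool.Tw
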