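import Pool.Agent.Tw.Sym
import Pool.Agent.Tw.SymPerp

/-!
# The Euler characteristic of the set `perpT`
-/

set_option autoImplicit false
set_option linter.unusedSectionVars false

namespace Pool.Tw

/-- The Euler characteristic of the set `perpT`, for a space with nonzero beta invariant. -/
theorem chiPerp_of {N : ℕ} (L : Submodule ℂ (Fin (N + 1) → ℂ)) (h : Module.finrank ℂ L ≤ N)
    (hL : betaC L ≠ 0) : EC.Cons (perpT L) ∧
      EC.E (EC.ind (perpT L)) = (-1) ^ (N - Module.finrank ℂ L) * betaC L := by
  have hN : 1 ≤ N := by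
    by_contra hN
    obtain rfl : N = 0 := by omega
    have h1 : L = ⊥ := Submodule.finrank_eq_zero.mp (by omega)
    apply hL
    rw [h1, betaC_def, Finset.sum_eq_zero, mul_zero]
    intro J _
    rw [Submodule.map_bot, finrank_bot, Nat.cast_zero, mul_zero]
  refine ⟨cons_perpC L (Fin.last N), ?_⟩
  have h1 := chi_perp (r := Module.finrank ℂ L) (by omega : 2 ≤ N + 1) (by omega) L rfl (Fin.last N)
  have h2 : N + 1 - Module.finrank ℂ L - 1 = N - Module.finrank ℂ L := by omega
  rw [h2] at h1
  exact h1

end Pool.Tw
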