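import Pool.Agent.Tw.Defs
import Pool.Agent.EC.Arr2

/-!
# Realisation spaces of connected matroids: definitions
-/

set_option autoImplicit false
set_option linter.unusedSectionVars false

namespace Pool.Tw

open Matrix Pool.ML Pool.EU

/-- The beta invariant of the matroid of the coordinates on `L`. -/
noncomputable def betaC {N : ℕ} (L : Submodule ℂ (Fin N → ℂ)) : ℤ :=
  (-1) ^ Module.finrank ℂ L * ∑ J : Finset (Fin N), (-1) ^ J.card *
    (Module.finrank ℂ (L.map (LinearMap.pi fun j : J => LinearMap.proj j.1)) : ℤ)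

/-- The matrices `A` and `B` have the same row space up to scaling of the coordinates. -/
def TEquiv {r N : ℕ} (A B : Fin r × Fin N → ℂ) : Prop :=
  ∃ t : Fin N → ℂ, (∀ i, t i ≠ 0) ∧
    EC.rspan A = (EC.rspan B).map (LinearMap.pi fun i => t i • LinearMap.proj i)

/-- `Y` is a constructible set of representatives for the spaces of dimension `r` in `ℂ^N` with
connected matroid, up to scaling of the coordinates. -/
def IsSlice {r N : ℕ} (Y : Set (Fin r × Fin N → ℂ)) : Prop :=
  EC.Cons Y ∧ (∀ A ∈ Y, A ∈ EC.RE ℂ r N ∧ betaC (EC.rspan A) ≠ 0) ∧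
    ∀ A ∈ EC.RE ℂ r N, betaC (EC.rspan A) ≠ 0 → ∃! B, B ∈ Y ∧ TEquiv A B

end Pool.Tw
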