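import Pool.Agent.Tw.Defs
import Pool.Agent.EU.Aut
import Pool.Agent.ML14.VeryGeneral

/-!
# The number of critical points does not depend on the generic data
-/

set_option autoImplicit false
set_option linter.unusedSectionVars false

namespace Pool.Tw

open Matrix Pool.ML Pool.EU

variable {I J : Type} [Fintype I] [Fintype J] [DecidableEq I] [DecidableEq J] {l : ℕ}

/-- an automorphism maps solutions to solutions; of `v` only the free positions matter -/
theorem FSol.map {F : Frame I l} {r : ℕ} {u : Matrix I J ℂ} {v : Matrix I (Fin l) ℂ}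
    {q : Matrix I (Fin l) ℂ} {P : Matrix I J ℂ} {φ : Matrix I (Fin l) ℂ} {G : Matrix I J ℂ}
    (h : FSol F r u v q P φ G) (σ : ℂ ≃+* ℂ) {u' : Matrix I J ℂ} {v' : Matrix I (Fin l) ℂ}
    (hu : ∀ i j, u' i j = σ (u i j)) (hv : ∀ a i, i ∈ F.S a → i ≠ F.piv a → v' i a = σ (v i a)) :
    FSol F r u' v' (q.map σ) (P.map σ) (φ.map σ) (G.map σ) where
  eq i j := by
    rw [hu, Matrix.map_apply, Matrix.map_apply, ← h.eq i j]
    simp
  one a := by
    rw [Matrix.map_apply, h.one a, map_one]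
  off a i hi := by
    rw [Matrix.map_apply, h.off a i hi, map_zero]
  on a i hi hp := by
    rw [Matrix.map_apply, Matrix.map_apply, hv a i hi hp, ← map_mul, h.on a i hi hp, map_neg]
  rk := by rw [Pool.ML.rank_map, h.rk]
  mem := by
    obtain ⟨Z, hZ⟩ := h.mem
    refine ⟨Z.map σ, ?_⟩
    rw [hZ]
    ext i j
    simp [Matrix.mul_apply, map_sum]
  PG := by
    ext a b
    have h1 := congrArg σ (congrFun (congrFun h.PG a) b)
    simpa [Matrix.mul_apply, map_sum, map_mul] using h1
  Pφ := by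
    ext a b
    have h1 := congrArg σ (congrFun (congrFun h.Pφ a) b)
    simpa [Matrix.mul_apply, map_sum, map_mul] using h1
  om := by
    ext a b
    have h1 := congrArg σ (congrFun (congrFun h.om a) b)
    simpa [Matrix.mul_apply, map_sum, map_mul] using h1

/-- the action of an automorphism on the pairs of matrices -/
def conj (σ : ℂ ≃+* ℂ) (x : Matrix I (Fin l) ℂ × Matrix I J ℂ) :
    Matrix I (Fin l) ℂ × Matrix I J ℂ := (x.1.map σ, x.2.map σ)

theorem conj_injective (σ : ℂ ≃+* ℂ) : Function.Injective (conj σ : Matrix I (Fin l) ℂ ×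
    Matrix I J ℂ → Matrix I (Fin l) ℂ × Matrix I J ℂ) := by
  rintro ⟨a, b⟩ ⟨a', b'⟩ h
  have h1 := (Prod.ext_iff.1 h).1
  have h2 := (Prod.ext_iff.1 h).2
  refine Prod.ext ?_ ?_
  · ext i j
    have := congrFun (congrFun h1 i) j
    exact σ.injective this
  · ext i j
    have := congrFun (congrFun h2 i) j
    exact σ.injective this

theorem FSet_image {F : Frame I l} {r : ℕ} {u : Matrix I J ℂ} {v : Matrix I (Fin l) ℂ}
    (σ : ℂ ≃+* ℂ) {u' : Matrix I J ℂ} {v' : Matrix I (Fin l) ℂ} (hu : ∀ i j, u' i j = σ (u i j))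
    (hv : ∀ a i, i ∈ F.S a → i ≠ F.piv a → v' i a = σ (v i a)) :
    FSet F r u' v' = conj σ '' FSet F r u v := by
  ext x
  constructor
  · rintro ⟨φ, G, h⟩
    have h1 := h.map σ.symm (u' := u) (v' := v) (fun i j => by rw [hu, RingEquiv.symm_apply_apply])
      (fun a i hi hp => by rw [hv a i hi hp, RingEquiv.symm_apply_apply])
    refine ⟨(x.1.map σ.symm, x.2.map σ.symm), ⟨_, _, h1⟩, ?_⟩
    refine Prod.ext ?_ ?_
    · ext i j
      simp [conj]
    · ext i j
      simp [conj]
  · rintro ⟨y, ⟨φ, G, h⟩, rfl⟩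
    exact ⟨_, _, h.map σ hu hv⟩

/-- T1: independence of the data. -/
theorem isFN_of_one (F : Frame I l) {r : ℕ} {u : Matrix I J ℂ} {v : Matrix I (Fin l) ℂ}
    (hg : FGen F u v) (hf : (FSet F r u v).Finite) : IsFN F J r (FSet F r u v).ncard := by
  intro u' v' hg'
  obtain ⟨σ, hσ⟩ := exists_autom_family (k := ℚ) (gdat F u v) (gdat F u' v') hg hg'
  have h1 := FSet_image (F := F) (r := r) (u := u) (v := v) (σ : ℂ ≃+* ℂ) (u' := u') (v' := v')
    (fun i j => (hσ (Sum.inl (i, j))).symm)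
    (fun a i hi hp => (hσ (Sum.inr ⟨(i, a), hi, hp⟩)).symm)
  rw [h1]
  exact ⟨hf.image _, Set.ncard_image_of_injective _ (conj_injective _)⟩

end Pool.Tw
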